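import Pool.Agent.Helper9.Hopf.Pre

set_option autoImplicit false

namespace Pool.Agent.Helper9.Hopf

/-- skew product of an automorphism with a cocycle -/
def skew {Ω Ω' : Type} [LinearOrder Ω] [LinearOrder Ω'] (u : Ω ≃o Ω) (f : Ω → (Ω' ≃o Ω')) :
    (Ω ×ₗ Ω') ≃o (Ω ×ₗ Ω') where
  toFun p := toLex (u (ofLex p).1, f (ofLex p).1 (ofLex p).2)
  invFun p := toLex (u.symm (ofLex p).1, (f (u.symm (ofLex p).1)).symm (ofLex p).2)
  left_inv p := by simp
  right_inv p := by simp
  map_rel_iff' := by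
    intro p q
    have key : ∀ (a : Ω) (b : Ω') (c : Ω) (d : Ω'),
        (toLex (u a, f a b) ≤ toLex (u c, f c d)) ↔ (toLex (a, b) ≤ toLex (c, d)) := by
      intro a b c d
      simp only [Prod.Lex.toLex_le_toLex, OrderIso.lt_iff_lt, EmbeddingLike.apply_eq_iff_eq]
      constructor
      · rintro (h | ⟨h, h'⟩)
        · exact Or.inl h
        · subst h
          exact Or.inr ⟨rfl, (f a).le_iff_le.1 h'⟩
      · rintro (h | ⟨h, h'⟩)
        · exact Or.inl h
        · subst h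
          exact Or.inr ⟨rfl, (f a).le_iff_le.2 h'⟩
    exact key (ofLex p).1 (ofLex p).2 (ofLex q).1 (ofLex q).2

@[simp] theorem skew_apply {Ω Ω' : Type} [LinearOrder Ω] [LinearOrder Ω'] (u : Ω ≃o Ω)
    (f : Ω → (Ω' ≃o Ω')) (v : Ω) (w : Ω') :
    skew u f (toLex (v, w)) = toLex (u v, f v w) := rfl

section covers
variable {n : ℕ} {Ω Ω' Ω'' : Type} [LinearOrder Ω] [LinearOrder Ω'] [LinearOrder Ω'']

/-- `u` is a lift of `z`. -/
def Covers (u : Fin n → ((Ω ×ₗ Ω') ≃o (Ω ×ₗ Ω'))) (z : Fin n → (Ω ≃o Ω)) : Prop :=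
  ∀ i p, (ofLex (u i p)).1 = z i (ofLex p).1

theorem covers_skew (z : Fin n → (Ω ≃o Ω)) (f : Fin n → Ω → (Ω' ≃o Ω')) :
    Covers (fun i => skew (z i) (f i)) z := fun _ _ => rfl

variable {u : Fin n → ((Ω ×ₗ Ω') ≃o (Ω ×ₗ Ω'))} {z y : Fin n → (Ω ≃o Ω)}
  {u' : Fin n → ((Ω ×ₗ Ω'') ≃o (Ω ×ₗ Ω''))}

theorem Covers.act (hu : Covers u z) (g : FreeGroup (Fin n)) (p : Ω ×ₗ Ω') :
    (ofLex (act u g p)).1 = act z g (ofLex p).1 :=
  intertwine (π := fun p : Ω ×ₗ Ω' => (ofLex p).1) hu g p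

theorem Covers.map {m : ℕ} (hu : Covers u z) (W : LocFam n m) :
    Covers (W.map _ u) (W.map _ z) := fun i p =>
  W.natural (π := fun p : Ω ×ₗ Ω' => (ofLex p).1) Prod.Lex.monotone_fst_ofLex hu i p

theorem Covers.map' (hu : Covers u z) (W : LocFam n n) (h : W.map _ z = y) :
    Covers (W.map _ u) y := h ▸ hu.map W

theorem Covers.finer (hu : Covers u z) (x : Ω) (w : Ω') : Finer u (toLex (x, w)) z x := by
  intro g h hle
  have := Prod.Lex.monotone_fst_ofLex hle
  simpa [hu.act] using this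

theorem Covers.act_eq (hu : Covers u z) (x : Ω) (w : Ω') (g : FreeGroup (Fin n)) :
    Hopf.act u g (toLex (x, w)) =
      toLex (Hopf.act z g x, (ofLex (Hopf.act u g (toLex (x, w)))).2) := by
  have := hu.act g (toLex (x, w))
  simp only [ofLex_toLex] at this
  rw [← this]; rfl

/-- holonomy of a lift -/
def hol (hu : Covers u z) (x : Ω) : stab z x →* (Ω' ≃o Ω') where
  toFun c :=
    { toFun := fun w => (ofLex (Hopf.act u c (toLex (x, w)))).2
      invFun := fun w => (ofLex (Hopf.act u (c : FreeGroup (Fin n))⁻¹ (toLex (x, w)))).2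
      left_inv := by
        intro w
        have h1 := hu.act_eq x w c
        rw [mem_stab.1 c.2] at h1
        simp only
        rw [← h1, act_inv_act]; rfl
      right_inv := by
        intro w
        have h1 := hu.act_eq x w (c : FreeGroup (Fin n))⁻¹
        rw [mem_stab.1 (inv_mem c.2)] at h1
        simp only
        rw [← h1, act_act_inv]; rfl
      map_rel_iff' := by
        intro w w'
        have h1 := hu.act_eq x w c
        have h2 := hu.act_eq x w' c
        rw [mem_stab.1 c.2] at h1 h2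
        have h3 := act_le_iff u c (toLex (x, w)) (toLex (x, w'))
        rw [h1, h2] at h3
        simp only [Prod.Lex.toLex_le_toLex, lt_self_iff_false, true_and, false_or] at h3
        exact h3 }
  map_one' := by
    ext w; simp
  map_mul' c d := by
    ext w
    have h1 := hu.act_eq x w d
    rw [mem_stab.1 d.2] at h1
    show (ofLex (Hopf.act u ((c : FreeGroup (Fin n)) * d) (toLex (x, w)))).2 = _
    rw [act_mul, h1]; rfl

theorem act_hol (hu : Covers u z) (x : Ω) (w : Ω') (c : stab z x) :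
    Hopf.act u c (toLex (x, w)) = toLex (x, hol hu x c w) := by
  have h1 := hu.act_eq x w c
  rw [mem_stab.1 c.2] at h1
  exact h1

theorem act_hol' (hu : Covers u z) (x : Ω) (w : Ω') {c : FreeGroup (Fin n)} (hc : c ∈ stab z x) :
    Hopf.act u c (toLex (x, w)) = toLex (x, hol hu x ⟨c, hc⟩ w) := act_hol hu x w ⟨c, hc⟩

theorem act_le_act_iff (g h : FreeGroup (Fin n)) {Ω : Type} [LinearOrder Ω]
    (z : Fin n → (Ω ≃o Ω)) (x y : Ω) :
    Hopf.act z g x ≤ Hopf.act z h y ↔ Hopf.act z (h⁻¹ * g) x ≤ y := by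
  rw [← act_le_iff z h⁻¹, act_inv_act, act_mul]

/-- order of the orbit of a fibre in terms of base and holonomy -/
theorem Covers.le_iff (hu : Covers u z) (x : Ω) (w w' : Ω') (g h : FreeGroup (Fin n)) :
    Hopf.act u g (toLex (x, w)) ≤ Hopf.act u h (toLex (x, w')) ↔
      Hopf.act z g x < Hopf.act z h x ∨
        ∃ hc : h⁻¹ * g ∈ stab z x, hol hu x ⟨h⁻¹ * g, hc⟩ w ≤ w' := by
  rw [act_le_act_iff]
  constructor
  · intro hle
    rcases lt_trichotomy (Hopf.act z g x) (Hopf.act z h x) with h1 | h1 | h1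
    · exact Or.inl h1
    · right
      have hc : h⁻¹ * g ∈ stab z x := inv_mul_mem_stab.2 h1
      refine ⟨hc, ?_⟩
      rw [act_hol' hu x w hc] at hle
      simpa [Prod.Lex.toLex_le_toLex] using hle
    · exfalso
      have := Prod.Lex.monotone_fst_ofLex hle
      simp only [hu.act, ofLex_toLex] at this
      rw [act_mul, ← act_le_iff z h, act_act_inv] at this
      exact absurd this (not_le.2 h1)
  · rintro (h1 | ⟨hc, h1⟩)
    · rw [hu.act_eq x w (h⁻¹ * g), Prod.Lex.toLex_le_toLex]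
      left
      simp only
      rw [act_mul, ← act_lt_iff z h, act_act_inv]
      exact h1
    · rw [act_hol' hu x w hc, Prod.Lex.toLex_le_toLex]
      exact Or.inr ⟨rfl, h1⟩

/-- comparison of patterns of two lifts -/
theorem Covers.coarse (hu : Covers u z) (hu' : Covers u' z) (x : Ω) (w : Ω') (w' : Ω'')
    (F : Finset (FreeGroup (Fin n)))
    (H : ∀ g ∈ F, ∀ h ∈ F, ∀ hc : h⁻¹ * g ∈ stab z x, hol hu x ⟨h⁻¹ * g, hc⟩ w ≤ w →
      hol hu' x ⟨h⁻¹ * g, hc⟩ w' ≤ w') :
    Coarse F u (toLex (x, w)) u' (toLex (x, w')) := by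
  intro g hg h hh hle
  rw [hu.le_iff] at hle
  rw [hu'.le_iff]
  rcases hle with h1 | ⟨hc, h1⟩
  · exact Or.inl h1
  · exact Or.inr ⟨hc, H g hg h hh hc h1⟩

theorem Covers.finer_of_hol (hu : Covers u z) (hu' : Covers u' z) (x : Ω) (w : Ω') (w' : Ω'')
    (H : ∀ c, hol hu x c w ≤ w → hol hu' x c w' ≤ w') :
    Finer u (toLex (x, w)) u' (toLex (x, w')) := by
  intro g h hle
  rw [hu.le_iff] at hle
  rw [hu'.le_iff]
  rcases hle with h1 | ⟨hc, h1⟩
  · exact Or.inl h1
  · exact Or.inr ⟨hc, H _ h1⟩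

/-- lifts with the same holonomy are mapped to lifts with the same holonomy -/
theorem hol_map_congr {u₁ : Fin n → ((Ω ×ₗ Ω') ≃o (Ω ×ₗ Ω'))} (hu : Covers u z)
    (hu₁ : Covers u₁ z) (x : Ω) (H : ∀ c, hol hu x c = hol hu₁ x c) (W : LocFam n n)
    (h : W.map _ z = y) (d : stab y x) :
    hol (hu.map' W h) x d = hol (hu₁.map' W h) x d := by
  subst h
  ext w
  obtain ⟨F, hF⟩ := W.loc_word (d : FreeGroup (Fin n))
  have hc : Coarse F u (toLex (x, w)) u₁ (toLex (x, w)) :=
    hu.coarse hu₁ x w w F (fun g _ h _ hc hle => by rw [← H]; exact hle)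
  obtain ⟨g, -, h1, h2⟩ := hF _ _ u u₁ _ _ hc
  simp only at h1 h2
  have e1 := act_hol (hu.map W) x w d
  have e2 := act_hol (hu₁.map W) x w d
  rw [h1] at e1
  rw [h2] at e2
  have hg : g ∈ stab z x := by
    have := hu.act g (toLex (x, w))
    rw [e1] at this
    exact this.symm
  rw [act_hol' hu x w hg] at e1
  rw [act_hol' hu₁ x w hg] at e2
  have e1' := congrArg (fun p => (ofLex p).2) e1
  have e2' := congrArg (fun p => (ofLex p).2) e2
  simp only [ofLex_toLex] at e1' e2'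
  show hol (hu.map W) x d w = hol (hu₁.map W) x d w
  rw [← e1', ← e2', H]

end covers

section ind
variable {n : ℕ} {Ω Ω' : Type} [LinearOrder Ω] [LinearOrder Ω']

open Classical in
/-- section of the orbit map -/
noncomputable def sec (z : Fin n → (Ω ≃o Ω)) (x v : Ω) : FreeGroup (Fin n) :=
  if v = x then 1 else if h : ∃ g, act z g x = v then h.choose else 1

theorem sec_self (z : Fin n → (Ω ≃o Ω)) (x : Ω) : sec z x x = 1 := by simp [sec]

theorem act_sec {z : Fin n → (Ω ≃o Ω)} {x v : Ω} (h : ∃ g, act z g x = v) :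
    act z (sec z x v) x = v := by
  unfold sec
  split_ifs with h1
  · simp [h1]
  · exact h.choose_spec

theorem act_sec_act (z : Fin n → (Ω ≃o Ω)) (x : Ω) (g : FreeGroup (Fin n)) :
    act z (sec z x (act z g x)) x = act z g x := act_sec ⟨g, rfl⟩

open Classical in
/-- extension of a homomorphism on the stabiliser by `1` -/
noncomputable def ext1 {z : Fin n → (Ω ≃o Ω)} {x : Ω} (ρ : stab z x →* (Ω' ≃o Ω'))
    (g : FreeGroup (Fin n)) : Ω' ≃o Ω' := if h : g ∈ stab z x then ρ ⟨g, h⟩ else 1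

theorem ext1_of_mem {z : Fin n → (Ω ≃o Ω)} {x : Ω} (ρ : stab z x →* (Ω' ≃o Ω'))
    {g : FreeGroup (Fin n)} (h : g ∈ stab z x) : ext1 ρ g = ρ ⟨g, h⟩ := by simp [ext1, h]

theorem ext1_mul {z : Fin n → (Ω ≃o Ω)} {x : Ω} (ρ : stab z x →* (Ω' ≃o Ω'))
    {g h : FreeGroup (Fin n)} (hg : g ∈ stab z x) (hh : h ∈ stab z x) :
    ext1 ρ (g * h) = ext1 ρ g * ext1 ρ h := by
  rw [ext1_of_mem ρ hg, ext1_of_mem ρ hh, ext1_of_mem ρ (mul_mem hg hh), ← map_mul]; rfl

/-- induced action on the lexicographic product -/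
noncomputable def ind (z : Fin n → (Ω ≃o Ω)) (x : Ω) (ρ : stab z x →* (Ω' ≃o Ω')) :
    Fin n → ((Ω ×ₗ Ω') ≃o (Ω ×ₗ Ω')) := fun i =>
  skew (z i) (fun v => ext1 ρ ((sec z x (z i v))⁻¹ * (FreeGroup.of i * sec z x v)))

theorem covers_ind (z : Fin n → (Ω ≃o Ω)) (x : Ω) (ρ : stab z x →* (Ω' ≃o Ω')) :
    Covers (ind z x ρ) z := covers_skew _ _

theorem act_ind (z : Fin n → (Ω ≃o Ω)) (x : Ω) (ρ : stab z x →* (Ω' ≃o Ω')) (w : Ω')
    (g : FreeGroup (Fin n)) :
    act (ind z x ρ) g (toLex (x, w)) =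
      toLex (act z g x, ext1 ρ ((sec z x (act z g x))⁻¹ * g) w) := by
  induction g using freeGroup_induction_left with
  | h1 =>
    have h2 : ext1 ρ 1 = 1 := by
      rw [ext1_of_mem ρ (one_mem _)]; exact map_one ρ
    simp only [act_one, sec_self, inv_one, one_mul, h2]; rfl
  | hof i g ih =>
    rw [act_mul, ih, act_of_apply]
    unfold ind
    rw [skew_apply, act_mul, act_of_apply]
    have h1 : (sec z x (act z g x))⁻¹ * g ∈ stab z x := by
      rw [inv_mul_mem_stab, act_sec_act]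
    have h2 : (sec z x (z i (act z g x)))⁻¹ * (FreeGroup.of i * sec z x (act z g x))
        ∈ stab z x := by
      rw [inv_mul_mem_stab, act_mul, act_sec_act, act_of_apply, act_sec]
      exact ⟨FreeGroup.of i * g, by rw [act_mul, act_of_apply]⟩
    have h3 := ext1_mul ρ h2 h1
    have h4 : (sec z x (z i (act z g x)))⁻¹ * (FreeGroup.of i * sec z x (act z g x)) *
        ((sec z x (act z g x))⁻¹ * g) = (sec z x (z i (act z g x)))⁻¹ * (FreeGroup.of i * g) := by
      group
    rw [← h4, h3]; rfl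
  | hinv i g ih =>
    have key : ind z x ρ i (toLex (act z ((FreeGroup.of i)⁻¹ * g) x,
        ext1 ρ ((sec z x (act z ((FreeGroup.of i)⁻¹ * g) x))⁻¹ * ((FreeGroup.of i)⁻¹ * g)) w)) =
        toLex (act z g x, ext1 ρ ((sec z x (act z g x))⁻¹ * g) w) := by
      unfold ind
      rw [skew_apply]
      set v := act z ((FreeGroup.of i)⁻¹ * g) x with hv
      have hv' : z i v = act z g x := by
        rw [hv, ← act_of_apply z i, ← act_mul]; simp
      have h1 : (sec z x v)⁻¹ * ((FreeGroup.of i)⁻¹ * g) ∈ stab z x := by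
        rw [inv_mul_mem_stab, hv, act_sec_act]
      have h2 : (sec z x (z i v))⁻¹ * (FreeGroup.of i * sec z x v) ∈ stab z x := by
        have h5 : act z (sec z x v) x = v := by rw [hv, act_sec_act]
        have h6 : act z (sec z x (z i v)) x = z i v := by rw [hv', act_sec_act]
        rw [inv_mul_mem_stab, h6, act_mul, act_of_apply, h5]
      have h3 := ext1_mul ρ h2 h1
      have h4 : (sec z x (z i v))⁻¹ * (FreeGroup.of i * sec z x v) *
        ((sec z x v)⁻¹ * ((FreeGroup.of i)⁻¹ * g)) = (sec z x (z i v))⁻¹ * g := by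
        group
      rw [← hv', ← h4, h3]; rfl
    rw [act_mul, ih, act_inv_of, OrderIso.symm_apply_eq]
    exact key.symm

theorem act_ind_stab (z : Fin n → (Ω ≃o Ω)) (x : Ω) (ρ : stab z x →* (Ω' ≃o Ω')) (w : Ω')
    (c : stab z x) :
    act (ind z x ρ) c (toLex (x, w)) = toLex (x, ρ c w) := by
  rw [act_ind, mem_stab.1 c.2, sec_self, inv_one, one_mul, ext1_of_mem ρ c.2]

theorem hol_ind (z : Fin n → (Ω ≃o Ω)) (x : Ω) (ρ : stab z x →* (Ω' ≃o Ω')) (c : stab z x) :
    hol (covers_ind z x ρ) x c = ρ c := by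
  ext w
  have h1 := act_hol (covers_ind z x ρ) x w c
  rw [act_ind_stab] at h1
  have := congrArg (fun p => (ofLex p).2) h1
  simpa using this.symm

end ind

end Pool.Agent.Helper9.Hopf
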