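import Mathlib

set_option autoImplicit false

namespace Pool.Agent.Helper9.Hopf

/-- The action of the free group on a chain given by a tuple of order automorphisms. -/
def act {n : ℕ} {Ω : Type} [LinearOrder Ω] (z : Fin n → (Ω ≃o Ω)) :
    FreeGroup (Fin n) →* (Ω ≃o Ω) := FreeGroup.lift z

section act
variable {n : ℕ} {Ω : Type} [LinearOrder Ω] (z : Fin n → (Ω ≃o Ω))

@[simp] theorem act_of (i : Fin n) : act z (FreeGroup.of i) = z i := by simp [act]

@[simp] theorem act_of_apply (i : Fin n) (x : Ω) : act z (FreeGroup.of i) x = z i x := by simp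

@[simp] theorem act_one (x : Ω) : act z 1 x = x := by simp

theorem act_mul (g h : FreeGroup (Fin n)) (x : Ω) : act z (g * h) x = act z g (act z h x) := by
  simp

@[simp] theorem act_inv_act (g : FreeGroup (Fin n)) (x : Ω) : act z g⁻¹ (act z g x) = x := by
  rw [← act_mul]; simp

@[simp] theorem act_act_inv (g : FreeGroup (Fin n)) (x : Ω) : act z g (act z g⁻¹ x) = x := by
  rw [← act_mul]; simp

@[simp] theorem act_inv_of (i : Fin n) (x : Ω) :
    act z (FreeGroup.of i)⁻¹ x = (z i).symm x := by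
  apply (z i).injective
  rw [← act_of_apply z i (act z (FreeGroup.of i)⁻¹ x), act_act_inv]
  simp

theorem act_le_iff (g : FreeGroup (Fin n)) (x y : Ω) : act z g x ≤ act z g y ↔ x ≤ y :=
  (act z g).le_iff_le

theorem act_lt_iff (g : FreeGroup (Fin n)) (x y : Ω) : act z g x < act z g y ↔ x < y :=
  (act z g).lt_iff_lt

theorem act_inj (g : FreeGroup (Fin n)) (x y : Ω) : act z g x = act z g y ↔ x = y :=
  (act z g).injective.eq_iff

end act

/-- induction principle: a property of points/words, stable under letters -/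
theorem freeGroup_induction_left {n : ℕ} {C : FreeGroup (Fin n) → Prop}
    (h1 : C 1) (hof : ∀ i g, C g → C (FreeGroup.of i * g))
    (hinv : ∀ i g, C g → C ((FreeGroup.of i)⁻¹ * g)) (g : FreeGroup (Fin n)) : C g := by
  suffices h : ∀ g h, C h → C (g * h) by simpa using h g 1 h1
  intro g
  induction g using FreeGroup.induction_on with
  | C1 => intro h hh; simpa using hh
  | of i => intro h hh; exact hof i h hh
  | inv_of i _ => intro h hh; exact hinv i h hh
  | mul g k hg hk => intro h hh; rw [mul_assoc]; exact hg _ (hk _ hh)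

/-- If an intertwining map is given on the generators it intertwines the actions. -/
theorem intertwine {n : ℕ} {Ω Ω' : Type} [LinearOrder Ω] [LinearOrder Ω']
    {z : Fin n → (Ω ≃o Ω)} {z' : Fin n → (Ω' ≃o Ω')} {π : Ω → Ω'}
    (h : ∀ i x, π (z i x) = z' i (π x)) (g : FreeGroup (Fin n)) (x : Ω) :
    π (act z g x) = act z' g (π x) := by
  induction g using freeGroup_induction_left generalizing x with
  | h1 => simp
  | hof i g ih => rw [act_mul, act_mul, act_of_apply, act_of_apply, h, ih]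
  | hinv i g ih =>
    rw [act_mul, act_mul, act_inv_of, act_inv_of]
    apply (z' i).injective
    rw [← h]; simp [ih]

/-- `(z', x')` is coarser than `(z, x)` on the window `F`. -/
def Coarse {n : ℕ} (F : Finset (FreeGroup (Fin n))) {Ω Ω' : Type} [LinearOrder Ω]
    [LinearOrder Ω'] (z : Fin n → (Ω ≃o Ω)) (x : Ω) (z' : Fin n → (Ω' ≃o Ω')) (x' : Ω') : Prop :=
  ∀ g ∈ F, ∀ h ∈ F, act z g x ≤ act z h x → act z' g x' ≤ act z' h x'

section coarse
variable {n : ℕ} {Ω Ω' : Type} [LinearOrder Ω] [LinearOrder Ω']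
  {z : Fin n → (Ω ≃o Ω)} {x : Ω} {z' : Fin n → (Ω' ≃o Ω')} {x' : Ω'}

theorem Coarse.refl (F : Finset (FreeGroup (Fin n))) (z : Fin n → (Ω ≃o Ω)) (x : Ω) :
    Coarse F z x z x := fun _ _ _ _ h => h

theorem Coarse.mono {F F' : Finset (FreeGroup (Fin n))} (h : Coarse F' z x z' x')
    (hF : F ⊆ F') : Coarse F z x z' x' := fun g hg k hk => h g (hF hg) k (hF hk)

theorem Coarse.eq {F : Finset (FreeGroup (Fin n))} (h : Coarse F z x z' x')
    {g k : FreeGroup (Fin n)} (hg : g ∈ F) (hk : k ∈ F) (he : act z g x = act z k x) :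
    act z' g x' = act z' k x' :=
  le_antisymm (h g hg k hk he.le) (h k hk g hg he.ge)

theorem coarse_of_monotone {π : Ω → Ω'} (hπ : Monotone π)
    (h : ∀ i x, π (z i x) = z' i (π x)) (F : Finset (FreeGroup (Fin n))) (x : Ω) :
    Coarse F z x z' (π x) := by
  intro g _ k _ hle
  rw [← intertwine h, ← intertwine h]
  exact hπ hle

end coarse

/-- Local natural families of point functions. -/
def IsLoc {n : ℕ} (f : ∀ (Ω : Type) [LinearOrder Ω], (Fin n → (Ω ≃o Ω)) → Ω → Ω) : Prop :=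
  ∃ F : Finset (FreeGroup (Fin n)), ∀ (Ω Ω' : Type) [LinearOrder Ω] [LinearOrder Ω']
    (z : Fin n → (Ω ≃o Ω)) (z' : Fin n → (Ω' ≃o Ω')) (x : Ω) (x' : Ω'),
    Coarse F z x z' x' → ∃ g ∈ F, f Ω z x = act z g x ∧ f Ω' z' x' = act z' g x'

theorem isLoc_act {n : ℕ} (g : FreeGroup (Fin n)) :
    IsLoc (fun Ω [LinearOrder Ω] z x => act z g x) :=
  ⟨{g}, fun _ _ _ _ _ _ _ _ _ => ⟨g, by simp, rfl, rfl⟩⟩

theorem IsLoc.comp {n : ℕ} {f h : ∀ (Ω : Type) [LinearOrder Ω], (Fin n → (Ω ≃o Ω)) → Ω → Ω}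
    (hf : IsLoc f) (hh : IsLoc h) : IsLoc (fun Ω [LinearOrder Ω] z x => f Ω z (h Ω z x)) := by
  classical
  obtain ⟨F, hF⟩ := hf
  obtain ⟨H, hH⟩ := hh
  refine ⟨(F ×ˢ H).image (fun p => p.1 * p.2) ∪ H, ?_⟩
  intro Ω Ω' _ _ z z' x x' hc
  obtain ⟨b, hb, hb1, hb2⟩ := hH Ω Ω' z z' x x' (hc.mono Finset.subset_union_right)
  have hc' : Coarse F z (act z b x) z' (act z' b x') := by
    intro g hg k hk hle
    rw [← act_mul, ← act_mul] at hle ⊢
    refine hc _ ?_ _ ?_ hle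
    · exact Finset.mem_union_left _ (Finset.mem_image.2 ⟨(g, b), by simp [hg, hb], rfl⟩)
    · exact Finset.mem_union_left _ (Finset.mem_image.2 ⟨(k, b), by simp [hk, hb], rfl⟩)
  obtain ⟨a, ha, ha1, ha2⟩ := hF Ω Ω' z z' _ _ hc'
  refine ⟨a * b, Finset.mem_union_left _ (Finset.mem_image.2 ⟨(a, b), by simp [ha, hb], rfl⟩),
    ?_, ?_⟩
  · simp only [hb1, ha1, act_mul]
  · simp only [hb2, ha2, act_mul]

/-- Local families of tuples of automorphisms. -/
structure LocFam (n m : ℕ) where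
  map : ∀ (Ω : Type) [LinearOrder Ω], (Fin n → (Ω ≃o Ω)) → (Fin m → (Ω ≃o Ω))
  loc : ∀ i, IsLoc (fun Ω [LinearOrder Ω] z x => map Ω z i x)

theorem isLoc_symm {n : ℕ} {f : ∀ (Ω : Type) [LinearOrder Ω], (Fin n → (Ω ≃o Ω)) → (Ω ≃o Ω)}
    (hf : IsLoc (fun Ω [LinearOrder Ω] z x => f Ω z x)) :
    IsLoc (fun Ω [LinearOrder Ω] z x => (f Ω z).symm x) := by
  classical
  obtain ⟨F, hF⟩ := hf
  refine ⟨F.image (fun g => g⁻¹) ∪ (F ×ˢ F).image (fun p => p.1 * p.2⁻¹), ?_⟩
  intro Ω Ω' _ _ z z' x x' hc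
  obtain ⟨g, hg, hg1, -⟩ := hF Ω Ω z z ((f Ω z).symm x) ((f Ω z).symm x) (Coarse.refl _ _ _)
  simp only [OrderIso.apply_symm_apply] at hg1
  have hu : (f Ω z).symm x = act z g⁻¹ x := by
    conv_rhs => rw [hg1]
    rw [act_inv_act]
  have hc' : Coarse F z (act z g⁻¹ x) z' (act z' g⁻¹ x') := by
    intro a ha k hk hle
    rw [← act_mul, ← act_mul] at hle ⊢
    refine hc _ ?_ _ ?_ hle
    · exact Finset.mem_union_right _ (Finset.mem_image.2 ⟨(a, g), by simp [ha, hg], rfl⟩)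
    · exact Finset.mem_union_right _ (Finset.mem_image.2 ⟨(k, g), by simp [hk, hg], rfl⟩)
  obtain ⟨k, hk, hk1, hk2⟩ := hF Ω Ω' z z' _ _ hc'
  refine ⟨g⁻¹, Finset.mem_union_left _ (Finset.mem_image.2 ⟨g, hg, rfl⟩), hu, ?_⟩
  show (f Ω' z').symm x' = act z' g⁻¹ x'
  rw [OrderIso.symm_apply_eq]
  simp only at hk2 hk1
  rw [hk2]
  have h1 : act z k (act z g⁻¹ x) = act z g (act z g⁻¹ x) := by
    rw [← hk1, ← hu, ← hg1]; simp
  have := hc'.eq hk hg h1
  rw [this]; simp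

theorem LocFam.loc_word {n m : ℕ} (W : LocFam n m) (g : FreeGroup (Fin m)) :
    IsLoc (fun Ω [LinearOrder Ω] z x => act (W.map Ω z) g x) := by
  induction g using freeGroup_induction_left with
  | h1 => simpa using isLoc_act (n := n) 1
  | hof i g ih =>
    simp only [act_mul, act_of_apply]
    exact (W.loc i).comp ih
  | hinv i g ih =>
    simp only [act_mul, act_inv_of]
    exact (isLoc_symm (f := fun Ω [LinearOrder Ω] z => W.map Ω z i) (W.loc i)).comp ih

/-- finitely many local families have a common window -/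
theorem exists_window {n : ℕ} {ι : Type} (s : Finset ι)
    (f : ι → ∀ (Ω : Type) [LinearOrder Ω], (Fin n → (Ω ≃o Ω)) → Ω → Ω)
    (hf : ∀ i ∈ s, IsLoc (f i)) :
    ∃ F : Finset (FreeGroup (Fin n)), ∀ i ∈ s, ∀ (Ω Ω' : Type) [LinearOrder Ω] [LinearOrder Ω']
    (z : Fin n → (Ω ≃o Ω)) (z' : Fin n → (Ω' ≃o Ω')) (x : Ω) (x' : Ω'),
    Coarse F z x z' x' → ∃ g ∈ F, f i Ω z x = act z g x ∧ f i Ω' z' x' = act z' g x' := by
  classical
  induction s using Finset.induction_on with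
  | empty => exact ⟨∅, by simp⟩
  | insert a s ha ih =>
    obtain ⟨F, hF⟩ := ih (fun i hi => hf i (Finset.mem_insert_of_mem hi))
    obtain ⟨H, hH⟩ := hf a (Finset.mem_insert_self _ _)
    refine ⟨F ∪ H, ?_⟩
    intro i hi Ω Ω' _ _ z z' x x' hc
    rcases Finset.mem_insert.1 hi with rfl | hi
    · obtain ⟨g, hg, h1, h2⟩ := hH Ω Ω' z z' x x' (hc.mono Finset.subset_union_right)
      exact ⟨g, Finset.mem_union_right _ hg, h1, h2⟩
    · obtain ⟨g, hg, h1, h2⟩ := hF i hi Ω Ω' z z' x x' (hc.mono Finset.subset_union_left)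
      exact ⟨g, Finset.mem_union_left _ hg, h1, h2⟩

theorem LocFam.coarse {n m : ℕ} (W : LocFam n m) (G : Finset (FreeGroup (Fin m))) :
    ∃ F : Finset (FreeGroup (Fin n)), ∀ (Ω Ω' : Type) [LinearOrder Ω] [LinearOrder Ω']
    (z : Fin n → (Ω ≃o Ω)) (z' : Fin n → (Ω' ≃o Ω')) (x : Ω) (x' : Ω'),
    Coarse F z x z' x' → Coarse G (W.map Ω z) x (W.map Ω' z') x' := by
  obtain ⟨F, hF⟩ := exists_window G (fun g Ω [LinearOrder Ω] z x => act (W.map Ω z) g x)
    (fun g _ => W.loc_word g)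
  refine ⟨F, ?_⟩
  intro Ω Ω' _ _ z z' x x' hc a ha b hb hle
  obtain ⟨g, hg, h1, h2⟩ := hF a ha Ω Ω' z z' x x' hc
  obtain ⟨k, hk, h3, h4⟩ := hF b hb Ω Ω' z z' x x' hc
  rw [h1, h3] at hle
  rw [h2, h4]
  exact hc g hg k hk hle

/-- composition of local families -/
def LocFam.comp {n m k : ℕ} (V : LocFam m k) (W : LocFam n m) : LocFam n k where
  map Ω _ z := V.map Ω (W.map Ω z)
  loc i := by
    classical
    obtain ⟨G, hG⟩ := V.loc i
    obtain ⟨F, hF⟩ := W.coarse G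
    obtain ⟨F', hF'⟩ := exists_window G (fun g Ω [LinearOrder Ω] z x => act (W.map Ω z) g x)
      (fun g _ => W.loc_word g)
    refine ⟨F ∪ F', ?_⟩
    intro Ω Ω' _ _ z z' x x' hc
    obtain ⟨a, ha, h1, h2⟩ := hG Ω Ω' _ _ x x'
      (hF Ω Ω' z z' x x' (hc.mono Finset.subset_union_left))
    obtain ⟨g, hg, h3, h4⟩ := hF' a ha Ω Ω' z z' x x' (hc.mono Finset.subset_union_right)
    exact ⟨g, Finset.mem_union_right _ hg, by simp only at h1 h3 ⊢; rw [h1, h3],
      by simp only at h2 h4 ⊢; rw [h2, h4]⟩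

@[simp] theorem LocFam.comp_map {n m k : ℕ} (V : LocFam m k) (W : LocFam n m) (Ω : Type)
    [LinearOrder Ω] (z : Fin n → (Ω ≃o Ω)) :
    (V.comp W).map Ω z = V.map Ω (W.map Ω z) := rfl

/-- every value of a local function is a translate of the point -/
theorem IsLoc.exists_eq {n : ℕ} {f : ∀ (Ω : Type) [LinearOrder Ω], (Fin n → (Ω ≃o Ω)) → Ω → Ω}
    (hf : IsLoc f) : ∃ F : Finset (FreeGroup (Fin n)), ∀ (Ω : Type) [LinearOrder Ω]
      (z : Fin n → (Ω ≃o Ω)) (x : Ω), ∃ g ∈ F, f Ω z x = act z g x := by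
  obtain ⟨F, hF⟩ := hf
  refine ⟨F, fun Ω _ z x => ?_⟩
  obtain ⟨g, hg, h1, -⟩ := hF Ω Ω z z x x (Coarse.refl _ _ _)
  exact ⟨g, hg, h1⟩

theorem LocFam.exists_word {n m : ℕ} (W : LocFam n m) (g : FreeGroup (Fin m)) :
    ∃ F : Finset (FreeGroup (Fin n)), ∀ (Ω : Type) [LinearOrder Ω]
      (z : Fin n → (Ω ≃o Ω)) (x : Ω), ∃ h ∈ F, act (W.map Ω z) g x = act z h x :=
  (W.loc_word g).exists_eq

/-- naturality of local functions with respect to monotone intertwining maps -/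
theorem IsLoc.natural {n : ℕ} {f : ∀ (Ω : Type) [LinearOrder Ω], (Fin n → (Ω ≃o Ω)) → Ω → Ω}
    (hf : IsLoc f) {Ω Ω' : Type} [LinearOrder Ω] [LinearOrder Ω']
    {z : Fin n → (Ω ≃o Ω)} {z' : Fin n → (Ω' ≃o Ω')} {π : Ω → Ω'} (hπ : Monotone π)
    (h : ∀ i x, π (z i x) = z' i (π x)) (x : Ω) : π (f Ω z x) = f Ω' z' (π x) := by
  obtain ⟨F, hF⟩ := hf
  obtain ⟨g, hg, h1, h2⟩ := hF Ω Ω' z z' x (π x) (coarse_of_monotone hπ h F x)
  rw [h1, h2, intertwine h]

theorem LocFam.natural {n m : ℕ} (W : LocFam n m) {Ω Ω' : Type} [LinearOrder Ω] [LinearOrder Ω']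
    {z : Fin n → (Ω ≃o Ω)} {z' : Fin n → (Ω' ≃o Ω')} {π : Ω → Ω'} (hπ : Monotone π)
    (h : ∀ i x, π (z i x) = z' i (π x)) (i : Fin m) (x : Ω) :
    π (W.map Ω z i x) = W.map Ω' z' i (π x) :=
  (W.loc i).natural hπ h x

/-- if an order automorphism commutes with `z` it commutes with `W z` -/
theorem LocFam.commute {n m : ℕ} (W : LocFam n m) {Ω : Type} [LinearOrder Ω]
    {z : Fin n → (Ω ≃o Ω)} {t : Ω ≃o Ω} (h : ∀ i x, t (z i x) = z i (t x)) (i : Fin m) (x : Ω) :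
    t (W.map Ω z i x) = W.map Ω z i (t x) :=
  W.natural (π := fun x => t x) t.monotone h i x

/-- `x` is good for `z`. -/
def Good {n : ℕ} (R : LocFam n n) {Ω : Type} [LinearOrder Ω] (z : Fin n → (Ω ≃o Ω)) (x : Ω) :
    Prop := ∀ i, R.map Ω z i x = z i x

/-- There is a finite window such that goodness passes to coarser patterns. -/
theorem exists_goodWindow {n : ℕ} (R : LocFam n n) :
    ∃ F : Finset (FreeGroup (Fin n)), ∀ (Ω Ω' : Type) [LinearOrder Ω] [LinearOrder Ω']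
    (z : Fin n → (Ω ≃o Ω)) (z' : Fin n → (Ω' ≃o Ω')) (x : Ω) (x' : Ω'),
    Coarse F z x z' x' → Good R z x → Good R z' x' := by
  classical
  obtain ⟨F, hF⟩ := exists_window (Finset.univ : Finset (Fin n))
    (fun i Ω [LinearOrder Ω] z x => R.map Ω z i x) (fun i _ => R.loc i)
  refine ⟨F ∪ Finset.univ.image FreeGroup.of, ?_⟩
  intro Ω Ω' _ _ z z' x x' hc hg i
  obtain ⟨g, hgF, h1, h2⟩ := hF i (Finset.mem_univ _) Ω Ω' z z' x x'
    (hc.mono Finset.subset_union_left)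
  have h3 : act z g x = act z (FreeGroup.of i) x := by rw [← h1, act_of_apply]; exact hg i
  have := hc.eq (Finset.mem_union_left _ hgF)
    (Finset.mem_union_right _ (Finset.mem_image.2 ⟨i, Finset.mem_univ _, rfl⟩)) h3
  rw [← h2, act_of_apply] at this
  exact this

/-- more precise version for words of `R` -/
theorem exists_wordWindow {n : ℕ} (R : LocFam n n) (c : FreeGroup (Fin n)) :
    ∃ F : Finset (FreeGroup (Fin n)), ∀ (Ω Ω' : Type) [LinearOrder Ω] [LinearOrder Ω']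
    (z : Fin n → (Ω ≃o Ω)) (z' : Fin n → (Ω' ≃o Ω')) (x : Ω) (x' : Ω'),
    Coarse F z x z' x' → act (R.map Ω z) c x = act z c x →
      act (R.map Ω' z') c x' = act z' c x' := by
  classical
  obtain ⟨F, hF⟩ := R.loc_word c
  refine ⟨insert c F, ?_⟩
  intro Ω Ω' _ _ z z' x x' hc hg
  obtain ⟨g, hgF, h1, h2⟩ := hF Ω Ω' z z' x x' (hc.mono (Finset.subset_insert _ _))
  simp only at h1 h2
  rw [h2]
  refine hc.eq (Finset.mem_insert_of_mem hgF) (Finset.mem_insert_self _ _) ?_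
  rw [← h1, hg]

theorem act_eq_of_good {n : ℕ} (R : LocFam n n) {Ω : Type} [LinearOrder Ω]
    {z : Fin n → (Ω ≃o Ω)} {x : Ω} (h : ∀ g, Good R z (act z g x)) (g : FreeGroup (Fin n)) :
    act (R.map Ω z) g x = act z g x := by
  induction g using freeGroup_induction_left with
  | h1 => simp
  | hof i g ih =>
    rw [act_mul, act_mul, ih, act_of_apply, act_of_apply]
    exact h g i
  | hinv i g ih =>
    rw [act_mul, act_mul, ih, act_inv_of]
    rw [OrderIso.symm_apply_eq]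
    have := h ((FreeGroup.of i)⁻¹ * g) i
    rw [act_mul] at this
    rw [this]; simp

theorem map_eq_of_good {n : ℕ} (R : LocFam n n) {Ω : Type} [LinearOrder Ω]
    {z : Fin n → (Ω ≃o Ω)} (h : ∀ x, Good R z x) : R.map Ω z = z := by
  funext i; ext x; exact h x i

theorem good_of_map_eq {n : ℕ} (R : LocFam n n) {Ω : Type} [LinearOrder Ω]
    {z : Fin n → (Ω ≃o Ω)} (h : R.map Ω z = z) (x : Ω) : Good R z x := by
  intro i; rw [h]

/-- goodness on a chain `Ω` with monotone injective intertwining map to `Ω'` -/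
theorem good_of_embedding {n : ℕ} (R : LocFam n n) {Ω Ω' : Type} [LinearOrder Ω] [LinearOrder Ω']
    {z : Fin n → (Ω ≃o Ω)} {z' : Fin n → (Ω' ≃o Ω')} {π : Ω → Ω'} (hπ : Monotone π)
    (hinj : Function.Injective π)
    (h : ∀ i x, π (z i x) = z' i (π x)) {x : Ω} (hg : Good R z' (π x)) : Good R z x := by
  intro i
  apply hinj
  rw [R.natural hπ h, hg i, h]

end Pool.Agent.Helper9.Hopf
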