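import Pool.Agent.Helper9.Hopf.ExitStep
import Pool.Agent.Helper8.WindowLoops

set_option autoImplicit false

namespace Pool.Agent.Helper9.Hopf

section claim
variable {n : ℕ}

/-- group generated by the window loops at `v` -/
def loopGroup {Ω : Type} [LinearOrder Ω] (B : Finset (FreeGroup (Fin n)))
    (z : Fin n → (Ω ≃o Ω)) (v : Ω) : Subgroup (FreeGroup (Fin n)) :=
  Subgroup.closure {c | ∃ g ∈ B, ∃ h ∈ B, act z g v = act z h v ∧ c = h⁻¹ * g}

/-- the point sees a nonabelian group of window loops -/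
def Vis {Ω : Type} [LinearOrder Ω] (B : Finset (FreeGroup (Fin n)))
    (z : Fin n → (Ω ≃o Ω)) (v : Ω) : Prop :=
  ∃ a ∈ loopGroup B z v, ∃ b ∈ loopGroup B z v, a * b ≠ b * a

theorem loopGroup_mono {Ω Ω' : Type} [LinearOrder Ω] [LinearOrder Ω']
    (B : Finset (FreeGroup (Fin n))) {z : Fin n → (Ω ≃o Ω)} {v : Ω}
    {z' : Fin n → (Ω' ≃o Ω')} {v' : Ω'} (hf : Finer z v z' v') :
    loopGroup B z v ≤ loopGroup B z' v' := by
  apply Subgroup.closure_mono
  rintro c ⟨g, hg, h, hh, he, rfl⟩
  exact ⟨g, hg, h, hh, hf.eq he, rfl⟩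

theorem loopGroup_le_stab {Ω : Type} [LinearOrder Ω] (B : Finset (FreeGroup (Fin n)))
    (z : Fin n → (Ω ≃o Ω)) (v : Ω) : loopGroup B z v ≤ stab z v := by
  rw [loopGroup, Subgroup.closure_le]
  rintro c ⟨g, -, h, -, he, rfl⟩
  exact inv_mul_mem_stab.2 he

/-- stabilisers along an orbit are conjugate -/
theorem stab_act {Ω : Type} [LinearOrder Ω] (z : Fin n → (Ω ≃o Ω)) (x : Ω)
    (g c : FreeGroup (Fin n)) : c ∈ stab z (act z g x) ↔ g⁻¹ * c * g ∈ stab z x := by
  rw [mem_stab, mem_stab, act_mul, act_mul]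
  constructor
  · intro h; rw [h]; simp
  · intro h
    have := congrArg (act z g) h
    simpa using this

noncomputable def stabConj {Ω : Type} [LinearOrder Ω] (z : Fin n → (Ω ≃o Ω)) (x : Ω)
    (g : FreeGroup (Fin n)) : stab z x ≃* stab z (act z g x) where
  toFun c := ⟨g * c * g⁻¹, by rw [stab_act]; simp [mul_assoc]⟩
  invFun c := ⟨g⁻¹ * c * g, (stab_act z x g c).1 c.2⟩
  left_inv c := by ext; simp [mul_assoc]
  right_inv c := by ext; simp [mul_assoc]
  map_mul' a b := by ext; simp [mul_assoc]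

theorem loopGroup_eq_stab {Ω : Type} [LinearOrder Ω] {B : Finset (FreeGroup (Fin n))}
    (h1 : (1 : FreeGroup (Fin n)) ∈ B)
    (hB : ∀ g ∈ B, g ≠ 1 → ∃ i : Fin n, (FreeGroup.of i)⁻¹ * g ∈ B ∧
        ((FreeGroup.of i)⁻¹ * g).norm < g.norm ∨ FreeGroup.of i * g ∈ B ∧
        (FreeGroup.of i * g).norm < g.norm)
    {z : Fin n → (Ω ≃o Ω)} {x : Ω} (hrank : Nonempty (FreeGroup (Fin 2) ≃* stab z x))
    (g : FreeGroup (Fin n)) (hv : Vis B z (act z g x)) :
    loopGroup B z (act z g x) = stab z (act z g x) := by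
  let A : MulAction (FreeGroup (Fin n)) Ω :=
    { smul := fun g x => act z g x
      one_smul := fun x => act_one z x
      mul_smul := fun a b x => act_mul z a b x }
  have hst : MulAction.stabilizer (FreeGroup (Fin n)) (act z g x) = stab z (act z g x) := by
    ext c; exact Iff.rfl
  obtain ⟨e⟩ := hrank
  have hr : Nonempty (MulAction.stabilizer (FreeGroup (Fin n)) (act z g x) ≃*
      FreeGroup (Fin 2)) := ⟨(MulEquiv.subgroupCongr hst).trans
        ((stabConj z x g).symm.trans e.symm)⟩
  have := Pool.Agent.Helper8.Window.windowLoops (act z g x) B h1 hB hr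
    (loopGroup B z (act z g x)) rfl hv
  rw [this, hst]

/-- an abelian subgroup of a free group is cyclic -/
theorem cyclic_of_comm (H : Subgroup (FreeGroup (Fin n))) (h : ∀ a ∈ H, ∀ b ∈ H, a * b = b * a) :
    ∃ c, ∀ a ∈ H, ∃ j : ℤ, a = c ^ j := by
  classical
  have hsub : Subsingleton (IsFreeGroup.Generators H) := by
    constructor
    intro a b
    by_contra hab
    have h1 : (IsFreeGroup.of a : H) * IsFreeGroup.of b = IsFreeGroup.of b * IsFreeGroup.of a :=
      Subtype.ext (h _ (IsFreeGroup.of a : H).2 _ (IsFreeGroup.of b : H).2)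
    have h3 := congrArg (IsFreeGroup.lift (fun i => if i = a then
      (Equiv.swap (0 : Fin 3) 1) else Equiv.swap (1 : Fin 3) 2)) h1
    simp only [map_mul, IsFreeGroup.lift_of, if_pos, if_neg (Ne.symm hab)] at h3
    revert h3
    decide
  rcases isEmpty_or_nonempty (IsFreeGroup.Generators H) with he | ⟨⟨a⟩⟩
  · refine ⟨1, fun x hx => ⟨0, ?_⟩⟩
    have h1 : (IsFreeGroup.mulEquiv H).symm ⟨x, hx⟩ = 1 := Subsingleton.elim _ _
    have h2 : (⟨x, hx⟩ : H) = 1 := by
      rw [← (IsFreeGroup.mulEquiv H).apply_symm_apply ⟨x, hx⟩, h1, map_one]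
    simpa using congrArg Subtype.val h2
  · refine ⟨(IsFreeGroup.of a : H), ?_⟩
    have key : ∀ w : FreeGroup (IsFreeGroup.Generators H),
        ∃ j : ℤ, IsFreeGroup.mulEquiv H w = (IsFreeGroup.of a : H) ^ j := by
      intro w
      induction w using FreeGroup.induction_on with
      | C1 => exact ⟨0, by simp⟩
      | of i =>
        have : i = a := Subsingleton.elim _ _
        subst this
        exact ⟨1, by rw [zpow_one]; simp [IsFreeGroup.of]⟩
      | inv_of i ih =>
        obtain ⟨j, hj⟩ := ih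
        exact ⟨-j, by
          have : (IsFreeGroup.mulEquiv H) (FreeGroup.of i)⁻¹ =
            ((IsFreeGroup.mulEquiv H) (FreeGroup.of i))⁻¹ := map_inv _ _
          rw [zpow_neg, ← hj]; exact this⟩
      | mul x y hx hy =>
        obtain ⟨j, hj⟩ := hx
        obtain ⟨l, hl⟩ := hy
        exact ⟨j + l, by rw [map_mul, hj, hl, zpow_add]⟩
    intro x hx
    obtain ⟨j, hj⟩ := key ((IsFreeGroup.mulEquiv H).symm ⟨x, hx⟩)
    rw [MulEquiv.apply_symm_apply] at hj
    exact ⟨j, by simpa using congrArg Subtype.val hj⟩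

/-- base case: no point of the orbit sees a nonabelian group of loops -/
theorem surv_of_not_vis {Ω : Type} [LinearOrder Ω] (W V : LocFam n n)
    (hVW : ∀ (Ω : Type) [LinearOrder Ω] (z : Fin n → (Ω ≃o Ω)), V.map Ω (W.map Ω z) = z)
    {B : Finset (FreeGroup (Fin n))}
    (hwin : ∀ (Ω Ω' : Type) [LinearOrder Ω] [LinearOrder Ω']
      (z : Fin n → (Ω ≃o Ω)) (z' : Fin n → (Ω' ≃o Ω')) (x : Ω) (x' : Ω'),
      Coarse B z x z' x' → Good (W.comp V) z x → Good (W.comp V) z' x')
    {z : Fin n → (Ω ≃o Ω)} (hz : W.map Ω (V.map Ω z) = z) (x : Ω)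
    (ez : FreeGroup (Fin 2) ≃* stab z x) (ey : FreeGroup (Fin 2) ≃* stab (V.map Ω z) x)
    (hvis : ∀ g, ¬ Vis B z (act z g x)) : Surv (W.comp V) z x := by
  intro Ω' _ z' x' hf g
  have hcomm : ∀ a ∈ loopGroup B z (act z g x), ∀ b ∈ loopGroup B z (act z g x),
      a * b = b * a := by
    have := hvis g
    unfold Vis at this
    push Not at this
    exact this
  obtain ⟨c₀, hc₀⟩ := cyclic_of_comm _ hcomm
  -- replace the generator by its inverse if necessary
  obtain ⟨c, hc, hcpos⟩ : ∃ c, (∀ a ∈ loopGroup B z (act z g x), ∃ j : ℤ, a = c ^ j) ∧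
      act z' g x' ≤ act z' c (act z' g x') := by
    rcases le_total (act z' g x') (act z' c₀ (act z' g x')) with hle | hle
    · exact ⟨c₀, hc₀, hle⟩
    · refine ⟨c₀⁻¹, ?_, ?_⟩
      · intro a ha
        obtain ⟨j, hj⟩ := hc₀ a ha
        exact ⟨-j, by simpa using hj⟩
      · rw [← act_le_iff z' c₀, act_act_inv]; exact hle
  have hloop : ∀ a ∈ B, ∀ b ∈ B, act z a (act z g x) = act z b (act z g x) →
      ∃ j : ℤ, b⁻¹ * a = c ^ j := fun a ha b hb he =>
    hc _ (Subgroup.subset_closure ⟨a, ha, b, hb, he, rfl⟩)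
  rcases hcpos.eq_or_lt with heq | hlt
  · -- the loops fix the point
    refine hwin _ _ z z' (act z g x) (act z' g x') ?_ (good_of_map_eq (W.comp V) hz _)
    intro a ha b hb hle
    rcases hle.lt_or_eq with hlt | he
    · exact ((hf.translate g).lt hlt).le
    · obtain ⟨j, hj⟩ := hloop a ha b hb he
      have h1 : act z' (c ^ j) (act z' g x') = act z' g x' :=
        (stab z' (act z' g x')).zpow_mem heq.symm j
      rw [← hj, act_mul] at h1
      have h2 := congrArg (act z' b) h1
      rw [act_act_inv] at h2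
      exact h2.le
  · -- the generator moves the point up
    by_cases hcs : c ∈ stab z (act z g x)
    swap
    · -- then all the loops are trivial
      refine hwin _ _ z z' (act z g x) (act z' g x') ?_ (good_of_map_eq (W.comp V) hz _)
      intro a ha b hb hle
      rcases hle.lt_or_eq with hlt | he
      · exact ((hf.translate g).lt hlt).le
      · obtain ⟨j, hj⟩ := hloop a ha b hb he
        have h1 : c ^ j ∈ stab z (act z g x) := by
          rw [← hj]; exact inv_mul_mem_stab.2 he
        have h2 : j = 0 := by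
          by_contra hj0
          rcases lt_trichotomy (act z c (act z g x)) (act z g x) with h3 | h3 | h3
          · have h4 : act z g x < act z c⁻¹ (act z g x) := by
              rw [← act_lt_iff z c, act_act_inv]; exact h3
            have h5 := (stab_pow_mono z _ _ h4).injective
            have h6 : (fun j : ℤ => act z (c⁻¹ ^ j) (act z g x)) (-j) =
                (fun j : ℤ => act z (c⁻¹ ^ j) (act z g x)) 0 := by
              simp only [inv_zpow', neg_neg, zpow_zero, act_one]
              exact h1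
            have := h5 h6
            omega
          · exact hcs h3
          · have h5 := (stab_pow_mono z _ _ h3).injective
            have h6 : (fun j : ℤ => act z (c ^ j) (act z g x)) j =
                (fun j : ℤ => act z (c ^ j) (act z g x)) 0 := by
              simp only [zpow_zero, act_one]
              exact h1
            exact hj0 (h5 h6)
        rw [h2, zpow_zero, inv_mul_eq_one] at hj
        rw [hj]
    set W' := push W (V.map Ω z) z hz x ey ez with hW'
    set V' := push V z (V.map Ω z) rfl x ez ey with hV'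
    have hVW' : ∀ (Ω' : Type) [LinearOrder Ω'] (ρ : Fin 2 → (Ω' ≃o Ω')),
        V'.map Ω' (W'.map Ω' ρ) = ρ :=
      fun Ω' _ ρ => push_push_id W V hVW _ _ hz rfl x ey ez Ω' ρ
    obtain ⟨κ, hκ, hslow⟩ := slow W' V' hVW'
    have hcx : g⁻¹ * c * g ∈ stab z x := (stab_act z x g c).1 hcs
    set c₁ : FreeGroup (Fin 2) := ez.symm ⟨g⁻¹ * c * g, hcx⟩ with hc₁
    have hc1 : c ≠ 1 := by
      rintro rfl
      simp at hlt
    have hc₁1 : c₁ ≠ 1 := by
      intro h1
      have h2 : (⟨g⁻¹ * c * g, hcx⟩ : stab z x) = 1 := by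
        rw [← ez.apply_symm_apply ⟨g⁻¹ * c * g, hcx⟩, ← hc₁, h1, map_one]
      have h3 : g⁻¹ * c * g = 1 := congrArg Subtype.val h2
      apply hc1
      have h4 : g * (g⁻¹ * c * g) * g⁻¹ = g * 1 * g⁻¹ := by rw [h3]
      simpa [mul_assoc] using h4
    obtain ⟨ζ, hζ, t, ht⟩ := slow_move le_rfl c₁ hc₁1 κ hκ
    have hag : AllGood (W.comp V) (ind z x (repOf ez ζ)) (toLex (x, t)) :=
      allGood_of_push W V hVW hz x ez ey ζ t (hslow ζ hζ)
    refine hwin _ _ (ind z x (repOf ez ζ)) z' (act (ind z x (repOf ez ζ)) g (toLex (x, t)))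
      (act z' g x') ?_ (hag g)
    intro a ha b hb hle
    rw [← act_mul, ← act_mul, (covers_ind z x _).le_iff] at hle
    rcases hle with hle | ⟨hst, hle⟩
    · rw [act_mul, act_mul] at hle
      exact ((hf.translate g).lt hle).le
    · rw [hol_ind, repOf_apply] at hle
      have he : act z a (act z g x) = act z b (act z g x) := by
        rw [← act_mul, ← act_mul]; exact inv_mul_mem_stab.1 hst
      obtain ⟨j, hj⟩ := hloop a ha b hb he
      have h1 : (⟨(b * g)⁻¹ * (a * g), hst⟩ : stab z x) = ⟨g⁻¹ * c * g, hcx⟩ ^ j := by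
        apply Subtype.ext
        simp only [Subgroup.coe_zpow]
        rw [mul_inv_rev, show g⁻¹ * b⁻¹ * (a * g) = g⁻¹ * (b⁻¹ * a) * g by group, hj]
        have : ∀ (p q : FreeGroup (Fin n)) (j : ℤ), (p⁻¹ * q * p) ^ j = p⁻¹ * q ^ j * p := by
          intro p q j
          have h5 := conj_zpow (i := j) (a := p⁻¹) (b := q)
          rw [inv_inv] at h5
          exact h5
        rw [this]
      rw [h1, map_zpow, ← hc₁] at hle
      have hj0 : j ≤ 0 := by
        by_contra hcon
        push Not at hcon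
        have := stab_pow_mono ζ t c₁ ht hcon
        simp only [zpow_zero, act_one] at this
        exact absurd hle (not_le.2 this)
      have h2 := (stab_pow_mono z' (act z' g x') c hlt).monotone hj0
      simp only [zpow_zero, act_one] at h2
      rw [← hj] at h2
      rwa [act_le_act_iff]

theorem claimR (W V : LocFam n n)
    (hVW : ∀ (Ω : Type) [LinearOrder Ω] (z : Fin n → (Ω ≃o Ω)), V.map Ω (W.map Ω z) = z)
    {B : Finset (FreeGroup (Fin n))} (h1 : (1 : FreeGroup (Fin n)) ∈ B)
    (hB : ∀ g ∈ B, g ≠ 1 → ∃ i : Fin n, (FreeGroup.of i)⁻¹ * g ∈ B ∧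
        ((FreeGroup.of i)⁻¹ * g).norm < g.norm ∨ FreeGroup.of i * g ∈ B ∧
        (FreeGroup.of i * g).norm < g.norm)
    (hwin : ∀ (Ω Ω' : Type) [LinearOrder Ω] [LinearOrder Ω']
      (z : Fin n → (Ω ≃o Ω)) (z' : Fin n → (Ω' ≃o Ω')) (x : Ω) (x' : Ω'),
      Coarse B z x z' x' → Good (W.comp V) z x → Good (W.comp V) z' x')
    (k : ℕ) : ∀ (Ω : Type) [LinearOrder Ω] (z : Fin n → (Ω ≃o Ω)) (x : Ω),
      W.map Ω (V.map Ω z) = z → Nonempty (FreeGroup (Fin 2) ≃* stab z x) →
      Nonempty (FreeGroup (Fin 2) ≃* stab (V.map Ω z) x) →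
      (∀ g, Vis B z (act z g x) →
        B.card < (B.image (fun b => act z b (act z g x))).card + k) →
      Surv (W.comp V) z x := by
  classical
  induction k with
  | zero =>
    intro Ω _ z x hz ⟨ez⟩ ⟨ey⟩ hk
    apply surv_of_not_vis W V hVW hwin hz x ez ey
    intro g hv
    have h2 := hk g hv
    have h3 : (B.image (fun b => act z b (act z g x))).card ≤ B.card := Finset.card_image_le
    omega
  | succ k ih =>
    intro Ω _ z x hz ⟨ez⟩ ⟨ey⟩ hk
    apply exitStep le_rfl W V hVW hz x ez ey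
    intro Ω₁ _ z₁ x₁ hf hne hz₁ hr₁ hry₁
    refine ih Ω₁ z₁ x₁ hz₁ hr₁ hry₁ ?_
    intro g hv
    have hfg := hf.translate g
    have hv' : Vis B z (act z g x) := by
      obtain ⟨a, ha, b, hb, hab⟩ := hv
      exact ⟨a, loopGroup_mono B hfg ha, b, loopGroup_mono B hfg hb, hab⟩
    have h2 := hk g hv'
    have hlt : (B.image (fun b => act z b (act z g x))).card <
        (B.image (fun b => act z₁ b (act z₁ g x₁))).card := by
      by_contra hcon
      push Not at hcon
      -- the map between the images is a bijection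
      have hinj : ∀ a ∈ B, ∀ b ∈ B, act z a (act z g x) = act z b (act z g x) →
          act z₁ a (act z₁ g x₁) = act z₁ b (act z₁ g x₁) := by
        let φ : Ω₁ → Ω := fun v => if h : ∃ b ∈ B, act z₁ b (act z₁ g x₁) = v then
          act z h.choose (act z g x) else x
        have hφ : ∀ b ∈ B, φ (act z₁ b (act z₁ g x₁)) = act z b (act z g x) := by
          intro b hb
          have h : ∃ b' ∈ B, act z₁ b' (act z₁ g x₁) = act z₁ b (act z₁ g x₁) := ⟨b, hb, rfl⟩
          simp only [φ]
          rw [dif_pos h]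
          exact hfg.eq h.choose_spec.2
        have himg : (B.image (fun b => act z₁ b (act z₁ g x₁))).image φ =
            B.image (fun b => act z b (act z g x)) := by
          rw [Finset.image_image]
          apply Finset.image_congr
          intro b hb
          exact hφ b hb
        have hcard : ((B.image (fun b => act z₁ b (act z₁ g x₁))).image φ).card =
            (B.image (fun b => act z₁ b (act z₁ g x₁))).card := by
          apply le_antisymm Finset.card_image_le
          rw [himg]; exact hcon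
        have hinjOn := Finset.card_image_iff.1 hcard
        intro a ha b hb he
        apply hinjOn
        · simp only [Finset.coe_image]; exact ⟨a, ha, rfl⟩
        · simp only [Finset.coe_image]; exact ⟨b, hb, rfl⟩
        · rw [hφ a ha, hφ b hb, he]
      have hlg : loopGroup B z₁ (act z₁ g x₁) = loopGroup B z (act z g x) := by
        apply le_antisymm (loopGroup_mono B hfg)
        apply Subgroup.closure_mono
        rintro c ⟨a, ha, b, hb, he, rfl⟩
        exact ⟨a, ha, b, hb, hinj a ha b hb he, rfl⟩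
      rw [loopGroup_eq_stab h1 hB hr₁ g hv, loopGroup_eq_stab h1 hB ⟨ez⟩ g hv'] at hlg
      apply hne
      ext c
      have h3 : g * c * g⁻¹ ∈ stab z₁ (act z₁ g x₁) ↔ g * c * g⁻¹ ∈ stab z (act z g x) := by
        rw [hlg]
      rw [stab_act, stab_act] at h3
      simpa [mul_assoc] using h3
    omega

/-- the main theorem on retraction pairs of local families -/
theorem pair_id (hn : 2 ≤ n) (W V : LocFam n n)
    (hVW : ∀ (Ω : Type) [LinearOrder Ω] (z : Fin n → (Ω ≃o Ω)), V.map Ω (W.map Ω z) = z)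
    (Ω : Type) [LinearOrder Ω] (z : Fin n → (Ω ≃o Ω)) : W.map Ω (V.map Ω z) = z := by
  classical
  obtain ⟨F, hF⟩ := exists_goodWindow (W.comp V)
  obtain ⟨B, hFB, h1, hB⟩ := exists_ball F
  have hwin : ∀ (Ω Ω' : Type) [LinearOrder Ω] [LinearOrder Ω']
      (z : Fin n → (Ω ≃o Ω)) (z' : Fin n → (Ω' ≃o Ω')) (x : Ω) (x' : Ω'),
      Coarse B z x z' x' → Good (W.comp V) z x → Good (W.comp V) z' x' :=
    fun Ω Ω' _ _ z z' x x' h => hF Ω Ω' z z' x x' (h.mono hFB)
  -- the one point chain
  have hsub : ∀ z z' : Fin n → (Unit ≃o Unit), z = z' := by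
    intro z z'
    funext i; ext
  let z₀ : Fin n → (Unit ≃o Unit) := fun _ => 1
  have hst : ∀ z : Fin n → (Unit ≃o Unit), stab z () = ⊤ := by
    intro z
    rw [Subgroup.eq_top_iff']
    intro g
    rfl
  have ez : FreeGroup (Fin n) ≃* stab z₀ () :=
    (Subgroup.topEquiv.symm).trans (MulEquiv.subgroupCongr (hst _).symm)
  have ey : FreeGroup (Fin n) ≃* stab (V.map Unit z₀) () :=
    (Subgroup.topEquiv.symm).trans (MulEquiv.subgroupCongr (hst _).symm)
  have hsurv : Surv (W.comp V) z₀ () := by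
    apply exitStep hn W V hVW (hsub _ _) () ez ey
    intro Ω₁ _ z₁ x₁ _ _ hz₁ hr₁ hry₁
    refine claimR W V hVW h1 hB hwin (B.card + 1) Ω₁ z₁ x₁ hz₁ hr₁ hry₁ ?_
    intro g _
    omega
  have := map_eq_of_good (W.comp V) (z := z) (fun x => by
    have h2 : Finer z x z₀ () := fun _ _ _ => le_rfl
    simpa using hsurv Ω z x h2 1)
  simpa using this

end claim

end Pool.Agent.Helper9.Hopf
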