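import Pool.Agent.Helper9.Hopf.Tower
import Pool.Agent.Helper78.HopfLin

set_option autoImplicit false

namespace Pool.Agent.Helper9.Hopf

section balls

/-- balls of the free group -/
theorem exists_ball {n : ℕ} (F : Finset (FreeGroup (Fin n))) :
    ∃ B : Finset (FreeGroup (Fin n)), F ⊆ B ∧ (1 : FreeGroup (Fin n)) ∈ B ∧
      ∀ g ∈ B, g ≠ 1 → ∃ i : Fin n, (FreeGroup.of i)⁻¹ * g ∈ B ∧
        ((FreeGroup.of i)⁻¹ * g).norm < g.norm ∨ FreeGroup.of i * g ∈ B ∧
        (FreeGroup.of i * g).norm < g.norm := by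
  classical
  set N := F.sup FreeGroup.norm with hN
  have hfin : {g : FreeGroup (Fin n) | g.norm ≤ N}.Finite := by
    apply Set.Finite.of_finite_image (f := FreeGroup.toWord) ?_
      (FreeGroup.toWord_injective.injOn)
    apply (List.finite_length_le (Fin n × Bool) N).subset
    rintro _ ⟨g, hg, rfl⟩
    exact hg
  refine ⟨hfin.toFinset, ?_, ?_, ?_⟩
  · intro g hg
    rw [Set.Finite.mem_toFinset]
    exact Finset.le_sup (f := FreeGroup.norm) hg
  · rw [Set.Finite.mem_toFinset]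
    show FreeGroup.norm 1 ≤ N
    simp
  · intro g hg hg1
    rw [Set.Finite.mem_toFinset] at hg
    have hg : g.norm ≤ N := hg
    obtain ⟨i, b, L, hL⟩ : ∃ i b L, g.toWord = (i, b) :: L := by
      match h : g.toWord with
      | [] => exact absurd (FreeGroup.toWord_eq_nil_iff.1 h) hg1
      | (i, b) :: L => exact ⟨i, b, L, rfl⟩
    have hgm : g = FreeGroup.mk ((i, b) :: L) := by rw [← hL, FreeGroup.mk_toWord]
    have hnorm : g.norm = L.length + 1 := by
      show g.toWord.length = _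
      rw [hL]; rfl
    have hnL : (FreeGroup.mk L).norm ≤ L.length := FreeGroup.norm_mk_le
    refine ⟨i, ?_⟩
    cases b with
    | true =>
      left
      have h1 : (FreeGroup.of i)⁻¹ * g = FreeGroup.mk L := by
        rw [hgm, inv_mul_eq_iff_eq_mul]
        show FreeGroup.mk ((i, true) :: L) = FreeGroup.mk [(i, true)] * FreeGroup.mk L
        rw [FreeGroup.mul_mk]; rfl
      rw [h1, Set.Finite.mem_toFinset]
      exact ⟨by show (FreeGroup.mk L).norm ≤ N; omega, by omega⟩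
    | false =>
      right
      have h1 : FreeGroup.of i * g = FreeGroup.mk L := by
        rw [hgm, ← eq_inv_mul_iff_mul_eq]
        show FreeGroup.mk ((i, false) :: L) = (FreeGroup.mk [(i, true)])⁻¹ * FreeGroup.mk L
        rw [FreeGroup.inv_mk, FreeGroup.mul_mk]; rfl
      rw [h1, Set.Finite.mem_toFinset]
      exact ⟨by show (FreeGroup.mk L).norm ≤ N; omega, by omega⟩

end balls

/-- the displacement is Lipschitz with a small constant -/
def SlowMap (κ : ℝ) (f : ℝ → ℝ) : Prop := ∀ x y, |(f y - y) - (f x - x)| ≤ κ * |y - x|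

theorem SlowMap.mono {κ κ' : ℝ} {f : ℝ → ℝ} (h : SlowMap κ f) (hk : κ ≤ κ') : SlowMap κ' f :=
  fun x y => (h x y).trans (mul_le_mul_of_nonneg_right hk (abs_nonneg _))

theorem SlowMap.comp {a b : ℝ} {f g : ℝ → ℝ} (ha : 0 ≤ a) (hf : SlowMap a f)
    (hg : SlowMap b g) : SlowMap (a * (1 + b) + b) (fun x => f (g x)) := by
  intro x y
  have h1 := hf (g x) (g y)
  have h2 := hg x y
  have h3 : |g y - g x| ≤ (1 + b) * |y - x| := by
    have : g y - g x = ((g y - y) - (g x - x)) + (y - x) := by ring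
    rw [this]
    calc |((g y - y) - (g x - x)) + (y - x)| ≤ |(g y - y) - (g x - x)| + |y - x| := abs_add_le _ _
      _ ≤ b * |y - x| + |y - x| := by linarith
      _ = (1 + b) * |y - x| := by ring
  have h4 : (f (g y) - y) - (f (g x) - x) =
      ((f (g y) - g y) - (f (g x) - g x)) + ((g y - y) - (g x - x)) := by ring
  rw [h4]
  calc _ ≤ |(f (g y) - g y) - (f (g x) - g x)| + |(g y - y) - (g x - x)| := abs_add_le _ _
    _ ≤ a * |g y - g x| + b * |y - x| := add_le_add h1 h2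
    _ ≤ a * ((1 + b) * |y - x|) + b * |y - x| := by gcongr
    _ = (a * (1 + b) + b) * |y - x| := by ring

theorem SlowMap.symm {a : ℝ} {f : ℝ ≃o ℝ} (ha : a ≤ 1 / 2) (ha0 : 0 ≤ a) (hf : SlowMap a f) :
    SlowMap (2 * a) f.symm := by
  intro x y
  have h1 := hf (f.symm x) (f.symm y)
  rw [OrderIso.apply_symm_apply, OrderIso.apply_symm_apply] at h1
  have h2 : |f.symm y - f.symm x| ≤ 2 * |y - x| := by
    have h3 : f.symm y - f.symm x = (y - x) - ((y - f.symm y) - (x - f.symm x)) := by ring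
    have h4 : |f.symm y - f.symm x| ≤ |y - x| + |(y - f.symm y) - (x - f.symm x)| := by
      conv_lhs => rw [h3]
      exact abs_sub _ _
    have h5 : a * |f.symm y - f.symm x| ≤ 1 / 2 * |f.symm y - f.symm x| :=
      mul_le_mul_of_nonneg_right ha (abs_nonneg _)
    linarith
  have h6 : |(f.symm y - y) - (f.symm x - x)| = |(y - f.symm y) - (x - f.symm x)| := by
    rw [← abs_neg]; congr 1; ring
  rw [h6]
  calc _ ≤ a * |f.symm y - f.symm x| := h1
    _ ≤ a * (2 * |y - x|) := by gcongr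
    _ = 2 * a * |y - x| := by ring

/-- words are slow when the letters are slow -/
theorem slow_word {n : ℕ} (g : FreeGroup (Fin n)) : ∀ ε : ℝ, 0 < ε → ∃ κ : ℝ, 0 < κ ∧
    ∀ ζ : Fin n → (ℝ ≃o ℝ), (∀ i, SlowMap κ (ζ i)) → SlowMap ε (act ζ g) := by
  induction g using freeGroup_induction_left with
  | h1 =>
    intro ε hε
    refine ⟨1, one_pos, fun ζ _ x y => ?_⟩
    simp only [act_one, sub_self, abs_zero]
    positivity
  | hof i g ih =>
    intro ε hε
    obtain ⟨κ, hκ, h⟩ := ih (min (ε / 3) 1) (by positivity)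
    refine ⟨min κ (ε / 3), by positivity, fun ζ hζ => ?_⟩
    have h1 := h ζ (fun j => (hζ j).mono (min_le_left _ _))
    have h2 : SlowMap (ε / 3) (ζ i) := (hζ i).mono (min_le_right _ _)
    have h3 := h2.comp (by positivity) h1
    have h4 : (fun x => ζ i (act ζ g x)) = act ζ (FreeGroup.of i * g) := by
      funext x; rw [act_mul, act_of_apply]
    rw [h4] at h3
    refine h3.mono ?_
    have h5 : min (ε / 3) 1 ≤ ε / 3 := min_le_left _ _
    have h6 : min (ε / 3) 1 ≤ 1 := min_le_right _ _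
    nlinarith
  | hinv i g ih =>
    intro ε hε
    obtain ⟨κ, hκ, h⟩ := ih (min (ε / 3) 1) (by positivity)
    refine ⟨min κ (min (ε / 6) (1 / 2)), by positivity, fun ζ hζ => ?_⟩
    have h1 := h ζ (fun j => (hζ j).mono (min_le_left _ _))
    have h2 : SlowMap (2 * min (ε / 6) (1 / 2)) (ζ i).symm :=
      SlowMap.symm (min_le_right _ _) (by positivity) ((hζ i).mono (min_le_right _ _))
    have h2' : SlowMap (ε / 3) (ζ i).symm := by
      refine h2.mono ?_
      have := min_le_left (ε / 6) (1 / 2)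
      linarith
    have h3 := h2'.comp (by positivity) h1
    have h4 : (fun x => (ζ i).symm (act ζ g x)) = act ζ ((FreeGroup.of i)⁻¹ * g) := by
      funext x; rw [act_mul, act_inv_of]
    rw [h4] at h3
    refine h3.mono ?_
    have h5 : min (ε / 3) 1 ≤ ε / 3 := min_le_left _ _
    have h6 : min (ε / 3) 1 ≤ 1 := min_le_right _ _
    nlinarith

section limits
variable {n : ℕ}

/-- a sequence of actions getting slower and slower, with points `τ` and scales `δ`. -/
structure SlowSeq (U : Ultrafilter ℕ) (ζ : ℕ → Fin n → (ℝ ≃o ℝ)) : Prop where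
  slow : ∀ (g : FreeGroup (Fin n)) (ε : ℝ), 0 < ε → ∀ᶠ j in (U : Filter ℕ),
    SlowMap ε (act (ζ j) g)

variable {U : Ultrafilter ℕ} {ζ : ℕ → Fin n → (ℝ ≃o ℝ)} {τ δ : ℕ → ℝ}

/-- the relative displacement of `g` converges to `l` -/
def Dis (U : Ultrafilter ℕ) (ζ : ℕ → Fin n → (ℝ ≃o ℝ)) (τ δ : ℕ → ℝ) (g : FreeGroup (Fin n))
    (l : ℝ) : Prop :=
  Filter.Tendsto (fun j => (act (ζ j) g (τ j) - τ j) / δ j) (U : Filter ℕ) (nhds l)

theorem Dis.unique {g : FreeGroup (Fin n)} {l l' : ℝ} (h : Dis U ζ τ δ g l)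
    (h' : Dis U ζ τ δ g l') : l = l' := tendsto_nhds_unique h h'

theorem Dis.mul (hs : SlowSeq U ζ) (hδ : ∀ᶠ j in (U : Filter ℕ), 0 < δ j)
    {g h : FreeGroup (Fin n)} {l l' : ℝ} (hg : Dis U ζ τ δ g l) (hh : Dis U ζ τ δ h l') :
    Dis U ζ τ δ (g * h) (l + l') := by
  have key : Filter.Tendsto (fun j => (act (ζ j) (g * h) (τ j) - τ j) / δ j -
      ((act (ζ j) g (τ j) - τ j) / δ j + (act (ζ j) h (τ j) - τ j) / δ j)) (U : Filter ℕ)
      (nhds 0) := by
    rw [Metric.tendsto_nhds]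
    intro ε hε
    have h1 : ∀ᶠ j in (U : Filter ℕ), |(act (ζ j) h (τ j) - τ j) / δ j| < |l'| + 1 := by
      have h2 := hh.abs
      exact h2.eventually_lt_const (by linarith)
    have hM : 0 < |l'| + 1 := by positivity
    filter_upwards [h1, hδ, hs.slow g (ε / (|l'| + 1) / 2) (by positivity)] with j h2 h3 h4
    have h5 := h4 (τ j) (act (ζ j) h (τ j))
    rw [Real.dist_eq, sub_zero]
    have h6 : (act (ζ j) (g * h) (τ j) - τ j) / δ j -
      ((act (ζ j) g (τ j) - τ j) / δ j + (act (ζ j) h (τ j) - τ j) / δ j) =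
      ((act (ζ j) g (act (ζ j) h (τ j)) - act (ζ j) h (τ j)) - (act (ζ j) g (τ j) - τ j)) / δ j := by
      rw [act_mul]; field_simp; ring
    rw [h6, abs_div, abs_of_pos h3, div_lt_iff₀ h3]
    have h7 : |act (ζ j) h (τ j) - τ j| < (|l'| + 1) * δ j := by
      rw [abs_div, abs_of_pos h3, div_lt_iff₀ h3] at h2
      exact h2
    calc _ ≤ ε / (|l'| + 1) / 2 * |act (ζ j) h (τ j) - τ j| := h5
      _ ≤ ε / (|l'| + 1) / 2 * ((|l'| + 1) * δ j) := by gcongr
      _ = ε / 2 * δ j := by field_simp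
      _ < ε * δ j := by nlinarith
  have h2 := (hg.add hh).add key
  rw [add_zero] at h2
  refine h2.congr (fun j => ?_)
  ring

theorem Dis.inv (hs : SlowSeq U ζ) (hδ : ∀ᶠ j in (U : Filter ℕ), 0 < δ j)
    {g : FreeGroup (Fin n)} {l : ℝ} (hg : Dis U ζ τ δ g l) : Dis U ζ τ δ g⁻¹ (-l) := by
  have key : Filter.Tendsto (fun j => (act (ζ j) g⁻¹ (τ j) - τ j) / δ j +
      (act (ζ j) g (τ j) - τ j) / δ j) (U : Filter ℕ) (nhds 0) := by
    rw [Metric.tendsto_nhds]
    intro ε hε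
    have h1 : ∀ᶠ j in (U : Filter ℕ), |(act (ζ j) g (τ j) - τ j) / δ j| < |l| + 1 := by
      have h2 := hg.abs
      exact h2.eventually_lt_const (by linarith)
    have hM : 0 < |l| + 1 := by positivity
    filter_upwards [h1, hδ, hs.slow g⁻¹ (ε / (|l| + 1) / 2) (by positivity)] with j h2 h3 h4
    have h5 := h4 (act (ζ j) g (τ j)) (τ j)
    rw [act_inv_act] at h5
    rw [Real.dist_eq, sub_zero, ← add_div, abs_div, abs_of_pos h3, div_lt_iff₀ h3]
    have h7 : |act (ζ j) g (τ j) - τ j| < (|l| + 1) * δ j := by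
      rw [abs_div, abs_of_pos h3, div_lt_iff₀ h3] at h2
      exact h2
    have h8 : act (ζ j) g⁻¹ (τ j) - τ j + (act (ζ j) g (τ j) - τ j) =
      (act (ζ j) g⁻¹ (τ j) - τ j) - (τ j - act (ζ j) g (τ j)) := by ring
    rw [h8]
    calc _ ≤ ε / (|l| + 1) / 2 * |τ j - act (ζ j) g (τ j)| := h5
      _ = ε / (|l| + 1) / 2 * |act (ζ j) g (τ j) - τ j| := by rw [abs_sub_comm]
      _ ≤ ε / (|l| + 1) / 2 * ((|l| + 1) * δ j) := by gcongr
      _ = ε / 2 * δ j := by field_simp
      _ < ε * δ j := by nlinarith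
  have h2 := key.sub hg
  rw [zero_sub] at h2
  refine h2.congr (fun j => ?_)
  ring

theorem Dis.neg_of_lt (hδ : ∀ᶠ j in (U : Filter ℕ), 0 < δ j)
    {g : FreeGroup (Fin n)} {l : ℝ} (hg : Dis U ζ τ δ g l) (hl : l < 0) :
    ∀ᶠ j in (U : Filter ℕ), act (ζ j) g (τ j) < τ j := by
  filter_upwards [hg.eventually_lt_const hl, hδ] with j h1 h2
  by_contra hc
  push Not at hc
  have : 0 ≤ (act (ζ j) g (τ j) - τ j) / δ j := div_nonneg (by linarith) h2.le
  linarith

end limits

section main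
variable {n : ℕ}

/-- the inductive step of the slow theorem -/
theorem slow_step (W V : LocFam n n)
    (hVW : ∀ (Ω : Type) [LinearOrder Ω] (z : Fin n → (Ω ≃o Ω)), V.map Ω (W.map Ω z) = z)
    {B : Finset (FreeGroup (Fin n))}
    (hB : ∀ g ∈ B, g ≠ 1 → ∃ i : Fin n, (FreeGroup.of i)⁻¹ * g ∈ B ∧
        ((FreeGroup.of i)⁻¹ * g).norm < g.norm ∨ FreeGroup.of i * g ∈ B ∧
        (FreeGroup.of i * g).norm < g.norm)
    {U : Ultrafilter ℕ} {ζ : ℕ → Fin n → (ℝ ≃o ℝ)} {τ : ℕ → ℝ} (hs : SlowSeq U ζ)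
    {Ω : Type} [LinearOrder Ω] {z : Fin n → (Ω ≃o Ω)} {T : ℕ → Set (Ω ≃o Ω)} (x : Ω)
    (hT : IsTower T z) (hz : W.map Ω (V.map Ω z) = z)
    (hlt : ∀ a ∈ B, ∀ b ∈ B, act z a x < act z b x →
      ∀ᶠ j in (U : Filter ℕ), act (ζ j) a (τ j) < act (ζ j) b (τ j))
    {a₀ b₀ : FreeGroup (Fin n)} (ha₀ : a₀ ∈ B) (hb₀ : b₀ ∈ B) (he₀ : act z a₀ x = act z b₀ x)
    (hne₀ : ∀ᶠ j in (U : Filter ℕ), act (ζ j) a₀ (τ j) ≠ act (ζ j) b₀ (τ j)) :
    ∃ (Ω' : Type) (_ : LinearOrder Ω') (z' : Fin n → (Ω' ≃o Ω')) (T' : ℕ → Set (Ω' ≃o Ω'))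
      (x' : Ω'), IsTower T' z' ∧ W.map Ω' (V.map Ω' z') = z' ∧
      (∀ a ∈ B, ∀ b ∈ B, act z' a x' < act z' b x' →
        ∀ᶠ j in (U : Filter ℕ), act (ζ j) a (τ j) < act (ζ j) b (τ j)) ∧
      (B.image (fun b => act z b x)).card < (B.image (fun b => act z' b x')).card := by
  classical
  -- loops
  let S : Finset (FreeGroup (Fin n) × FreeGroup (Fin n)) :=
    (B ×ˢ B).filter (fun p => act z p.1 x = act z p.2 x)
  have hS : ∀ a b, (a, b) ∈ S ↔ (a ∈ B ∧ b ∈ B) ∧ act z a x = act z b x := by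
    intro a b; simp [S]
  have hS0 : (a₀, b₀) ∈ S := (hS _ _).2 ⟨⟨ha₀, hb₀⟩, he₀⟩
  -- the scale
  let δ : ℕ → ℝ := fun j => S.sup' ⟨_, hS0⟩ (fun p => |act (ζ j) (p.2⁻¹ * p.1) (τ j) - τ j|)
  have hle : ∀ j, ∀ p ∈ S, |act (ζ j) (p.2⁻¹ * p.1) (τ j) - τ j| ≤ δ j := by
    intro j p hp
    exact Finset.le_sup' (fun p : FreeGroup (Fin n) × FreeGroup (Fin n) =>
      |act (ζ j) (p.2⁻¹ * p.1) (τ j) - τ j|) hp
  have hδ : ∀ᶠ j in (U : Filter ℕ), 0 < δ j := by
    filter_upwards [hne₀] with j hj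
    refine lt_of_lt_of_le ?_ (hle j (a₀, b₀) hS0)
    rw [abs_pos, sub_ne_zero]
    intro h
    apply hj
    have := congrArg (act (ζ j) b₀) h
    rwa [act_mul, act_act_inv] at this
  -- the limits exist on loops
  have hlim : ∀ p : FreeGroup (Fin n) × FreeGroup (Fin n), ∃ l, p ∈ S →
      Dis U ζ τ δ (p.2⁻¹ * p.1) l := by
    intro p
    by_cases hp : p ∈ S
    · have hmem : ∀ᶠ j in (U : Filter ℕ),
          (act (ζ j) (p.2⁻¹ * p.1) (τ j) - τ j) / δ j ∈ Set.Icc (-1 : ℝ) 1 := by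
        filter_upwards [hδ] with j hj
        refine Set.mem_Icc.2 (abs_le.1 ?_)
        rw [abs_div, abs_of_pos hj, div_le_one hj]
        exact hle j p hp
      obtain ⟨l, -, hl⟩ := (isCompact_Icc (a := (-1 : ℝ)) (b := 1)).ultrafilter_le_nhds
        (U.map (fun j => (act (ζ j) (p.2⁻¹ * p.1) (τ j) - τ j) / δ j)) (by
          rw [Filter.le_principal_iff]
          exact hmem)
      exact ⟨l, fun _ => hl⟩
    · exact ⟨0, fun h => absurd h hp⟩
  choose lam hlam using hlim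
  -- some limit is nonzero
  obtain ⟨p₁, hp₁S, hp₁⟩ : ∃ p ∈ S, lam p ≠ 0 := by
    by_contra hcon
    push Not at hcon
    have h2 : ∀ᶠ j in (U : Filter ℕ), ∀ p ∈ S,
        |(act (ζ j) (p.2⁻¹ * p.1) (τ j) - τ j) / δ j| < 1 := by
      rw [Filter.eventually_all_finset]
      intro p hp
      have h3 := (hlam p hp).abs
      rw [hcon p hp, abs_zero] at h3
      exact h3.eventually_lt_const one_pos
    obtain ⟨j, hj1, hj2⟩ := (h2.and hδ).exists
    obtain ⟨p, hp, hpe⟩ := Finset.exists_mem_eq_sup' ⟨_, hS0⟩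
      (fun p : FreeGroup (Fin n) × FreeGroup (Fin n) =>
        |act (ζ j) (p.2⁻¹ * p.1) (τ j) - τ j|)
    have h4 := hj1 p hp
    rw [abs_div, abs_of_pos hj2, div_lt_one hj2] at h4
    have h5 : δ j = |act (ζ j) (p.2⁻¹ * p.1) (τ j) - τ j| := hpe
    linarith
  -- the value group
  let A : AddSubgroup ℝ := AddSubgroup.closure ((S.image lam : Finset ℝ) : Set ℝ)
  have hlamA : ∀ p ∈ S, lam p ∈ A := fun p hp =>
    AddSubgroup.subset_closure (by simpa using ⟨p.1, p.2, hp, rfl⟩)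
  -- representatives
  let rep : Ω → FreeGroup (Fin n) := fun v =>
    if h : ∃ b ∈ B, act z b x = v then h.choose else 1
  have hrep : ∀ b ∈ B, rep (act z b x) ∈ B ∧ act z (rep (act z b x)) x = act z b x := by
    intro b hb
    have h : ∃ b' ∈ B, act z b' x = act z b x := ⟨b, hb, rfl⟩
    simp only [rep]
    rw [dif_pos h]
    exact h.choose_spec
  have hrepS : ∀ b ∈ B, (b, rep (act z b x)) ∈ S := fun b hb =>
    (hS _ _).2 ⟨⟨hb, (hrep b hb).1⟩, (hrep b hb).2.symm⟩
  -- the potential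
  let β : FreeGroup (Fin n) → A := fun b =>
    if hb : b ∈ B then ⟨lam (b, rep (act z b x)), hlamA _ (hrepS b hb)⟩ else 0
  have hβ : ∀ b (hb : b ∈ B), (β b : ℝ) = lam (b, rep (act z b x)) := by
    intro b hb; simp only [β]; rw [dif_pos hb]
  have hβdis : ∀ a ∈ B, ∀ b ∈ B, act z a x = act z b x →
      Dis U ζ τ δ (b⁻¹ * a) ((β a : ℝ) - β b) := by
    intro a ha b hb he
    have d1 := hlam _ (hrepS a ha)
    have d2 := hlam _ (hrepS b hb)
    simp only at d1 d2
    rw [← hβ a ha] at d1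
    rw [← hβ b hb] at d2
    have d3 := (d2.inv hs hδ).mul hs hδ d1
    have e1 : ((rep (act z b x))⁻¹ * b)⁻¹ * ((rep (act z a x))⁻¹ * a) = b⁻¹ * a := by
      rw [he]; group
    rw [e1] at d3
    have e2 : -(β b : ℝ) + β a = β a - β b := by ring
    rwa [e2] at d3
  -- differences along edges are well defined
  have hwell : ∀ i, ∀ a ∈ B, ∀ b ∈ B, FreeGroup.of i * a ∈ B → FreeGroup.of i * b ∈ B →
      act z a x = act z b x →
      β (FreeGroup.of i * a) - β a = β (FreeGroup.of i * b) - β b := by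
    intro i a ha b hb hia hib he
    have d1 := hβdis a ha b hb he
    have d2 := hβdis (FreeGroup.of i * a) hia (FreeGroup.of i * b) hib (by
      rw [act_mul, act_mul, he])
    have e1 : (FreeGroup.of i * b)⁻¹ * (FreeGroup.of i * a) = b⁻¹ * a := by group
    rw [e1] at d2
    have e2 := d1.unique d2
    apply Subtype.ext
    push_cast
    linarith
  -- the level
  obtain ⟨m₀, hm₀⟩ := hT.exists_level (B.image (fun b => act z b x))
  obtain ⟨ι, _, q, hq, hq2⟩ := hT.quot m₀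
  have hqinj : ∀ a ∈ B, ∀ b ∈ B, q (act z a x) = q (act z b x) → act z a x = act z b x := by
    intro a ha b hb he
    by_contra hne
    obtain ⟨t, ht, htv⟩ := (hq2 _ _).1 he
    exact hm₀ _ (Finset.mem_image_of_mem _ ha) _ (Finset.mem_image_of_mem _ hb) hne t ht htv
  -- the cocycle
  let f : Fin n → ι → A := fun i k =>
    if h : ∃ b ∈ B, q (act z b x) = k ∧ FreeGroup.of i * b ∈ B then
      β (FreeGroup.of i * h.choose) - β h.choose else 0
  have hf : ∀ i, ∀ b ∈ B, FreeGroup.of i * b ∈ B →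
      f i (q (act z b x)) = β (FreeGroup.of i * b) - β b := by
    intro i b hb hib
    have h : ∃ b' ∈ B, q (act z b' x) = q (act z b x) ∧ FreeGroup.of i * b' ∈ B :=
      ⟨b, hb, rfl, hib⟩
    simp only [f]
    rw [dif_pos h]
    obtain ⟨hc1, hc2, hc3⟩ := h.choose_spec
    exact hwell i _ hc1 b hb hc3 hib (hqinj _ hc1 _ hb hc2)
  let z' : Fin n → ((Ω ×ₗ A) ≃o (Ω ×ₗ A)) :=
    fun i => skew (z i) (fun v => OrderIso.addRight (f i (q v)))
  have hz'app : ∀ i v (a : A), z' i (toLex (v, a)) = toLex (z i v, a + f i (q v)) :=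
    fun i v a => rfl
  -- action on the base point
  have hact : ∀ (N : ℕ) (g : FreeGroup (Fin n)), g.norm ≤ N → g ∈ B →
      act z' g (toLex (x, 0)) = toLex (act z g x, β g - β 1) := by
    intro N
    induction N with
    | zero =>
      intro g hg _
      have : g = 1 := FreeGroup.norm_eq_zero.1 (Nat.le_zero.1 hg)
      subst this
      simp
    | succ N ih =>
      intro g hg hgB
      by_cases hg1 : g = 1
      · subst hg1; simp
      obtain ⟨i, hi | hi⟩ := hB g hgB hg1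
      · obtain ⟨hi1, hi2⟩ := hi
        have h3 := ih _ (by omega) hi1
        have h4 : g = FreeGroup.of i * ((FreeGroup.of i)⁻¹ * g) := by group
        have h5 := hf i _ hi1 (by rw [← h4]; exact hgB)
        rw [← h4] at h5
        conv_lhs => rw [h4]
        rw [act_mul, h3, act_of_apply, hz'app, h5]
        have h6 : z i (act z ((FreeGroup.of i)⁻¹ * g) x) = act z g x := by
          rw [← act_of_apply z i, ← act_mul, ← h4]
        rw [h6]
        congr 2
        abel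
      · obtain ⟨hi1, hi2⟩ := hi
        have h3 := ih _ (by omega) hi1
        have h5 := hf i g hgB hi1
        rw [act_mul, act_of_apply] at h3
        apply (z' i).injective
        rw [h3, hz'app, h5, act_mul, act_of_apply]
        congr 2
        abel
  have hact' : ∀ g ∈ B, act z' g (toLex (x, 0)) = toLex (act z g x, β g - β 1) :=
    fun g hg => hact _ g le_rfl hg
  -- the new chain is fixed
  have hfix : W.map _ (V.map _ z') = z' := by
    let zr : Fin n → ((Ω ×ₗ ℝ) ≃o (Ω ×ₗ ℝ)) :=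
      fun i => skew (z i) (fun v => OrderIso.addRight ((f i (q v) : A) : ℝ))
    have hzr : W.map _ (V.map _ zr) = zr := by
      refine Pool.Agent.Helper78.HopfLin.linLemma W V hVW z hz q hq ?_ (fun i k => ((f i k : A) : ℝ))
      intro v v' he
      obtain ⟨t, ht, htv⟩ := (hq2 _ _).1 he
      exact ⟨t, fun i u => hT.comm' ht i u, fun u => ((hq2 _ _).2 ⟨t, ht, rfl⟩).symm, htv⟩
    let π : Ω ×ₗ A → Ω ×ₗ ℝ := fun p => toLex ((ofLex p).1, ((ofLex p).2 : ℝ))
    have hπm : StrictMono π := by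
      intro p p' hpp
      rw [Prod.Lex.lt_iff] at hpp
      show toLex _ < toLex _
      rw [Prod.Lex.toLex_lt_toLex]
      rcases hpp with h | ⟨h, h'⟩
      · exact Or.inl h
      · exact Or.inr ⟨h, h'⟩
    have hπ : ∀ i p, π (z' i p) = zr i (π p) := fun i p => rfl
    have : (W.comp V).map _ z' = z' := by
      apply map_eq_of_good
      intro p
      refine good_of_embedding (W.comp V) hπm.monotone hπm.injective hπ ?_
      exact good_of_map_eq (W.comp V) hzr _
    exact this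
  obtain ⟨T', hT'⟩ := hT.skew (res_closure (S.image lam)) m₀ (fun i v => f i (q v)) (by
    intro i t ht v
    exact congrArg (f i) ((hq2 _ _).2 ⟨t, ht, rfl⟩).symm)
  refine ⟨Ω ×ₗ A, inferInstance, z', T', toLex (x, 0), hT', hfix, ?_, ?_⟩
  · intro a ha b hb hab
    rw [hact' a ha, hact' b hb, Prod.Lex.toLex_lt_toLex] at hab
    rcases hab with h | ⟨h, h'⟩
    · exact hlt a ha b hb h
    · have h3 : act z a x = act z b x := h
      have h4 : (β a : ℝ) - β b < 0 := by
        have h5 : β a < β b := by simpa using h'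
        have h6 : (β a : ℝ) < β b := h5
        linarith
      filter_upwards [(hβdis a ha b hb h3).neg_of_lt hδ h4] with j hj
      rw [act_mul] at hj
      have := (act_lt_iff (ζ j) b _ _).2 hj
      rwa [act_act_inv] at this
  · -- strict increase
    have himg : (B.image (fun b => act z' b (toLex (x, 0)))).image (fun p => (ofLex p).1) =
        B.image (fun b => act z b x) := by
      rw [Finset.image_image]
      apply Finset.image_congr
      intro b hb
      show (ofLex (act z' b (toLex (x, 0)))).1 = _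
      rw [hact' b hb]; rfl
    rw [← himg]
    refine lt_of_le_of_ne Finset.card_image_le ?_
    intro hcard
    have hinj := Finset.card_image_iff.1 hcard
    obtain ⟨⟨ha₁, hb₁⟩, he₁⟩ := (hS p₁.1 p₁.2).1 hp₁S
    have h3 := hinj (Finset.mem_coe.2 (Finset.mem_image_of_mem _ ha₁))
      (Finset.mem_coe.2 (Finset.mem_image_of_mem _ hb₁)) (by
        show (ofLex (act z' p₁.1 (toLex (x, 0)))).1 = (ofLex (act z' p₁.2 (toLex (x, 0)))).1
        rw [hact' _ ha₁, hact' _ hb₁]; exact he₁)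
    have h3 : act z' p₁.1 (toLex (x, 0)) = act z' p₁.2 (toLex (x, 0)) := h3
    rw [hact' _ ha₁, hact' _ hb₁] at h3
    have h4 : β p₁.1 - β 1 = β p₁.2 - β 1 := congrArg (fun p => (ofLex p).2) h3
    have h5 : β p₁.1 = β p₁.2 := sub_left_injective h4
    have h6 := hβdis _ ha₁ _ hb₁ he₁
    rw [h5, sub_self] at h6
    exact hp₁ ((hlam p₁ hp₁S).unique h6)

theorem slow_main (W V : LocFam n n)
    (hVW : ∀ (Ω : Type) [LinearOrder Ω] (z : Fin n → (Ω ≃o Ω)), V.map Ω (W.map Ω z) = z)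
    {B : Finset (FreeGroup (Fin n))}
    (hB : ∀ g ∈ B, g ≠ 1 → ∃ i : Fin n, (FreeGroup.of i)⁻¹ * g ∈ B ∧
        ((FreeGroup.of i)⁻¹ * g).norm < g.norm ∨ FreeGroup.of i * g ∈ B ∧
        (FreeGroup.of i * g).norm < g.norm)
    (hwin : ∀ (Ω Ω' : Type) [LinearOrder Ω] [LinearOrder Ω']
      (z : Fin n → (Ω ≃o Ω)) (z' : Fin n → (Ω' ≃o Ω')) (x : Ω) (x' : Ω'),
      Coarse B z x z' x' → Good (W.comp V) z x → Good (W.comp V) z' x')
    {U : Ultrafilter ℕ} {ζ : ℕ → Fin n → (ℝ ≃o ℝ)} {τ : ℕ → ℝ} (hs : SlowSeq U ζ) (k : ℕ) :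
    ∀ (Ω : Type) (_ : LinearOrder Ω) (z : Fin n → (Ω ≃o Ω)) (T : ℕ → Set (Ω ≃o Ω)) (x : Ω),
      IsTower T z → W.map Ω (V.map Ω z) = z →
      (∀ a ∈ B, ∀ b ∈ B, act z a x < act z b x →
        ∀ᶠ j in (U : Filter ℕ), act (ζ j) a (τ j) < act (ζ j) b (τ j)) →
      B.card < (B.image (fun b => act z b x)).card + k →
      ∀ᶠ j in (U : Filter ℕ), Good (W.comp V) (ζ j) (τ j) := by
  classical
  induction k with
  | zero =>
    intro Ω _ z T x hT hz hlt hk
    have h3 : (B.image (fun b => act z b x)).card ≤ B.card := Finset.card_image_le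
    omega
  | succ k ih =>
    intro Ω _ z T x hT hz hlt hk
    by_cases hall : ∀ a ∈ B, ∀ b ∈ B, act z a x = act z b x →
        ∀ᶠ j in (U : Filter ℕ), act (ζ j) a (τ j) = act (ζ j) b (τ j)
    · have h2 : ∀ a ∈ B, ∀ᶠ j in (U : Filter ℕ), ∀ b ∈ B, act z a x ≤ act z b x →
          act (ζ j) a (τ j) ≤ act (ζ j) b (τ j) := by
        intro a ha
        rw [Filter.eventually_all_finset]
        intro b hb
        rcases lt_trichotomy (act z a x) (act z b x) with h | h | h
        · filter_upwards [hlt a ha b hb h] with j hj _ using hj.le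
        · filter_upwards [hall a ha b hb h] with j hj _ using hj.le
        · exact Filter.Eventually.of_forall fun j hj => absurd hj (not_le.2 h)
      filter_upwards [(Filter.eventually_all_finset B).2 h2] with j hj
      exact hwin _ _ z (ζ j) x (τ j) (fun a ha b hb => hj a ha b hb)
        (good_of_map_eq (W.comp V) hz x)
    · push Not at hall
      obtain ⟨a₀, ha₀, b₀, hb₀, he₀, hne₀⟩ := hall
      obtain ⟨Ω', inst', z', T', x', hT', hz', hlt', hcard⟩ :=
        slow_step W V hVW hB hs x hT hz hlt ha₀ hb₀ he₀ hne₀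
      exact ih Ω' inst' z' T' x' hT' hz' hlt' (by omega)

/-- slow actions on the line are fixed by `W ∘ V`. -/
theorem slow (W V : LocFam n n)
    (hVW : ∀ (Ω : Type) [LinearOrder Ω] (z : Fin n → (Ω ≃o Ω)), V.map Ω (W.map Ω z) = z) :
    ∃ κ : ℝ, 0 < κ ∧ ∀ ζ : Fin n → (ℝ ≃o ℝ),
      (∀ i x y, |(ζ i y - y) - (ζ i x - x)| ≤ κ * |y - x|) → W.map ℝ (V.map ℝ ζ) = ζ := by
  classical
  obtain ⟨F, hF⟩ := exists_goodWindow (W.comp V)
  obtain ⟨B, hFB, -, hB⟩ := exists_ball F
  have hwin : ∀ (Ω Ω' : Type) [LinearOrder Ω] [LinearOrder Ω']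
      (z : Fin n → (Ω ≃o Ω)) (z' : Fin n → (Ω' ≃o Ω')) (x : Ω) (x' : Ω'),
      Coarse B z x z' x' → Good (W.comp V) z x → Good (W.comp V) z' x' :=
    fun Ω Ω' _ _ z z' x x' h => hF Ω Ω' z z' x x' (h.mono hFB)
  by_contra hcon
  push Not at hcon
  have hj : ∀ j : ℕ, ∃ ζ : Fin n → (ℝ ≃o ℝ), (∀ i, SlowMap (1 / ((j : ℝ) + 1)) (ζ i)) ∧
      ∃ τ, ¬ Good (W.comp V) ζ τ := by
    intro j
    obtain ⟨ζ, h2, h3⟩ := hcon (1 / ((j : ℝ) + 1)) (by positivity)
    refine ⟨ζ, h2, ?_⟩
    by_contra hall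
    push Not at hall
    exact h3 (map_eq_of_good (W.comp V) hall)
  choose ζ hζ τ hτ using hj
  obtain ⟨U, hU⟩ := Filter.exists_ultrafilter_le (Filter.atTop : Filter ℕ)
  have hs : SlowSeq U ζ := by
    constructor
    intro g ε hε
    obtain ⟨κ, hκ, h2⟩ := slow_word g ε hε
    have h3 := (tendsto_one_div_add_atTop_nhds_zero_nat (𝕜 := ℝ)).mono_left hU
    filter_upwards [h3.eventually_lt_const hκ] with j hj
    exact h2 (ζ j) (fun i => (hζ j i).mono hj.le)
  have := slow_main W V hVW hB hwin hs (τ := τ) (B.card + 1) Unit inferInstance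
    (fun _ => 1) _ () (isTower_unit _) (by funext i; exact Subsingleton.elim _ _)
    (fun a _ b _ h => absurd h (lt_irrefl _)) (by omega)
  obtain ⟨j, hj⟩ := this.exists
  exact hτ j hj

end main

end Pool.Agent.Helper9.Hopf
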