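import Pool.Agent.Helper9.Hopf.Rank
import Pool.Agent.Helper1.Hopf.Exit
import Pool.Agent.Helper1.Hopf.Dense
import Pool.Agent.Helper9.Hopf.Slow

set_option autoImplicit false

namespace Pool.Agent.Helper9.Hopf

section limit
variable {n : ℕ}

theorem limit_coarse {U : Ultrafilter ℕ} {Ω : ℕ → Type} [∀ j, LinearOrder (Ω j)]
    {z : ∀ j, Fin n → (Ω j ≃o Ω j)} {x : ∀ j, Ω j}
    {Ω' : Type} [LinearOrder Ω'] {z' : Fin n → (Ω' ≃o Ω')} {x' : Ω'}
    (h : ∀ g h, act z' g x' ≤ act z' h x' ↔ ∀ᶠ j in (U : Filter ℕ),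
        act (z j) g (x j) ≤ act (z j) h (x j)) (F : Finset (FreeGroup (Fin n))) :
    ∀ᶠ j in (U : Filter ℕ), Coarse F z' x' (z j) (x j) := by
  have h1 : ∀ g ∈ F, ∀ᶠ j in (U : Filter ℕ), ∀ k ∈ F, act z' g x' ≤ act z' k x' →
      act (z j) g (x j) ≤ act (z j) k (x j) := by
    intro g _
    rw [Filter.eventually_all_finset]
    intro k _
    by_cases hle : act z' g x' ≤ act z' k x'
    · filter_upwards [(h g k).1 hle] with j hj _ using hj
    · exact Filter.Eventually.of_forall fun j hj => absurd hj hle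
  exact (Filter.eventually_all_finset F).2 h1

theorem limit_allGood {U : Ultrafilter ℕ} {Ω : ℕ → Type} [∀ j, LinearOrder (Ω j)]
    {z : ∀ j, Fin n → (Ω j ≃o Ω j)} {x : ∀ j, Ω j}
    {Ω' : Type} [LinearOrder Ω'] {z' : Fin n → (Ω' ≃o Ω')} {x' : Ω'}
    (h : ∀ g h, act z' g x' ≤ act z' h x' ↔ ∀ᶠ j in (U : Filter ℕ),
        act (z j) g (x j) ≤ act (z j) h (x j)) (R : LocFam n n)
    (hR : ∀ j, AllGood R (z j) (x j)) : AllGood R z' x' := by
  classical
  obtain ⟨F, hF⟩ := exists_goodWindow R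
  intro g
  -- the pattern of the limit at `g x'` on `F` is the pattern of some `z j` at `g (x j)`
  have h1 : ∀ a ∈ F, ∀ᶠ j in (U : Filter ℕ), ∀ b ∈ F,
      act (z j) (a * g) (x j) ≤ act (z j) (b * g) (x j) → act z' (a * g) x' ≤ act z' (b * g) x' := by
    intro a _
    rw [Filter.eventually_all_finset]
    intro b _
    by_cases hle : act z' (a * g) x' ≤ act z' (b * g) x'
    · exact Filter.Eventually.of_forall fun j _ => hle
    · rw [h, ← Ultrafilter.eventually_not] at hle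
      filter_upwards [hle] with j hj hj' using absurd hj' hj
  obtain ⟨j, hj⟩ := ((Filter.eventually_all_finset F).2 h1).exists
  refine hF _ _ (z j) z' (act (z j) g (x j)) (act z' g x') ?_ (hR j g)
  intro a ha b hb hle
  rw [← act_mul, ← act_mul] at hle ⊢
  exact hj a ha b hb hle

end limit

section ranks
variable {n : ℕ}

theorem exists_rank_of_bound {m : ℕ} {Ω : Type} [LinearOrder Ω] (z : Fin m → (Ω ≃o Ω)) (x : Ω)
    (N : ℕ) (h : ∀ (k : ℕ) (γ : Fin k → stab z x) (χ : Fin k → (stab z x →* Multiplicative ℤ)),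
        (∀ i j, χ i (γ j) = if i = j then Multiplicative.ofAdd 1 else 1) → k ≤ N) :
    ∃ k, k ≤ N ∧ Nonempty (FreeGroup (Fin k) ≃* stab z x) := by
  classical
  set ι := IsFreeGroup.Generators (stab z x) with hι
  have hno : ∀ (k : ℕ) (e : Fin k → ι), Function.Injective e → k ≤ N := by
    intro k e he
    refine h k (fun j => IsFreeGroup.of (e j)) (fun i => IsFreeGroup.lift (fun a =>
      if a = e i then Multiplicative.ofAdd 1 else 1)) ?_
    intro i j
    rw [IsFreeGroup.lift_of]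
    simp only [he.eq_iff, eq_comm]
  have hfinite : Finite ι := by
    by_contra hinf
    rw [not_finite_iff_infinite] at hinf
    have := hno (N + 1) (fun i => Infinite.natEmbedding ι i) (fun a b hab => by
      have := (Infinite.natEmbedding ι).injective hab
      exact Fin.ext this)
    omega
  have := Fintype.ofFinite ι
  refine ⟨Fintype.card ι, hno _ (Fintype.equivFin ι).symm (Equiv.injective _), ⟨?_⟩⟩
  exact (FreeGroup.freeGroupCongr (Fintype.equivFin ι).symm).trans (IsFreeGroup.mulEquiv _)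

end ranks

section one

theorem stab_pow_mono {n : ℕ} {Ω : Type} [LinearOrder Ω] (z : Fin n → (Ω ≃o Ω)) (x : Ω)
    (c : FreeGroup (Fin n)) (h : x < act z c x) : StrictMono (fun j : ℤ => act z (c ^ j) x) := by
  apply strictMono_int_of_lt_succ
  intro j
  rw [zpow_add_one, act_mul]
  exact (act_lt_iff _ _ _ _).2 h

theorem slow_trans (κ : ℝ) (hκ : 0 < κ) {n : ℕ} (r : Multiplicative ℝ) (i : Fin n) (x y : ℝ) :
    |((fun _ : Fin n => trans r) i y - y) - ((fun _ : Fin n => trans r) i x - x)|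
      ≤ κ * |y - x| := by
  simp only [trans_apply]
  rw [show y + r.toAdd - y - (x + r.toAdd - x) = 0 by ring, abs_zero]
  positivity

/-- the rank one case -/
theorem one_id (W V : LocFam 1 1)
    (hVW : ∀ (Ω : Type) [LinearOrder Ω] (z : Fin 1 → (Ω ≃o Ω)), V.map Ω (W.map Ω z) = z)
    (Ω : Type) [LinearOrder Ω] (z : Fin 1 → (Ω ≃o Ω)) : W.map Ω (V.map Ω z) = z := by
  obtain ⟨κ, hκ, hslow⟩ := slow W V hVW
  set R := W.comp V with hR
  have hfix : ∀ r : Multiplicative ℝ, AllGood R (fun _ : Fin 1 => trans r) (0 : ℝ) := by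
    intro r
    apply allGood_of_map_eq
    rw [hR, LocFam.comp_map]
    exact hslow _ (fun i x y => slow_trans κ hκ r i x y)
  have hact : ∀ (r : ℝ) (j : ℤ),
      act (fun _ : Fin 1 => trans (Multiplicative.ofAdd r)) ((FreeGroup.of 0) ^ j) 0 = j * r := by
    intro r j
    rw [map_zpow, act_of, ← map_zpow, trans_apply]
    simp
  have key : ∀ x, Good R z x := by
    intro x
    have : ∀ r : ℝ, (∀ j l : ℤ, j * r ≤ l * r → act z ((FreeGroup.of 0) ^ j) x ≤
        act z ((FreeGroup.of 0) ^ l) x) → Good R z x := by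
      intro r hr
      have hf : Finer (fun _ : Fin 1 => trans (Multiplicative.ofAdd r)) (0 : ℝ) z x := by
        intro g h hle
        obtain ⟨j, rfl⟩ := mem_zpowers_fin_one g
        obtain ⟨l, rfl⟩ := mem_zpowers_fin_one h
        rw [hact, hact] at hle
        exact hr j l hle
      have := (hfix _).of_finer hf 1
      simpa using this
    rcases lt_trichotomy (act z (FreeGroup.of 0) x) x with hlt | heq | hlt
    · apply this (-1)
      intro j l hjl
      have hjl' : (l : ℝ) ≤ j := by linarith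
      have hjl : l ≤ j := by exact_mod_cast hjl'
      have h1 : x < act z (FreeGroup.of 0)⁻¹ x := by
        rw [← act_lt_iff z (FreeGroup.of 0), act_act_inv]; exact hlt
      have h2 := (stab_pow_mono z x _ h1).monotone (neg_le_neg hjl)
      simpa using h2
    · apply this 0
      intro j l _
      have hfix : ∀ j : ℤ, act z ((FreeGroup.of 0) ^ j) x = x :=
        fun j => (stab z x).zpow_mem heq j
      rw [hfix, hfix]
    · apply this 1
      intro j l hjl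
      have hjl' : (j : ℝ) ≤ l := by linarith
      have hjl : j ≤ l := by exact_mod_cast hjl'
      exact (stab_pow_mono z x _ hlt).monotone hjl
  have := map_eq_of_good R key
  rwa [hR, LocFam.comp_map] at this

end one

section exit
variable {n : ℕ} {Ω : Type} [LinearOrder Ω]

theorem idem_comp (W V : LocFam n n)
    (hVW : ∀ (Ω : Type) [LinearOrder Ω] (z : Fin n → (Ω ≃o Ω)), V.map Ω (W.map Ω z) = z)
    (Ω : Type) [LinearOrder Ω] (z : Fin n → (Ω ≃o Ω)) :
    (W.comp V).map Ω ((W.comp V).map Ω z) = (W.comp V).map Ω z := by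
  simp only [LocFam.comp_map, hVW]

theorem surv_of_push {m : ℕ} (W V : LocFam n n)
    (hVW : ∀ (Ω : Type) [LinearOrder Ω] (z : Fin n → (Ω ≃o Ω)), V.map Ω (W.map Ω z) = z)
    {z : Fin n → (Ω ≃o Ω)} (hz : W.map Ω (V.map Ω z) = z) (x : Ω)
    (ez : FreeGroup (Fin m) ≃* stab z x) (ey : FreeGroup (Fin m) ≃* stab (V.map Ω z) x)
    (hid : ∀ (Ω' : Type) [LinearOrder Ω'] (ρ : Fin m → (Ω' ≃o Ω')),
      (push W (V.map Ω z) z hz x ey ez).map Ω' ((push V z (V.map Ω z) rfl x ez ey).map Ω' ρ) = ρ) :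
    Surv (W.comp V) z x := by
  apply surv_of_hol (W.comp V) (idem_comp W V hVW) (z := z) hz x
  intro Ω' _ ρ c
  have h1 : repOf ez (fun i => ρ (ez (FreeGroup.of i))) = ρ := by
    have h2 : act (fun i => ρ (ez (FreeGroup.of i))) = ρ.comp ez.toMonoidHom := by
      apply FreeGroup.ext_hom
      intro i
      rw [act_of]; rfl
    ext c w
    rw [repOf_apply, h2]
    simp
  have h3 := push_push_eq V W z (V.map Ω z) z rfl hz x ez ey ez Ω'
    (fun i => ρ (ez (FreeGroup.of i))) c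
  rw [hid, h1] at h3
  exact h3.symm

theorem good_push_iff {m : ℕ} (W V : LocFam n n)
    {z : Fin n → (Ω ≃o Ω)} (hz : W.map Ω (V.map Ω z) = z) (x : Ω)
    (ez : FreeGroup (Fin m) ≃* stab z x) (ey : FreeGroup (Fin m) ≃* stab (V.map Ω z) x)
    {Ω' : Type} [LinearOrder Ω'] (ρ : Fin m → (Ω' ≃o Ω')) (w : Ω') (c : stab z x) :
    act ((W.comp V).map _ (ind z x (repOf ez ρ))) c (toLex (x, w)) =
      toLex (x, repOf ez ((push W (V.map Ω z) z hz x ey ez).map Ω'
        ((push V z (V.map Ω z) rfl x ez ey).map Ω' ρ)) c w) := by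
  rw [push_push_eq V W z (V.map Ω z) z rfl hz x ez ey ez Ω' ρ c]
  exact act_hol (((covers_ind z x (repOf ez ρ)).map' V rfl).map' W hz) x w c

theorem allGood_of_push {m : ℕ} (W V : LocFam n n)
    (hVW : ∀ (Ω : Type) [LinearOrder Ω] (z : Fin n → (Ω ≃o Ω)), V.map Ω (W.map Ω z) = z)
    {z : Fin n → (Ω ≃o Ω)} (hz : W.map Ω (V.map Ω z) = z) (x : Ω)
    (ez : FreeGroup (Fin m) ≃* stab z x) (ey : FreeGroup (Fin m) ≃* stab (V.map Ω z) x)
    {Ω' : Type} [LinearOrder Ω'] (ρ : Fin m → (Ω' ≃o Ω')) (w : Ω')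
    (hid : (push W (V.map Ω z) z hz x ey ez).map Ω'
        ((push V z (V.map Ω z) rfl x ez ey).map Ω' ρ) = ρ) :
    AllGood (W.comp V) (ind z x (repOf ez ρ)) (toLex (x, w)) := by
  apply allGood_ind (W.comp V) (idem_comp W V hVW) (z := z) hz x
  intro c
  have h3 := push_push_eq V W z (V.map Ω z) z rfl hz x ez ey ez Ω' ρ c
  rw [hid] at h3
  exact h3.symm

theorem mem_stab_ind {m : ℕ} {z : Fin n → (Ω ≃o Ω)} {x : Ω}
    (ez : FreeGroup (Fin m) ≃* stab z x) {Ω' : Type} [LinearOrder Ω'] (ρ : Fin m → (Ω' ≃o Ω'))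
    (w : Ω') (g : FreeGroup (Fin n)) :
    g ∈ stab (ind z x (repOf ez ρ)) (toLex (x, w)) ↔
      ∃ c ∈ stab ρ w, (ez c : FreeGroup (Fin n)) = g := by
  constructor
  · intro hg
    have hgs : g ∈ stab z x := by
      have := (covers_ind z x (repOf ez ρ)).act g (toLex (x, w))
      rw [mem_stab.1 hg] at this
      exact this.symm
    refine ⟨ez.symm ⟨g, hgs⟩, ?_, by simp⟩
    rw [mem_stab] at hg
    have h2 := act_ind_stab z x (repOf ez ρ) w ⟨g, hgs⟩
    rw [hg] at h2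
    have h3 := congrArg (fun p => (ofLex p).2) h2
    exact h3.symm
  · rintro ⟨c, hc, rfl⟩
    rw [mem_stab, act_ind_stab, repOf_apply, MulEquiv.symm_apply_apply, mem_stab.1 hc]

/-- the isomorphism of stabilisers for an induced action -/
noncomputable def stabIndEquiv {m : ℕ} {z : Fin n → (Ω ≃o Ω)} {x : Ω}
    (ez : FreeGroup (Fin m) ≃* stab z x) {Ω' : Type} [LinearOrder Ω'] (ρ : Fin m → (Ω' ≃o Ω'))
    (w : Ω') : stab ρ w ≃* stab (ind z x (repOf ez ρ)) (toLex (x, w)) :=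
  MulEquiv.ofBijective
    ({ toFun := fun c => ⟨(ez c : FreeGroup (Fin n)), (mem_stab_ind ez ρ w _).2 ⟨c, c.2, rfl⟩⟩
       map_one' := by ext; simp
       map_mul' := by intro a b; ext; simp } :
      stab ρ w →* stab (ind z x (repOf ez ρ)) (toLex (x, w)))
    (by
      constructor
      · intro a b hab
        have h1 := congrArg Subtype.val hab
        have h2 : (ez a : FreeGroup (Fin n)) = ez b := h1
        exact Subtype.ext (ez.injective (Subtype.ext h2))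
      · rintro ⟨g, hg⟩
        obtain ⟨c, hc, hcg⟩ := (mem_stab_ind ez ρ w g).1 hg
        exact ⟨⟨c, hc⟩, Subtype.ext hcg⟩)

theorem Finer.stab_eq {Ω' : Type} [LinearOrder Ω'] {z : Fin n → (Ω ≃o Ω)} {x : Ω}
    {z' : Fin n → (Ω' ≃o Ω')} {x' : Ω'} (h : Finer z x z' x') (h' : Finer z' x' z x) :
    stab z x = stab z' x' := le_antisymm h.stab_le h'.stab_le

/-- limit points of induced actions -/
theorem ind_limit_finer {m : ℕ} {z : Fin n → (Ω ≃o Ω)} {x : Ω}
    (ez : FreeGroup (Fin m) ≃* stab z x) {U : Ultrafilter ℕ} (hU : (U : Filter ℕ) ≤ Filter.atTop)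
    (ζ : ℕ → Fin m → (ℝ ≃o ℝ)) (τ : ℕ → ℝ) (ζ' : Fin m → (ℝ ≃o ℝ)) (τ' : ℝ)
    (hlim : ∀ g, Filter.Tendsto (fun j => act (ζ j) g (τ j)) Filter.atTop (nhds (act ζ' g τ')))
    (g h : FreeGroup (Fin n))
    (hle : ∀ᶠ j in (U : Filter ℕ), act (ind z x (repOf ez (ζ j))) g (toLex (x, τ j)) ≤
      act (ind z x (repOf ez (ζ j))) h (toLex (x, τ j))) :
    act (ind z x (repOf ez ζ')) g (toLex (x, τ')) ≤
      act (ind z x (repOf ez ζ')) h (toLex (x, τ')) := by
  rw [(covers_ind z x _).le_iff]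
  by_cases hlt : act z g x < act z h x
  · exact Or.inl hlt
  right
  have hle' : ∀ᶠ j in (U : Filter ℕ), ∃ hc : h⁻¹ * g ∈ stab z x,
      act (ζ j) (ez.symm ⟨h⁻¹ * g, hc⟩) (τ j) ≤ τ j := by
    filter_upwards [hle] with j hj
    rw [(covers_ind z x _).le_iff] at hj
    rcases hj with hj | ⟨hc, hj⟩
    · exact absurd hj hlt
    · refine ⟨hc, ?_⟩
      rwa [hol_ind, repOf_apply] at hj
  obtain ⟨j, hc, -⟩ := hle'.exists
  refine ⟨hc, ?_⟩
  rw [hol_ind, repOf_apply]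
  have h1 := (hlim (ez.symm ⟨h⁻¹ * g, hc⟩)).mono_left hU
  have h2 := (hlim 1).mono_left hU
  simp only [act_one] at h2
  refine le_of_tendsto_of_tendsto h1 h2 ?_
  filter_upwards [hle'] with j hj
  exact hj.2

theorem exitStep {m : ℕ} (hm : 2 ≤ m) (W V : LocFam n n)
    (hVW : ∀ (Ω : Type) [LinearOrder Ω] (z : Fin n → (Ω ≃o Ω)), V.map Ω (W.map Ω z) = z)
    {z : Fin n → (Ω ≃o Ω)} (hz : W.map Ω (V.map Ω z) = z) (x : Ω)
    (ez : FreeGroup (Fin m) ≃* stab z x) (ey : FreeGroup (Fin m) ≃* stab (V.map Ω z) x)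
    (H : ∀ (Ω₁ : Type) [LinearOrder Ω₁] (z₁ : Fin n → (Ω₁ ≃o Ω₁)) (x₁ : Ω₁),
      Finer z₁ x₁ z x → stab z₁ x₁ ≠ stab z x → W.map Ω₁ (V.map Ω₁ z₁) = z₁ →
      Nonempty (FreeGroup (Fin 2) ≃* stab z₁ x₁) →
      Nonempty (FreeGroup (Fin 2) ≃* stab (V.map Ω₁ z₁) x₁) → Surv (W.comp V) z₁ x₁) :
    Surv (W.comp V) z x := by
  classical
  set W' := push W (V.map Ω z) z hz x ey ez with hW'
  set V' := push V z (V.map Ω z) rfl x ez ey with hV'
  have hVW' : ∀ (Ω' : Type) [LinearOrder Ω'] (ρ : Fin m → (Ω' ≃o Ω')),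
      V'.map Ω' (W'.map Ω' ρ) = ρ := fun Ω' _ ρ => push_push_id W V hVW _ _ hz rfl x ey ez Ω' ρ
  apply surv_of_push W V hVW hz x ez ey
  rw [← hW', ← hV']
  by_contra hcon
  push Not at hcon
  obtain ⟨Ωb, _, ρb, hρb⟩ := hcon
  obtain ⟨κ, hκ, hslow⟩ := slow W' V' hVW'
  have hbad : ∃ (Ω : Type) (_ : LinearOrder Ω) (z : Fin m → (Ω ≃o Ω)) (x : Ω),
      ¬ Good (W'.comp V') z x := by
    by_contra hall
    push Not at hall
    exact hρb (map_eq_of_good (W'.comp V') (fun w => hall Ωb _ ρb w))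
  obtain ⟨ζ, τ, ζ', τ', hbadj, hfix, hlim, hzero, hrank, hdense⟩ :=
    exitPath hm (W'.comp V') ⟨κ, hκ, fun ζ h => hslow ζ h⟩ hbad
  -- everything is good for the limit action
  have hgood' : ∀ t : ℝ, AllGood (W.comp V) (ind z x (repOf ez ζ')) (toLex (x, t)) :=
    fun t => allGood_of_push W V hVW hz x ez ey ζ' t hfix
  obtain ⟨Ω₁, _, z₁, x₁, hf₁, hf₁', ht₁⟩ := exists_orbit (ind z x (repOf ez ζ')) (toLex (x, τ'))
  have hz₁ : W.map Ω₁ (V.map Ω₁ z₁) = z₁ :=
    map_eq_of_allGood (W.comp V) ht₁ ((hgood' τ').of_finer hf₁')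
  have hf₁z : Finer z₁ x₁ z x := hf₁.trans ((covers_ind z x _).finer x τ')
  have hst₁ : stab z₁ x₁ = stab (ind z x (repOf ez ζ')) (toLex (x, τ')) := hf₁.stab_eq hf₁'
  obtain ⟨k, hk, ⟨e₀⟩⟩ := exists_rank_of_bound ζ' τ' 2 (hrank τ')
  have e₁ : FreeGroup (Fin k) ≃* stab z₁ x₁ :=
    (e₀.trans (stabIndEquiv ez ζ' τ')).trans (MulEquiv.subgroupCongr hst₁.symm)
  -- a refinement with trivial stabiliser
  obtain ⟨U, hU⟩ := Filter.exists_ultrafilter_le (Filter.atTop : Filter ℕ)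
  have hts : ∀ j : ℕ, ∃ t : ℝ, |t - τ'| < 1 / ((j : ℝ) + 1) ∧ stab ζ' t = ⊥ := by
    intro j
    have hj : (0 : ℝ) < 1 / ((j : ℝ) + 1) := by positivity
    obtain ⟨t, h1, h2, h3⟩ := hdense (τ' - 1 / ((j : ℝ) + 1)) (τ' + 1 / ((j : ℝ) + 1))
      (by linarith)
    exact ⟨t, abs_lt.2 ⟨by linarith, by linarith⟩, h3⟩
  choose t ht1 ht2 using hts
  have htt : Filter.Tendsto t Filter.atTop (nhds τ') := by
    rw [tendsto_iff_dist_tendsto_zero]
    refine squeeze_zero (fun _ => dist_nonneg) (fun j => ?_) tendsto_one_div_add_atTop_nhds_zero_nat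
    rw [Real.dist_eq]; exact (ht1 j).le
  obtain ⟨Ω₂, _, z₂, x₂, hl₂, htr₂⟩ := exists_limit U (fun _ => Ω ×ₗ ℝ)
    (fun _ => ind z x (repOf ez ζ')) (fun j => toLex (x, t j))
  have hgood₂ : AllGood (W.comp V) z₂ x₂ := limit_allGood hl₂ _ (fun j => hgood' (t j))
  have hz₂ : W.map Ω₂ (V.map Ω₂ z₂) = z₂ := map_eq_of_allGood (W.comp V) htr₂ hgood₂
  have hf₂ : Finer z₂ x₂ z₁ x₁ := by
    refine Finer.trans ?_ hf₁'
    intro g h hle
    rw [hl₂] at hle
    refine ind_limit_finer ez hU (fun _ => ζ') t ζ' τ' ?_ g h hle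
    intro g
    exact ((act ζ' g).continuous.tendsto τ').comp htt
  have hst₂ : stab z₂ x₂ = ⊥ := by
    rw [Subgroup.eq_bot_iff_forall]
    intro g hg
    have h1 : act z₂ g x₂ ≤ act z₂ 1 x₂ := by rw [mem_stab.1 hg]; simp
    have h2 : act z₂ 1 x₂ ≤ act z₂ g x₂ := by rw [mem_stab.1 hg]; simp
    rw [hl₂] at h1 h2
    obtain ⟨j, hj1, hj2⟩ := (h1.and h2).exists
    have h3 : g ∈ stab (ind z x (repOf ez ζ')) (toLex (x, t j)) := by
      rw [mem_stab]
      simpa using le_antisymm hj1 hj2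
    obtain ⟨c, hc, rfl⟩ := (mem_stab_ind ez ζ' (t j) g).1 h3
    rw [ht2, Subgroup.mem_bot] at hc
    rw [hc]; simp
  obtain ⟨e₂⟩ := rank_eq hk W V hVW hz₁ x₁ e₁ hz₂ hf₂ hst₂
  -- survival of `(z₁, x₁)`
  have hsurv : Surv (W.comp V) z₁ x₁ := by
    have hk3 : k = 0 ∨ k = 1 ∨ k = 2 := by omega
    rcases hk3 with rfl | rfl | rfl
    · apply surv_of_stab_bot (allGood_of_map_eq _ hz₁ x₁)
      rw [Subgroup.eq_bot_iff_forall]
      intro g hg
      have h1 : e₁.symm ⟨g, hg⟩ = 1 := Subsingleton.elim _ _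
      have h2 : (⟨g, hg⟩ : stab z₁ x₁) = 1 := by
        rw [← e₁.apply_symm_apply ⟨g, hg⟩, h1, map_one]
      exact congrArg Subtype.val h2
    · apply surv_of_push W V hVW hz₁ x₁ e₁ e₂
      intro Ω' _ ρ
      refine one_id _ _ ?_ Ω' ρ
      intro Ω'' _ ρ'
      exact push_push_id W V hVW _ _ hz₁ rfl x₁ e₂ e₁ Ω'' ρ'
    · refine H Ω₁ z₁ x₁ hf₁z ?_ hz₁ ⟨e₁⟩ ⟨e₂⟩
      intro heq
      obtain ⟨i, hi⟩ := hzero τ'
      have h1 : (ez (FreeGroup.of i) : FreeGroup (Fin n)) ∈ stab z₁ x₁ := by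
        rw [heq]; exact (ez (FreeGroup.of i)).2
      rw [hst₁, mem_stab_ind] at h1
      obtain ⟨c, hc, hce⟩ := h1
      have h2 : c = FreeGroup.of i := ez.injective (Subtype.ext hce)
      rw [h2, mem_stab, act_of_apply] at hc
      exact hi hc
  -- the limit of the bad points
  obtain ⟨Ω₃, _, z₃, x₃, hl₃, htr₃⟩ := exists_limit U (fun _ => Ω ×ₗ ℝ)
    (fun j => ind z x (repOf ez (ζ j))) (fun j => toLex (x, τ j))
  have hf₃ : Finer z₃ x₃ z₁ x₁ := by
    refine Finer.trans ?_ hf₁'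
    intro g h hle
    rw [hl₃] at hle
    exact ind_limit_finer ez hU ζ τ ζ' τ' hlim g h hle
  have hgood₃ : AllGood (W.comp V) z₃ x₃ := hsurv Ω₃ z₃ x₃ hf₃
  have hev : ∀ i : Fin m, ∀ᶠ j in (U : Filter ℕ), (W'.comp V').map ℝ (ζ j) i (τ j) = ζ j i (τ j) := by
    intro i
    obtain ⟨F, hF⟩ := exists_wordWindow (W.comp V) (ez (FreeGroup.of i) : FreeGroup (Fin n))
    filter_upwards [limit_coarse hl₃ F] with j hj
    have h1 := hF _ _ _ _ _ _ hj (act_eq_of_good _ hgood₃ _)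
    rw [good_push_iff W V hz x ez ey (ζ j) (τ j) (ez (FreeGroup.of i)), act_ind_stab,
      repOf_apply, repOf_apply, MulEquiv.symm_apply_apply, act_of, act_of] at h1
    exact congrArg (fun p => (ofLex p).2) h1
  obtain ⟨j, hj⟩ := (Filter.eventually_all.2 hev).exists
  exact hbadj j hj

end exit

end Pool.Agent.Helper9.Hopf
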