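import Pool.Agent.Helper9.Hopf.ClaimR
import Pool.Agent.Helper8.Holland

set_option autoImplicit false

namespace Pool.Agent.Helper9.Hopf

section lattice
variable {Ω : Type} [LinearOrder Ω]

/-- pointwise maximum -/
def supIso (a b : Ω ≃o Ω) : Ω ≃o Ω where
  toFun x := max (a x) (b x)
  invFun x := min (a.symm x) (b.symm x)
  left_inv x := by
    rcases le_total (a x) (b x) with h | h
    · simp only [max_eq_right h, OrderIso.symm_apply_apply]
      exact min_eq_right (by rw [OrderIso.le_symm_apply]; exact h)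
    · simp only [max_eq_left h, OrderIso.symm_apply_apply]
      exact min_eq_left (by rw [OrderIso.le_symm_apply]; exact h)
  right_inv x := by
    rcases le_total (a.symm x) (b.symm x) with h | h
    · simp only [min_eq_left h, OrderIso.apply_symm_apply]
      exact max_eq_left (by rw [← OrderIso.le_symm_apply]; exact h)
    · simp only [min_eq_right h, OrderIso.apply_symm_apply]
      exact max_eq_right (by rw [← OrderIso.le_symm_apply]; exact h)
  map_rel_iff' := by
    intro x y
    constructor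
    · intro h
      by_contra hc
      push Not at hc
      exact absurd h (not_le.2 (max_lt_max ((OrderIso.lt_iff_lt a).2 hc)
        ((OrderIso.lt_iff_lt b).2 hc)))
    · intro h
      exact max_le_max ((OrderIso.le_iff_le a).2 h) ((OrderIso.le_iff_le b).2 h)

/-- pointwise minimum -/
def infIso (a b : Ω ≃o Ω) : Ω ≃o Ω where
  toFun x := min (a x) (b x)
  invFun x := max (a.symm x) (b.symm x)
  left_inv x := by
    rcases le_total (a x) (b x) with h | h
    · simp only [min_eq_left h, OrderIso.symm_apply_apply]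
      exact max_eq_left (by rw [OrderIso.symm_apply_le]; exact h)
    · simp only [min_eq_right h, OrderIso.symm_apply_apply]
      exact max_eq_right (by rw [OrderIso.symm_apply_le]; exact h)
  right_inv x := by
    rcases le_total (a.symm x) (b.symm x) with h | h
    · simp only [max_eq_right h, OrderIso.apply_symm_apply]
      exact min_eq_right (by rw [← OrderIso.symm_apply_le]; exact h)
    · simp only [max_eq_left h, OrderIso.apply_symm_apply]
      exact min_eq_left (by rw [← OrderIso.symm_apply_le]; exact h)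
  map_rel_iff' := by
    intro x y
    constructor
    · intro h
      by_contra hc
      push Not at hc
      exact absurd h (not_le.2 (min_lt_min ((OrderIso.lt_iff_lt a).2 hc)
        ((OrderIso.lt_iff_lt b).2 hc)))
    · intro h
      exact min_le_min ((OrderIso.le_iff_le a).2 h) ((OrderIso.le_iff_le b).2 h)

/-- the lattice of order automorphisms of a chain -/
@[reducible] def autLattice (Ω : Type) [LinearOrder Ω] : Lattice (Ω ≃o Ω) where
  le a b := ∀ x, a x ≤ b x
  le_refl a x := le_rfl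
  le_trans a b c h1 h2 x := (h1 x).trans (h2 x)
  le_antisymm a b h1 h2 := by ext x; exact le_antisymm (h1 x) (h2 x)
  sup := supIso
  le_sup_left a b x := le_max_left _ _
  le_sup_right a b x := le_max_right _ _
  sup_le a b c h1 h2 x := max_le (h1 x) (h2 x)
  inf := infIso
  inf_le_left a b x := min_le_left _ _
  inf_le_right a b x := min_le_right _ _
  le_inf a b c h1 h2 x := le_min (h1 x) (h2 x)

end lattice

/-- the universal property of the free lattice ordered group -/
def IsFreeL {n : ℕ} (F : Type) [Group F] [Lattice F] (x : Fin n → F) : Prop :=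
  ∀ (G : Type) [Group G] [Lattice G] [MulLeftMono G] [MulRightMono G] (g : Fin n → G),
    ∃! φ : F →* G, (∀ a b : F, φ (a ⊔ b) = φ a ⊔ φ b) ∧
      (∀ a b : F, φ (a ⊓ b) = φ a ⊓ φ b) ∧ ∀ i, φ (x i) = g i

theorem gen_top {n : ℕ} {F : Type} [Group F] [Lattice F] [MulLeftMono F] [MulRightMono F]
    {x : Fin n → F} (hF : IsFreeL F x) (L : Subgroup F)
    (hsup : ∀ a b, a ∈ L → b ∈ L → a ⊔ b ∈ L) (hinf : ∀ a b, a ∈ L → b ∈ L → a ⊓ b ∈ L)
    (hx : ∀ i, x i ∈ L) (a : F) : a ∈ L := by
  let _ : Lattice L := Subtype.lattice (fun {_ _} h1 h2 => hsup _ _ h1 h2)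
    (fun {_ _} h1 h2 => hinf _ _ h1 h2)
  have _ : MulLeftMono L := ⟨fun c a b h => by
    have h' : (a : F) ≤ b := h
    show (c : F) * a ≤ c * b
    exact mul_le_mul_right h' _⟩
  have _ : MulRightMono L := ⟨fun c a b h => by
    have h' : (a : F) ≤ b := h
    show (a : F) * c ≤ b * c
    exact mul_le_mul_left h' _⟩
  obtain ⟨φ, ⟨h1, h2, h3⟩, -⟩ := hF L (fun i => ⟨x i, hx i⟩)
  obtain ⟨w, -, huniq⟩ := hF F x
  have e1 := huniq (MonoidHom.id F) ⟨fun _ _ => rfl, fun _ _ => rfl, fun _ => rfl⟩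
  have e2 := huniq (L.subtype.comp φ) ⟨fun a b => by
      show ((φ (a ⊔ b) : L) : F) = _
      rw [h1]; rfl, fun a b => by
      show ((φ (a ⊓ b) : L) : F) = _
      rw [h2]; rfl, fun i => by
      show ((φ (x i) : L) : F) = _
      rw [h3]⟩
  have h4 : (MonoidHom.id F) a = (L.subtype.comp φ) a := by rw [e1, e2]
  have h5 : a = ((φ a : L) : F) := h4
  rw [h5]; exact (φ a).2

theorem isLoc_sup {n : ℕ} {f h : ∀ (Ω : Type) [LinearOrder Ω], (Fin n → (Ω ≃o Ω)) → Ω → Ω}
    (hf : IsLoc f) (hh : IsLoc h) :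
    IsLoc (fun Ω [LinearOrder Ω] z x => max (f Ω z x) (h Ω z x)) := by
  classical
  obtain ⟨F, hF⟩ := hf
  obtain ⟨H, hH⟩ := hh
  refine ⟨F ∪ H, ?_⟩
  intro Ω Ω' _ _ z z' x x' hc
  obtain ⟨a, ha, ha1, ha2⟩ := hF Ω Ω' z z' x x' (hc.mono Finset.subset_union_left)
  obtain ⟨b, hb, hb1, hb2⟩ := hH Ω Ω' z z' x x' (hc.mono Finset.subset_union_right)
  have ha' := Finset.mem_union_left H ha
  have hb' := Finset.mem_union_right F hb
  rcases le_total (act z a x) (act z b x) with hle | hle
  · have hle' := hc a ha' b hb' hle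
    refine ⟨b, hb', ?_, ?_⟩
    · simp only [ha1, hb1, max_eq_right hle]
    · simp only [ha2, hb2, max_eq_right hle']
  · have hle' := hc b hb' a ha' hle
    refine ⟨a, ha', ?_, ?_⟩
    · simp only [ha1, hb1, max_eq_left hle]
    · simp only [ha2, hb2, max_eq_left hle']

theorem isLoc_inf {n : ℕ} {f h : ∀ (Ω : Type) [LinearOrder Ω], (Fin n → (Ω ≃o Ω)) → Ω → Ω}
    (hf : IsLoc f) (hh : IsLoc h) :
    IsLoc (fun Ω [LinearOrder Ω] z x => min (f Ω z x) (h Ω z x)) := by
  classical
  obtain ⟨F, hF⟩ := hf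
  obtain ⟨H, hH⟩ := hh
  refine ⟨F ∪ H, ?_⟩
  intro Ω Ω' _ _ z z' x x' hc
  obtain ⟨a, ha, ha1, ha2⟩ := hF Ω Ω' z z' x x' (hc.mono Finset.subset_union_left)
  obtain ⟨b, hb, hb1, hb2⟩ := hH Ω Ω' z z' x x' (hc.mono Finset.subset_union_right)
  have ha' := Finset.mem_union_left H ha
  have hb' := Finset.mem_union_right F hb
  rcases le_total (act z a x) (act z b x) with hle | hle
  · have hle' := hc a ha' b hb' hle
    refine ⟨a, ha', ?_, ?_⟩
    · simp only [ha1, hb1, min_eq_left hle]
    · simp only [ha2, hb2, min_eq_left hle']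
  · have hle' := hc b hb' a ha' hle
    refine ⟨b, hb', ?_, ?_⟩
    · simp only [ha1, hb1, min_eq_right hle]
    · simp only [ha2, hb2, min_eq_right hle']

theorem hopfian_of_isFreeL {n : ℕ} (hn : 2 ≤ n) {F : Type} [Group F] [Lattice F] [MulLeftMono F]
    [MulRightMono F] {x : Fin n → F} (hF : IsFreeL F x) (ψ : F →* F)
    (hsup : ∀ a b : F, ψ (a ⊔ b) = ψ a ⊔ ψ b) (hinf : ∀ a b : F, ψ (a ⊓ b) = ψ a ⊓ ψ b)
    (hsurj : Function.Surjective ψ) : Function.Injective ψ := by
  classical
  -- the evaluation homomorphisms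
  have hev : ∀ (Ω : Type) (_ : LinearOrder Ω) (z : Fin n → (Ω ≃o Ω)),
      ∃ φ : F →* (Ω ≃o Ω), ((∀ a b w, φ (a ⊔ b) w = max (φ a w) (φ b w)) ∧
      (∀ a b w, φ (a ⊓ b) w = min (φ a w) (φ b w)) ∧ ∀ i, φ (x i) = z i) ∧
      ∀ φ' : F →* (Ω ≃o Ω), (∀ a b w, φ' (a ⊔ b) w = max (φ' a w) (φ' b w)) →
      (∀ a b w, φ' (a ⊓ b) w = min (φ' a w) (φ' b w)) → (∀ i, φ' (x i) = z i) → φ' = φ := by
    intro Ω _ z
    let _ : Lattice (Ω ≃o Ω) := autLattice Ω
    have _ : MulLeftMono (Ω ≃o Ω) := ⟨fun c a b h w => (OrderIso.le_iff_le c).2 (h w)⟩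
    have _ : MulRightMono (Ω ≃o Ω) := ⟨fun c a b h w => h (c w)⟩
    obtain ⟨φ, ⟨h1, h2, h3⟩, h4⟩ := hF (Ω ≃o Ω) z
    refine ⟨φ, ⟨?_, ?_, h3⟩, ?_⟩
    · intro a b w; rw [h1]; rfl
    · intro a b w; rw [h2]; rfl
    · intro φ' h5 h6 h7
      apply h4
      refine ⟨fun a b => ?_, fun a b => ?_, h7⟩
      · ext w; exact h5 a b w
      · ext w; exact h6 a b w
  choose φ hφ huniq using hev
  have hloc : ∀ a : F, IsLoc (fun Ω [inst : LinearOrder Ω] z w => φ Ω inst z a w) := by
    intro a
    let L : Subgroup F :=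
      { carrier := {a | IsLoc (fun Ω [inst : LinearOrder Ω] z w => φ Ω inst z a w)}
        mul_mem' := by
          intro a b ha hb
          show IsLoc (fun Ω [inst : LinearOrder Ω] z w => φ Ω inst z (a * b) w)
          have := IsLoc.comp ha hb
          simpa only [map_mul, RelIso.mul_apply] using this
        one_mem' := by
          show IsLoc (fun Ω [inst : LinearOrder Ω] z w => φ Ω inst z 1 w)
          simpa only [map_one, RelIso.one_apply] using isLoc_act (n := n) 1
        inv_mem' := by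
          intro a ha
          show IsLoc (fun Ω [inst : LinearOrder Ω] z w => φ Ω inst z a⁻¹ w)
          have := isLoc_symm (f := fun Ω [inst : LinearOrder Ω] z => φ Ω inst z a) ha
          simp only [map_inv]
          exact this }
    refine gen_top hF L ?_ ?_ ?_ a
    · intro a b ha hb
      show IsLoc (fun Ω [inst : LinearOrder Ω] z w => φ Ω inst z (a ⊔ b) w)
      have := isLoc_sup ha hb
      simp only [(hφ _ _ _).1]
      exact this
    · intro a b ha hb
      show IsLoc (fun Ω [inst : LinearOrder Ω] z w => φ Ω inst z (a ⊓ b) w)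
      have := isLoc_inf ha hb
      simp only [(hφ _ _ _).2.1]
      exact this
    · intro i
      show IsLoc (fun Ω [inst : LinearOrder Ω] z w => φ Ω inst z (x i) w)
      simp only [(hφ _ _ _).2.2]
      simpa using isLoc_act (FreeGroup.of i)
  choose v hv using fun i => hsurj (x i)
  let W : LocFam n n :=
    { map := fun Ω _ z i => φ Ω _ z (ψ (x i))
      loc := fun i => hloc (ψ (x i)) }
  let V : LocFam n n :=
    { map := fun Ω _ z i => φ Ω _ z (v i)
      loc := fun i => hloc (v i) }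
  have hcomp : ∀ (Ω : Type) (inst : LinearOrder Ω) (z : Fin n → (Ω ≃o Ω)),
      (φ Ω inst z).comp ψ = φ Ω inst (W.map Ω z) := by
    intro Ω inst z
    apply huniq
    · intro a b w
      show φ Ω inst z (ψ (a ⊔ b)) w = _
      rw [hsup, (hφ _ _ _).1]; rfl
    · intro a b w
      show φ Ω inst z (ψ (a ⊓ b)) w = _
      rw [hinf, (hφ _ _ _).2.1]; rfl
    · intro i; rfl
  have hVW : ∀ (Ω : Type) [LinearOrder Ω] (z : Fin n → (Ω ≃o Ω)),
      V.map Ω (W.map Ω z) = z := by
    intro Ω inst z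
    funext i
    show φ Ω inst (W.map Ω z) (v i) = z i
    rw [← hcomp]
    show φ Ω inst z (ψ (v i)) = z i
    rw [hv, (hφ _ _ _).2.2]
  have hWV := pair_id hn W V hVW
  rw [injective_iff_map_eq_one]
  intro a ha
  by_contra hne
  obtain ⟨Ω, inst, θ, h1, h2, w, hw⟩ := Pool.Agent.Helper8.Holland.holland F a hne
  have hθ : θ = φ Ω inst (fun i => θ (x i)) := huniq _ _ _ _ h1 h2 (fun _ => rfl)
  have h3 : φ Ω inst (fun i => θ (x i)) =
      (φ Ω inst (V.map Ω (fun i => θ (x i)))).comp ψ := by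
    rw [hcomp, hWV]
  apply hw
  rw [hθ, h3]
  show φ Ω inst _ (ψ a) w = w
  rw [ha, map_one]; rfl

end Pool.Agent.Helper9.Hopf
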