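import Pool.Agent.Helper9.Hopf.Skew

set_option autoImplicit false

namespace Pool.Agent.Helper9.Hopf

section push
variable {n : ℕ} {Ω : Type} [LinearOrder Ω]

/-- representation of the stabiliser from a tuple -/
def repOf {m : ℕ} {y : Fin n → (Ω ≃o Ω)} {x : Ω}
    (ey : FreeGroup (Fin m) ≃* stab y x) {Ω' : Type} [LinearOrder Ω']
    (ρ : Fin m → (Ω' ≃o Ω')) : stab y x →* (Ω' ≃o Ω') :=
  (act ρ).comp ey.symm.toMonoidHom

theorem repOf_apply {m : ℕ} {y : Fin n → (Ω ≃o Ω)} {x : Ω}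
    (ey : FreeGroup (Fin m) ≃* stab y x) {Ω' : Type} [LinearOrder Ω']
    (ρ : Fin m → (Ω' ≃o Ω')) (c : stab y x) : repOf ey ρ c = act ρ (ey.symm c) := rfl

/-- the local family induced on stabilisers -/
noncomputable def push {m m' : ℕ} (W : LocFam n n) (y z : Fin n → (Ω ≃o Ω))
    (h : W.map Ω y = z) (x : Ω) (ey : FreeGroup (Fin m) ≃* stab y x)
    (ez : FreeGroup (Fin m') ≃* stab z x) : LocFam m m' where
  map Ω' _ ρ := fun i => hol ((covers_ind y x (repOf ey ρ)).map' W h) x (ez (FreeGroup.of i))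
  loc i := by
    classical
    subst h
    obtain ⟨F, hF⟩ := W.loc_word (ez (FreeGroup.of i) : FreeGroup (Fin n))
    let q : FreeGroup (Fin n) → FreeGroup (Fin m) := fun g =>
      if hg : g ∈ stab y x then ey.symm ⟨g, hg⟩ else 1
    have hq : ∀ g (hg : g ∈ stab y x), q g = ey.symm ⟨g, hg⟩ := fun g hg => by simp [q, hg]
    refine ⟨insert 1 (F.image q ∪ (F ×ˢ F).image (fun p => q (p.2⁻¹ * p.1))), ?_⟩
    intro Ω' Ω'' _ _ ρ ρ' w w' hc
    have hc' : Coarse F (ind y x (repOf ey ρ)) (toLex (x, w)) (ind y x (repOf ey ρ'))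
        (toLex (x, w')) := by
      apply (covers_ind y x (repOf ey ρ)).coarse (covers_ind y x (repOf ey ρ'))
      intro g hg k hk hst hle
      rw [hol_ind, repOf_apply] at hle ⊢
      rw [← hq _ hst] at hle ⊢
      have := hc (q (k⁻¹ * g)) (Finset.mem_insert_of_mem (Finset.mem_union_right _
        (Finset.mem_image.2 ⟨(g, k), by simp [hg, hk], rfl⟩))) 1 (Finset.mem_insert_self _ _)
      simp only [act_one] at this
      exact this hle
    obtain ⟨g, hgF, h1, h2⟩ := hF _ _ _ _ _ _ hc'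
    simp only at h1 h2
    have e1 := act_hol ((covers_ind y x (repOf ey ρ)).map W) x w (ez (FreeGroup.of i))
    have e2 := act_hol ((covers_ind y x (repOf ey ρ')).map W) x w' (ez (FreeGroup.of i))
    rw [h1] at e1
    rw [h2] at e2
    have hg : g ∈ stab y x := by
      have := (covers_ind y x (repOf ey ρ)).act g (toLex (x, w))
      rw [e1] at this
      exact this.symm
    rw [act_hol' (covers_ind y x (repOf ey ρ)) x w hg, hol_ind, repOf_apply] at e1
    rw [act_hol' (covers_ind y x (repOf ey ρ')) x w' hg, hol_ind, repOf_apply] at e2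
    refine ⟨q g, ?_, ?_, ?_⟩
    · exact Finset.mem_insert_of_mem (Finset.mem_union_left _ (Finset.mem_image.2 ⟨g, hgF, rfl⟩))
    · rw [hq g hg]
      exact (congrArg (fun p => (ofLex p).2) e1).symm
    · rw [hq g hg]
      exact (congrArg (fun p => (ofLex p).2) e2).symm

theorem push_map {m m' : ℕ} (W : LocFam n n) (y z : Fin n → (Ω ≃o Ω))
    (h : W.map Ω y = z) (x : Ω) (ey : FreeGroup (Fin m) ≃* stab y x)
    (ez : FreeGroup (Fin m') ≃* stab z x) (Ω' : Type) [LinearOrder Ω'] (ρ : Fin m → (Ω' ≃o Ω'))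
    (i : Fin m') : (push W y z h x ey ez).map Ω' ρ i =
      hol ((covers_ind y x (repOf ey ρ)).map' W h) x (ez (FreeGroup.of i)) := rfl

theorem act_push {m m' : ℕ} (W : LocFam n n) (y z : Fin n → (Ω ≃o Ω))
    (h : W.map Ω y = z) (x : Ω) (ey : FreeGroup (Fin m) ≃* stab y x)
    (ez : FreeGroup (Fin m') ≃* stab z x) (Ω' : Type) [LinearOrder Ω'] (ρ : Fin m → (Ω' ≃o Ω'))
    (c : FreeGroup (Fin m')) : act ((push W y z h x ey ez).map Ω' ρ) c =
      hol ((covers_ind y x (repOf ey ρ)).map' W h) x (ez c) := by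
  have : act ((push W y z h x ey ez).map Ω' ρ) =
      (hol ((covers_ind y x (repOf ey ρ)).map' W h) x).comp ez.toMonoidHom := by
    apply FreeGroup.ext_hom
    intro i
    rw [act_of, push_map]; rfl
  rw [this]; rfl

theorem repOf_push {m m' : ℕ} (W : LocFam n n) (y z : Fin n → (Ω ≃o Ω))
    (h : W.map Ω y = z) (x : Ω) (ey : FreeGroup (Fin m) ≃* stab y x)
    (ez : FreeGroup (Fin m') ≃* stab z x) (Ω' : Type) [LinearOrder Ω'] (ρ : Fin m → (Ω' ≃o Ω'))
    (c : stab z x) : repOf ez ((push W y z h x ey ez).map Ω' ρ) c =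
      hol ((covers_ind y x (repOf ey ρ)).map' W h) x c := by
  rw [repOf_apply, act_push]; simp

/-- general composition formula: holonomy of a composite -/
theorem push_push_eq {m m' m'' : ℕ} (W V : LocFam n n) (y z t : Fin n → (Ω ≃o Ω))
    (h : W.map Ω y = z) (h' : V.map Ω z = t) (x : Ω) (ey : FreeGroup (Fin m) ≃* stab y x)
    (ez : FreeGroup (Fin m') ≃* stab z x) (et : FreeGroup (Fin m'') ≃* stab t x)
    (Ω' : Type) [LinearOrder Ω'] (ρ : Fin m → (Ω' ≃o Ω')) (c : stab t x) :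
    repOf et ((push V z t h' x ez et).map Ω' ((push W y z h x ey ez).map Ω' ρ)) c =
      hol (((covers_ind y x (repOf ey ρ)).map' W h).map' V h') x c := by
  rw [repOf_push]
  refine hol_map_congr (covers_ind z x _) ((covers_ind y x (repOf ey ρ)).map' W h) x
    (fun d => ?_) V h' c
  rw [hol_ind, repOf_push]

/-- the pair on stabilisers is again a retraction pair -/
theorem push_push_id {m m' : ℕ} (W V : LocFam n n)
    (hVW : ∀ (Ω : Type) [LinearOrder Ω] (z : Fin n → (Ω ≃o Ω)), V.map Ω (W.map Ω z) = z)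
    (y z : Fin n → (Ω ≃o Ω))
    (h : W.map Ω y = z) (h' : V.map Ω z = y) (x : Ω) (ey : FreeGroup (Fin m) ≃* stab y x)
    (ez : FreeGroup (Fin m') ≃* stab z x)
    (Ω' : Type) [LinearOrder Ω'] (ρ : Fin m → (Ω' ≃o Ω')) :
    (push V z y h' x ez ey).map Ω' ((push W y z h x ey ez).map Ω' ρ) = ρ := by
  funext i
  have h1 := push_push_eq W V y z y h h' x ey ez ey Ω' ρ (ey (FreeGroup.of i))
  rw [repOf_apply, MulEquiv.symm_apply_apply, act_of] at h1
  rw [h1]
  have h2 : ∀ (u : Fin n → ((Ω ×ₗ Ω') ≃o (Ω ×ₗ Ω'))) (hu : Covers u y),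
      u = ind y x (repOf ey ρ) → hol hu x (ey (FreeGroup.of i)) = ρ i := by
    intro u hu he
    subst he
    rw [hol_ind, repOf_apply]; simp
  exact h2 _ _ (hVW _ _)

/-- fixed lemma: if `R` preserves the holonomy of the induced action then everything is good. -/
theorem allGood_ind (R : LocFam n n)
    (hR : ∀ (Ω : Type) [LinearOrder Ω] (z : Fin n → (Ω ≃o Ω)), R.map Ω (R.map Ω z) = R.map Ω z)
    {z : Fin n → (Ω ≃o Ω)} (hz : R.map Ω z = z) (x : Ω) {Ω' : Type} [LinearOrder Ω']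
    (ρ : stab z x →* (Ω' ≃o Ω')) (w : Ω')
    (hh : ∀ c, hol ((covers_ind z x ρ).map' R hz) x c = ρ c) :
    AllGood R (ind z x ρ) (toLex (x, w)) := by
  have h1 : AllGood R (R.map _ (ind z x ρ)) (toLex (x, w)) :=
    allGood_of_map_eq R (hR _ _) _
  refine h1.of_finer (Covers.finer_of_hol ((covers_ind z x ρ).map' R hz) (covers_ind z x ρ)
    x w w ?_)
  intro c hc
  rw [hol_ind]
  rw [hh] at hc
  exact hc

/-- any refinement of `(z, x)` has the pattern of an induced action -/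
theorem Finer.ind_finer {z : Fin n → (Ω ≃o Ω)} {x : Ω} {Ω' : Type} [LinearOrder Ω']
    {z' : Fin n → (Ω' ≃o Ω')} {x' : Ω'} (h : Finer z' x' z x) :
    Finer (ind z x ((act z').comp (stab z x).subtype)) (toLex (x, x')) z' x' := by
  intro g k hle
  rw [(covers_ind z x _).le_iff] at hle
  rcases hle with h1 | ⟨hc, h1⟩
  · exact (h.lt h1).le
  · rw [hol_ind] at h1
    have h2 : act z' (k⁻¹ * g) x' ≤ x' := h1
    rwa [act_le_act_iff]

/-- surviving from the local pair -/
theorem surv_of_hol (R : LocFam n n)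
    (hR : ∀ (Ω : Type) [LinearOrder Ω] (z : Fin n → (Ω ≃o Ω)), R.map Ω (R.map Ω z) = R.map Ω z)
    {z : Fin n → (Ω ≃o Ω)} (hz : R.map Ω z = z) (x : Ω)
    (hh : ∀ (Ω' : Type) [LinearOrder Ω'] (ρ : stab z x →* (Ω' ≃o Ω')),
      ∀ c, hol ((covers_ind z x ρ).map' R hz) x c = ρ c) : Surv R z x := by
  intro Ω' _ z' x' hf
  exact (allGood_ind R hR hz x _ x' (hh Ω' _)).of_finer hf.ind_finer

end push

end Pool.Agent.Helper9.Hopf
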