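import Pool.Agent.Helper9.Hopf.Basic

set_option autoImplicit false

namespace Pool.Agent.Helper9.Hopf

/-- stabiliser of a point -/
def stab {n : ℕ} {Ω : Type} [LinearOrder Ω] (z : Fin n → (Ω ≃o Ω)) (x : Ω) :
    Subgroup (FreeGroup (Fin n)) where
  carrier := {g | act z g x = x}
  mul_mem' := by
    intro a b ha hb
    simp only [Set.mem_ofPred_eq] at ha hb ⊢
    rw [act_mul, hb, ha]
  one_mem' := by simp
  inv_mem' := by
    intro a ha
    simp only [Set.mem_ofPred_eq] at ha ⊢
    conv_lhs => rw [← ha]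
    simp

section defs
variable {n : ℕ} {Ω Ω' Ω'' : Type} [LinearOrder Ω] [LinearOrder Ω'] [LinearOrder Ω'']
  {z : Fin n → (Ω ≃o Ω)} {x : Ω} {z' : Fin n → (Ω' ≃o Ω')} {x' : Ω'}
  {z'' : Fin n → (Ω'' ≃o Ω'')} {x'' : Ω''}

theorem mem_stab {g : FreeGroup (Fin n)} : g ∈ stab z x ↔ act z g x = x := Iff.rfl

theorem inv_mul_mem_stab {g h : FreeGroup (Fin n)} :
    h⁻¹ * g ∈ stab z x ↔ act z g x = act z h x := by
  rw [mem_stab, act_mul]
  constructor
  · intro h1
    have := congrArg (act z h) h1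
    simpa using this
  · intro h1; rw [h1]; simp

/-- the pattern of `(z, x)` is finer than the pattern of `(z', x')`. -/
def Finer {n : ℕ} {Ω Ω' : Type} [LinearOrder Ω] [LinearOrder Ω']
    (z : Fin n → (Ω ≃o Ω)) (x : Ω) (z' : Fin n → (Ω' ≃o Ω')) (x' : Ω') : Prop :=
  ∀ g h, act z g x ≤ act z h x → act z' g x' ≤ act z' h x'

theorem Finer.refl (z : Fin n → (Ω ≃o Ω)) (x : Ω) : Finer z x z x := fun _ _ h => h

theorem Finer.trans (h : Finer z x z' x') (h' : Finer z' x' z'' x'') : Finer z x z'' x'' :=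
  fun g k hk => h' g k (h g k hk)

theorem Finer.coarse (h : Finer z x z' x') (F : Finset (FreeGroup (Fin n))) :
    Coarse F z x z' x' := fun g _ k _ hk => h g k hk

theorem Finer.translate (h : Finer z x z' x') (c : FreeGroup (Fin n)) :
    Finer z (act z c x) z' (act z' c x') := by
  intro g k hk
  rw [← act_mul, ← act_mul] at hk ⊢
  exact h _ _ hk

theorem Finer.eq (h : Finer z x z' x') {g k : FreeGroup (Fin n)} (he : act z g x = act z k x) :
    act z' g x' = act z' k x' :=
  le_antisymm (h g k he.le) (h k g he.ge)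

theorem Finer.lt (h : Finer z x z' x') {g k : FreeGroup (Fin n)} (he : act z' g x' < act z' k x') :
    act z g x < act z k x := by
  by_contra hc
  exact absurd (h k g (not_lt.1 hc)) (not_le.2 he)

theorem Finer.stab_le (h : Finer z x z' x') : stab z x ≤ stab z' x' := by
  intro g hg
  have : act z g x = act z 1 x := by simpa [mem_stab] using hg
  simpa [mem_stab] using h.eq this

/-- all points of the orbit of `x` are good -/
def AllGood {n : ℕ} (R : LocFam n n) {Ω : Type} [LinearOrder Ω] (z : Fin n → (Ω ≃o Ω)) (x : Ω) :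
    Prop := ∀ g, Good R z (act z g x)

theorem AllGood.of_finer {R : LocFam n n} (h : AllGood R z x) (hf : Finer z x z' x') :
    AllGood R z' x' := by
  obtain ⟨F, hF⟩ := exists_goodWindow R
  intro g
  exact hF Ω Ω' z z' _ _ ((hf.translate g).coarse F) (h g)

/-- every refinement of the pattern of `(z, x)` is all good. -/
def Surv {n : ℕ} (R : LocFam n n) {Ω : Type} [LinearOrder Ω] (z : Fin n → (Ω ≃o Ω)) (x : Ω) :
    Prop := ∀ (Ω' : Type) [LinearOrder Ω'] (z' : Fin n → (Ω' ≃o Ω')) (x' : Ω'),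
      Finer z' x' z x → AllGood R z' x'

end defs

/-- A left invariant total preorder on the free group is realised by a transitive chain. -/
theorem exists_chain {n : ℕ} (r : FreeGroup (Fin n) → FreeGroup (Fin n) → Prop)
    (htot : ∀ a b, r a b ∨ r b a) (htr : ∀ a b c, r a b → r b c → r a c)
    (hinv : ∀ k a b, r a b → r (k * a) (k * b)) :
    ∃ (Ω : Type) (_ : LinearOrder Ω) (z : Fin n → (Ω ≃o Ω)) (x : Ω),
      (∀ g h, act z g x ≤ act z h x ↔ r g h) ∧ ∀ v, ∃ g, act z g x = v := by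
  classical
  let P : Preorder (FreeGroup (Fin n)) :=
    { le := r
      le_refl := fun a => (htot a a).elim id id
      le_trans := htr }
  let _ := P
  have _ : Std.Total (α := FreeGroup (Fin n)) (· ≤ ·) := ⟨htot⟩
  let Ω := Antisymmetrization (FreeGroup (Fin n)) (· ≤ ·)
  let L : LinearOrder Ω := inferInstance
  have hmono : ∀ k : FreeGroup (Fin n), Monotone (fun a : FreeGroup (Fin n) => k * a) :=
    fun k a b hab => hinv k a b hab
  let M : FreeGroup (Fin n) → (Ω →o Ω) := fun k => OrderHom.antisymmetrization ⟨_, hmono k⟩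
  let p : FreeGroup (Fin n) → Ω := toAntisymmetrization (· ≤ ·)
  have hM : ∀ k a, M k (p a) = p (k * a) := fun k a => rfl
  have hp : ∀ v : Ω, ∃ a, p a = v := fun v => ⟨ofAntisymmetrization (· ≤ ·) v,
    toAntisymmetrization_ofAntisymmetrization _ v⟩
  have hinv1 : ∀ k v, M k⁻¹ (M k v) = v := by
    intro k v
    obtain ⟨a, rfl⟩ := hp v
    rw [hM, hM, inv_mul_cancel_left]
  have hinv2 : ∀ k v, M k (M k⁻¹ v) = v := by
    intro k v
    obtain ⟨a, rfl⟩ := hp v
    rw [hM, hM, mul_inv_cancel_left]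
  let z : Fin n → (Ω ≃o Ω) := fun i =>
    { toFun := M (FreeGroup.of i)
      invFun := M (FreeGroup.of i)⁻¹
      left_inv := hinv1 _
      right_inv := hinv2 _
      map_rel_iff' := by
        intro v w
        constructor
        · intro h
          have := (M (FreeGroup.of i)⁻¹).monotone h
          simpa [hinv1] using this
        · intro h
          exact (M (FreeGroup.of i)).monotone h }
  have hact : ∀ g a, act z g (p a) = p (g * a) := by
    intro g
    induction g using freeGroup_induction_left with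
    | h1 => intro a; simp
    | hof i g ih =>
      intro a
      rw [act_mul, ih, act_of_apply, mul_assoc]
      exact hM _ _
    | hinv i g ih =>
      intro a
      rw [act_mul, ih, act_inv_of, mul_assoc]
      exact hM _ _
  refine ⟨Ω, L, z, p 1, ?_, ?_⟩
  · intro g h
    rw [hact, hact, mul_one, mul_one]
    exact toAntisymmetrization_le_toAntisymmetrization_iff
  · intro v
    obtain ⟨a, rfl⟩ := hp v
    exact ⟨a, by rw [hact, mul_one]⟩

/-- Limits of pointed chains along an ultrafilter. -/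
theorem exists_limit {n : ℕ} (U : Ultrafilter ℕ) (Ω : ℕ → Type) [∀ j, LinearOrder (Ω j)]
    (z : ∀ j, Fin n → (Ω j ≃o Ω j)) (x : ∀ j, Ω j) :
    ∃ (Ω' : Type) (_ : LinearOrder Ω') (z' : Fin n → (Ω' ≃o Ω')) (x' : Ω'),
      (∀ g h, act z' g x' ≤ act z' h x' ↔ ∀ᶠ j in (U : Filter ℕ),
        act (z j) g (x j) ≤ act (z j) h (x j)) ∧ ∀ v, ∃ g, act z' g x' = v := by
  refine exists_chain (fun g h => ∀ᶠ j in (U : Filter ℕ),
        act (z j) g (x j) ≤ act (z j) h (x j)) ?_ ?_ ?_
  · intro a b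
    rw [← Ultrafilter.eventually_or]
    exact Filter.Eventually.of_forall fun j => le_total _ _
  · intro a b c h1 h2
    filter_upwards [h1, h2] with j h3 h4 using h3.trans h4
  · intro k a b h
    filter_upwards [h] with j hj
    rw [act_mul, act_mul]
    exact (act_le_iff _ _ _ _).2 hj

/-- The orbit of a point is a transitive chain. -/
theorem exists_orbit {n : ℕ} {Ω : Type} [LinearOrder Ω] (z : Fin n → (Ω ≃o Ω)) (x : Ω) :
    ∃ (Ω' : Type) (_ : LinearOrder Ω') (z' : Fin n → (Ω' ≃o Ω')) (x' : Ω'),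
      Finer z' x' z x ∧ Finer z x z' x' ∧ ∀ v, ∃ g, act z' g x' = v := by
  obtain ⟨Ω', hL, z', x', h1, h2⟩ := exists_chain (fun g h => act z g x ≤ act z h x)
    (fun a b => le_total _ _) (fun a b c h1 h2 => h1.trans h2) (fun k a b h => by
      rw [act_mul, act_mul]; exact (act_le_iff _ _ _ _).2 h)
  exact ⟨Ω', hL, z', x', fun g h => (h1 g h).1, fun g h => (h1 g h).2, h2⟩

theorem map_eq_of_allGood {n : ℕ} (R : LocFam n n) {Ω : Type} [LinearOrder Ω]
    {z : Fin n → (Ω ≃o Ω)} {x : Ω} (ht : ∀ v, ∃ g, act z g x = v) (h : AllGood R z x) :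
    R.map Ω z = z := by
  apply map_eq_of_good
  intro v
  obtain ⟨g, rfl⟩ := ht v
  exact h g

theorem allGood_of_map_eq {n : ℕ} (R : LocFam n n) {Ω : Type} [LinearOrder Ω]
    {z : Fin n → (Ω ≃o Ω)} (h : R.map Ω z = z) (x : Ω) : AllGood R z x :=
  fun g => good_of_map_eq R h _

theorem Surv.of_finer {n : ℕ} {R : LocFam n n} {Ω Ω' : Type} [LinearOrder Ω] [LinearOrder Ω']
    {z : Fin n → (Ω ≃o Ω)} {x : Ω} {z' : Fin n → (Ω' ≃o Ω')} {x' : Ω'}
    (h : Surv R z x) (hf : Finer z' x' z x) : Surv R z' x' :=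
  fun _ _ z₁ x₁ h₁ => h _ z₁ x₁ (h₁.trans hf)

/-- finer with trivial stabiliser: equality of patterns -/
theorem Finer.of_stab_bot {n : ℕ} {Ω Ω' : Type} [LinearOrder Ω] [LinearOrder Ω']
    {z : Fin n → (Ω ≃o Ω)} {x : Ω} {z' : Fin n → (Ω' ≃o Ω')} {x' : Ω'}
    (hf : Finer z' x' z x) (h : stab z x = ⊥) : Finer z x z' x' := by
  intro g k hle
  rcases hle.lt_or_eq with hlt | heq
  · exact (hf.lt hlt).le
  · have : k⁻¹ * g ∈ stab z x := inv_mul_mem_stab.2 heq
    rw [h, Subgroup.mem_bot] at this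
    rw [inv_mul_eq_one] at this
    rw [this]

theorem surv_of_stab_bot {n : ℕ} {R : LocFam n n} {Ω : Type} [LinearOrder Ω]
    {z : Fin n → (Ω ≃o Ω)} {x : Ω} (h : AllGood R z x) (hs : stab z x = ⊥) : Surv R z x :=
  fun _ _ _ _ hf => h.of_finer (hf.of_stab_bot hs)

end Pool.Agent.Helper9.Hopf
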