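import Pool.Agent.Helper9.Hopf.Local

set_option autoImplicit false

namespace Pool.Agent.Helper9.Hopf

/-- translations -/
def trans : Multiplicative ℝ →* (ℝ ≃o ℝ) where
  toFun r := OrderIso.addRight r.toAdd
  map_one' := by ext x; simp
  map_mul' a b := by
    ext x
    simp only [toAdd_mul, OrderIso.addRight_apply, RelIso.mul_apply]
    ring

@[simp] theorem trans_apply (r : Multiplicative ℝ) (x : ℝ) : trans r x = x + r.toAdd := rfl

theorem exists_lin_indep (k : ℕ) : ∃ r : Fin k → ℝ, LinearIndependent ℚ r := by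
  have h : (k : Cardinal) ≤ Module.rank ℚ ℝ := by
    rw [Real.rank_rat_real]
    exact (Cardinal.natCast_lt_aleph0.trans Cardinal.aleph0_lt_continuum).le
  have h2 := le_rank_iff_exists_linearIndependent_finset.1 h
  obtain ⟨s, hs, hli⟩ := h2
  let e : Fin k ≃ s := (Fintype.equivFinOfCardEq (by simpa using hs)).symm
  exact ⟨fun i => (e i : ℝ), hli.comp e e.injective⟩

section rank
variable {n : ℕ} {Ω : Type} [LinearOrder Ω]

theorem exists_mem_stab_of_loc (W : LocFam n n) {y z : Fin n → (Ω ≃o Ω)}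
    (hW : W.map Ω y = z) {x : Ω} {Ω₂ : Type} [LinearOrder Ω₂] {y₂ z₂ : Fin n → (Ω₂ ≃o Ω₂)}
    {x₂ : Ω₂} (hW₂ : W.map Ω₂ y₂ = z₂) (hf : Finer y₂ x₂ y x) {c : FreeGroup (Fin n)}
    (hc : c ∈ stab z x) : ∃ g ∈ stab y x, act z₂ c x₂ = act y₂ g x₂ := by
  obtain ⟨F, hF⟩ := W.loc_word c
  obtain ⟨g, -, h1, h2⟩ := hF _ _ _ _ _ _ (hf.coarse F)
  simp only at h1 h2
  rw [hW₂] at h1
  rw [hW] at h2
  exact ⟨g, by rw [mem_stab, ← h2]; exact hc, h1⟩

theorem Finer.map {n m : ℕ} {Ω Ω' : Type} [LinearOrder Ω] [LinearOrder Ω']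
    {z : Fin n → (Ω ≃o Ω)} {x : Ω} {z' : Fin n → (Ω' ≃o Ω')} {x' : Ω'}
    (hf : Finer z x z' x') (W : LocFam n m) : Finer (W.map _ z) x (W.map _ z') x' := by
  classical
  intro g h hle
  obtain ⟨F, hF⟩ := W.coarse {g, h}
  exact hF _ _ _ _ _ _ (hf.coarse F) g (by simp) h (by simp) hle

/-- the rank of the stabiliser of `y = V z` is at most the rank of the one of `z`. -/
theorem rank_le {k : ℕ} (W V : LocFam n n)
    (hVW : ∀ (Ω : Type) [LinearOrder Ω] (z : Fin n → (Ω ≃o Ω)), V.map Ω (W.map Ω z) = z)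
    {y z : Fin n → (Ω ≃o Ω)} (h : W.map Ω y = z) (h' : V.map Ω z = y) (x : Ω)
    (ez : FreeGroup (Fin k) ≃* stab z x) :
    ∃ l, l ≤ k ∧ Nonempty (FreeGroup (Fin l) ≃* stab y x) := by
  classical
  -- generators
  set ι := IsFreeGroup.Generators (stab y x) with hι
  have hno : ∀ e : Fin (k + 1) → ι, ¬ Function.Injective e := by
    intro e he
    obtain ⟨r, hr⟩ := exists_lin_indep (k + 1)
    let β : stab y x →* Multiplicative ℝ := IsFreeGroup.lift (fun a =>
      if ha : ∃ j, e j = a then Multiplicative.ofAdd (r ha.choose) else 1)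
    have hβ : ∀ j, (β (IsFreeGroup.of (e j))).toAdd = r j := by
      intro j
      have ha : ∃ j', e j' = e j := ⟨j, rfl⟩
      have h1 : ha.choose = j := he ha.choose_spec
      simp only [β, IsFreeGroup.lift_of]
      rw [dif_pos ha, h1]; rfl
    let ρ : stab y x →* (ℝ ≃o ℝ) := trans.comp β
    have hcov := covers_ind y x ρ
    have hcovW := hcov.map' W h
    have hcovVW := hcovW.map' V h'
    -- the holonomy of `W u` commutes with translations
    have hcomm : ∀ (c : stab z x) (s : ℝ), hol hcovW x c s = s + hol hcovW x c 0 := by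
      intro c s
      let τ : (Ω ×ₗ ℝ) ≃o (Ω ×ₗ ℝ) := skew 1 (fun _ => trans (Multiplicative.ofAdd s))
      have hτ : ∀ i p, τ (ind y x ρ i p) = ind y x ρ i (τ p) := by
        intro i p
        have hext : ∀ (g : FreeGroup (Fin n)) (t : ℝ), ext1 ρ g t + s = ext1 ρ g (t + s) := by
          intro g t
          by_cases hg : g ∈ stab y x
          · rw [ext1_of_mem ρ hg]
            show (t + _) + s = (t + s) + _
            ring
          · simp [ext1, hg]
        show toLex (y i (ofLex p).1, ext1 ρ _ (ofLex p).2 + s) =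
          toLex (y i (ofLex p).1, ext1 ρ _ ((ofLex p).2 + s))
        rw [hext]; rfl
      have h1 : ∀ i p, τ (W.map _ (ind y x ρ) i p) = W.map _ (ind y x ρ) i (τ p) :=
        fun i p => W.commute hτ i p
      have h2 := intertwine (π := fun p => τ p) h1 (c : FreeGroup (Fin n)) (toLex (x, (0 : ℝ)))
      rw [act_hol hcovW x 0 c] at h2
      have h3 : τ (toLex (x, (0 : ℝ))) = toLex (x, s) := by simp [τ]
      rw [h3, act_hol hcovW x s c] at h2
      have h4 := congrArg (fun p => (ofLex p).2) h2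
      simp only [ofLex_toLex] at h4
      rw [← h4]
      show hol hcovW x c 0 + s = _
      ring
    let γ : stab z x →* Multiplicative ℝ :=
      { toFun := fun c => Multiplicative.ofAdd (hol hcovW x c 0)
        map_one' := by simp
        map_mul' := by
          intro c d
          rw [← ofAdd_add, map_mul, RelIso.mul_apply, hcomm c (hol hcovW x d 0), add_comm] }
    have hβγ : ∀ d : stab y x, ∃ g : stab z x, (β d).toAdd = (γ g).toAdd := by
      intro d
      have e1 : hol hcovVW x d (0 : ℝ) = (β d).toAdd := by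
        have h2 : ∀ (u : Fin n → ((Ω ×ₗ ℝ) ≃o (Ω ×ₗ ℝ))) (hu : Covers u y),
            u = ind y x ρ → hol hu x d 0 = (β d).toAdd := by
          intro u hu he
          subst he
          rw [hol_ind]
          show (0 : ℝ) + (β d).toAdd = _
          rw [zero_add]
        exact h2 _ _ (hVW _ _)
      obtain ⟨F, hF⟩ := V.exists_word (d : FreeGroup (Fin n))
      obtain ⟨g, -, hg⟩ := hF _ (W.map _ (ind y x ρ)) (toLex (x, (0 : ℝ)))
      rw [act_hol hcovVW x 0 d] at hg
      have hgs : g ∈ stab z x := by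
        have := hcovW.act g (toLex (x, (0 : ℝ)))
        rw [← hg] at this
        exact this.symm
      rw [act_hol' hcovW x 0 hgs] at hg
      have h4 := congrArg (fun p => (ofLex p).2) hg
      simp only [ofLex_toLex] at h4
      exact ⟨⟨g, hgs⟩, by rw [← e1, h4]; rfl⟩
    -- dimension count
    let S : Submodule ℚ ℝ := Submodule.span ℚ (Set.range (fun i : Fin k =>
      (γ (ez (FreeGroup.of i))).toAdd))
    have hS : ∀ g : FreeGroup (Fin k), (γ (ez g)).toAdd ∈ S := by
      intro g
      induction g using freeGroup_induction_left with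
      | h1 => simp
      | hof i g ih =>
        rw [map_mul, map_mul, toAdd_mul]
        exact S.add_mem (Submodule.subset_span ⟨i, rfl⟩) ih
      | hinv i g ih =>
        rw [map_mul, map_mul, toAdd_mul, map_inv, map_inv, toAdd_inv]
        exact S.add_mem (S.neg_mem (Submodule.subset_span ⟨i, rfl⟩)) ih
    have hrS : ∀ j, r j ∈ S := by
      intro j
      obtain ⟨g, hg⟩ := hβγ (IsFreeGroup.of (e j))
      rw [hβ] at hg
      have := hS (ez.symm g)
      rw [MulEquiv.apply_symm_apply] at this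
      rw [hg]; exact this
    have hfin : Module.finrank ℚ S ≤ k := by
      have := finrank_range_le_card (R := ℚ) (fun i : Fin k => (γ (ez (FreeGroup.of i))).toAdd)
      simpa [Set.finrank, S] using this
    have hli : LinearIndependent ℚ (fun j : Fin (k + 1) => (⟨r j, hrS j⟩ : S)) := by
      apply LinearIndependent.of_comp S.subtype
      exact hr
    have : FiniteDimensional ℚ S := FiniteDimensional.span_of_finite ℚ (Set.finite_range _)
    have := hli.fintype_card_le_finrank
    simp at this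
    omega
  have hfinite : Finite ι := by
    by_contra hinf
    rw [not_finite_iff_infinite] at hinf
    exact hno (fun i => Infinite.natEmbedding ι i) (fun a b hab => by
      have := (Infinite.natEmbedding ι).injective hab
      exact Fin.ext this)
  have := Fintype.ofFinite ι
  have hcard : Fintype.card ι ≤ k := by
    by_contra hc
    push Not at hc
    obtain ⟨e⟩ : Nonempty (Fin (k + 1) ↪ ι) := by
      apply Function.Embedding.nonempty_of_card_le
      simpa using hc
    exact hno e e.injective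
  refine ⟨Fintype.card ι, hcard, ⟨?_⟩⟩
  exact (FreeGroup.freeGroupCongr (Fintype.equivFin ι).symm).trans (IsFreeGroup.mulEquiv _)

/-- a group with a left invariant total order embedding in the integers is commutative -/
theorem comm_of_int_order {C : Type} [Group C] (f : C → ℤ) (hinj : Function.Injective f)
    (hleft : ∀ a b c : C, f a < f b → f (c * a) < f (c * b)) (a b : C) : a * b = b * a := by
  classical
  by_cases htriv : ∀ c : C, c = 1
  · rw [htriv a, htriv b]
  push Not at htriv
  obtain ⟨c₀, hc₀⟩ := htriv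
  have hpos : ∃ c : C, f 1 < f c := by
    rcases lt_trichotomy (f 1) (f c₀) with h | h | h
    · exact ⟨c₀, h⟩
    · exact absurd (hinj h).symm hc₀
    · exact ⟨c₀⁻¹, by have := hleft _ _ c₀⁻¹ h; simpa using this⟩
  -- least positive element
  have hex : ∃ k : ℕ, ∃ c : C, f c = f 1 + 1 + k := by
    obtain ⟨c, hc⟩ := hpos
    exact ⟨(f c - f 1 - 1).toNat, c, by omega⟩
  obtain ⟨c, hc⟩ := Nat.find_spec hex
  have hmin : ∀ d : C, f 1 < f d → f c ≤ f d := by
    intro d hd
    by_contra hlt
    push Not at hlt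
    have : (f d - f 1 - 1).toNat < Nat.find hex := by omega
    exact Nat.find_min hex this ⟨d, by omega⟩
  have hc1 : f 1 < f c := by omega
  have hstep : ∀ k : ℤ, f (c ^ k) < f (c ^ (k + 1)) := by
    intro k
    have := hleft 1 c (c ^ k) hc1
    rwa [mul_one, ← zpow_add_one] at this
  have hmono : StrictMono (fun k : ℤ => f (c ^ k)) := strictMono_int_of_lt_succ hstep
  have hge : ∀ k : ℕ, f (c ^ (k : ℤ)) ≥ f 1 + k ∧ f (c ^ (-(k : ℤ))) ≤ f 1 - k := by
    intro k
    induction k with
    | zero => simp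
    | succ k ih =>
      have h1 := hstep k
      have h2 := hstep (-((k : ℤ) + 1))
      rw [show -((k : ℤ) + 1) + 1 = -(k : ℤ) by ring] at h2
      push_cast
      constructor
      · linarith [ih.1]
      · linarith [ih.2]
  have hpow : ∀ d : C, ∃ k : ℤ, d = c ^ k := by
    intro d
    have hbdd : ∃ B : ℤ, ∀ k : ℤ, f (c ^ k) ≤ f d → k ≤ B := by
      refine ⟨(f d - f 1).toNat, fun k hk => ?_⟩
      by_contra hlt
      push Not at hlt
      have h1 := (hge k.toNat).1
      have h2 : ((k.toNat : ℕ) : ℤ) = k := Int.toNat_of_nonneg (by omega)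
      rw [h2] at h1
      omega
    have hne : ∃ k : ℤ, f (c ^ k) ≤ f d := by
      refine ⟨-((f 1 - f d).toNat : ℤ), ?_⟩
      have := (hge (f 1 - f d).toNat).2
      omega
    obtain ⟨k, hk1, hk2⟩ := Int.exists_greatest_of_bdd hbdd hne
    have h3 : f d < f (c ^ (k + 1)) := by
      by_contra hcon
      push Not at hcon
      have := hk2 _ hcon
      omega
    refine ⟨k, ?_⟩
    have h4 : f (c ^ (-k) * d) < f c := by
      have := hleft _ _ (c ^ (-k)) h3
      rwa [← zpow_add, neg_add_cancel_left, zpow_one] at this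
    have h5 : ¬ f 1 < f (c ^ (-k) * d) := fun hh => absurd (hmin _ hh) (not_le.2 h4)
    have h6 : ¬ f (c ^ (-k) * d) < f 1 := by
      intro hh
      have := hleft _ _ (c ^ k) hh
      rw [← mul_assoc, ← zpow_add, add_neg_cancel, zpow_zero, one_mul, mul_one] at this
      omega
    have h7 : c ^ (-k) * d = 1 := hinj (by omega)
    rw [zpow_neg, inv_mul_eq_one] at h7
    exact h7.symm
  obtain ⟨k, rfl⟩ := hpow a
  obtain ⟨l, rfl⟩ := hpow b
  rw [← zpow_add, ← zpow_add, add_comm]

theorem mem_zpowers_fin_one (g : FreeGroup (Fin 1)) :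
    ∃ k : ℤ, g = (FreeGroup.of (0 : Fin 1)) ^ k := by
  induction g using freeGroup_induction_left with
  | h1 => exact ⟨0, by simp⟩
  | hof i g ih =>
    obtain ⟨k, rfl⟩ := ih
    have : i = 0 := Subsingleton.elim _ _
    subst this
    exact ⟨1 + k, by rw [zpow_add, zpow_one]⟩
  | hinv i g ih =>
    obtain ⟨k, rfl⟩ := ih
    have : i = 0 := Subsingleton.elim _ _
    subst this
    exact ⟨-1 + k, by rw [zpow_add, zpow_neg, zpow_one]⟩

/-- the stabiliser of `y` cannot be cyclic if the stabiliser of `z` is not commutative -/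
theorem comm_of_cyclic (W : LocFam n n)
    {y z : Fin n → (Ω ≃o Ω)} (h : W.map Ω y = z) (x : Ω)
    {Ω₂ : Type} [LinearOrder Ω₂] {y₂ z₂ : Fin n → (Ω₂ ≃o Ω₂)}
    {x₂ : Ω₂} (h₂ : W.map Ω₂ y₂ = z₂) (hf : Finer y₂ x₂ y x) (ht : stab z₂ x₂ = ⊥)
    (d : FreeGroup (Fin n)) (hd : ∀ g ∈ stab y x, ∃ k : ℤ, g = d ^ k) (a b : stab z x) :
    a * b = b * a := by
  classical
  have hinj₂ : ∀ g k : FreeGroup (Fin n), act z₂ g x₂ = act z₂ k x₂ → g = k := by
    intro g k hgk
    have : k⁻¹ * g ∈ stab z₂ x₂ := inv_mul_mem_stab.2 hgk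
    rw [ht, Subgroup.mem_bot, inv_mul_eq_one] at this
    exact this.symm
  have hk : ∀ c : stab z x, ∃ k : ℤ, act z₂ c x₂ = act y₂ (d ^ k) x₂ := by
    intro c
    obtain ⟨g, hg, hg2⟩ := exists_mem_stab_of_loc W h h₂ hf c.2
    obtain ⟨k, rfl⟩ := hd g hg
    exact ⟨k, hg2⟩
  choose k hk using hk
  rcases lt_trichotomy (act y₂ d x₂) x₂ with hlt | heq | hlt
  · have hmono : StrictAnti (fun j : ℤ => act y₂ (d ^ j) x₂) := by
      apply strictAnti_int_of_succ_lt
      intro j
      rw [zpow_add_one, act_mul]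
      exact (act_lt_iff _ _ _ _).2 hlt
    apply comm_of_int_order (fun c : stab z x => - k c)
    · intro c c' hcc
      have hcc : k c = k c' := by simpa using hcc
      apply Subtype.ext
      apply hinj₂
      rw [hk, hk, hcc]
    · intro a b c hab
      simp only [neg_lt_neg_iff] at hab ⊢
      rw [← hmono.lt_iff_gt, ← hk, ← hk] at hab ⊢
      simp only [Subgroup.coe_mul, act_mul]
      exact (act_lt_iff _ _ _ _).2 hab
  · have hfix : ∀ j : ℤ, act y₂ (d ^ j) x₂ = x₂ := fun j => (stab y₂ x₂).zpow_mem heq j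
    have : ∀ c : stab z x, c = 1 := by
      intro c
      apply Subtype.ext
      apply hinj₂
      rw [hk, hfix]; simp
    rw [this a, this b]
  · have hmono : StrictMono (fun j : ℤ => act y₂ (d ^ j) x₂) := by
      apply strictMono_int_of_lt_succ
      intro j
      rw [zpow_add_one, act_mul]
      exact (act_lt_iff _ _ _ _).2 hlt
    apply comm_of_int_order (fun c : stab z x => k c)
    · intro c c' hcc
      have hcc : k c = k c' := hcc
      apply Subtype.ext
      apply hinj₂
      rw [hk, hk, hcc]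
    · intro a b c hab
      have hab : k a < k b := hab
      show k (c * a) < k (c * b)
      rw [← hmono.lt_iff_lt, ← hk, ← hk] at hab ⊢
      simp only [Subgroup.coe_mul, act_mul]
      exact (act_lt_iff _ _ _ _).2 hab

/-- equality of ranks in the presence of a fixed refinement with trivial stabiliser -/
theorem rank_eq {k : ℕ} (hk : k ≤ 2) (W V : LocFam n n)
    (hVW : ∀ (Ω : Type) [LinearOrder Ω] (z : Fin n → (Ω ≃o Ω)), V.map Ω (W.map Ω z) = z)
    {z : Fin n → (Ω ≃o Ω)} (hz : W.map Ω (V.map Ω z) = z) (x : Ω)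
    (ez : FreeGroup (Fin k) ≃* stab z x)
    {Ω₂ : Type} [LinearOrder Ω₂] {z₂ : Fin n → (Ω₂ ≃o Ω₂)} {x₂ : Ω₂}
    (hz₂ : W.map Ω₂ (V.map Ω₂ z₂) = z₂) (hf : Finer z₂ x₂ z x) (ht : stab z₂ x₂ = ⊥) :
    Nonempty (FreeGroup (Fin k) ≃* stab (V.map Ω z) x) := by
  obtain ⟨l, hl, ⟨e⟩⟩ := rank_le W V hVW hz rfl x ez
  have hf' := hf.map V
  by_cases hlk : l = k
  · subst hlk; exact ⟨e⟩
  exfalso
  have hlt : l < k := lt_of_le_of_ne hl hlk
  have hk0 : k ≠ 0 := by omega
  -- the stabiliser of `V z` is cyclic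
  have hl1 : l = 0 ∨ l = 1 := by omega
  have hcyc : ∃ d : FreeGroup (Fin n), (∀ g ∈ stab (V.map Ω z) x, ∃ j : ℤ, g = d ^ j) ∧
      (l = 0 → d = 1) := by
    rcases hl1 with rfl | rfl
    · refine ⟨1, ?_, fun _ => rfl⟩
      intro g hg
      refine ⟨0, ?_⟩
      have h1 : e.symm ⟨g, hg⟩ = 1 := Subsingleton.elim _ _
      have h2 : (⟨g, hg⟩ : stab (V.map Ω z) x) = 1 := by
        rw [← e.apply_symm_apply ⟨g, hg⟩, h1, map_one]
      have := congrArg Subtype.val h2
      simpa using this
    · refine ⟨(e (FreeGroup.of 0) : FreeGroup (Fin n)), ?_, fun h => absurd h (by norm_num)⟩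
      intro g hg
      obtain ⟨j, hj⟩ := mem_zpowers_fin_one (e.symm ⟨g, hg⟩)
      refine ⟨j, ?_⟩
      have h2 : (⟨g, hg⟩ : stab (V.map Ω z) x) = (e (FreeGroup.of 0)) ^ j := by
        rw [← e.apply_symm_apply ⟨g, hg⟩, hj, map_zpow]
      have := congrArg Subtype.val h2
      simpa using this
  obtain ⟨d, hd, hd0⟩ := hcyc
  rcases hl1 with rfl | rfl
  · -- trivial stabiliser
    have htriv : ∀ c : stab z x, c = 1 := by
      intro c
      obtain ⟨g, hg, hg2⟩ := exists_mem_stab_of_loc W hz hz₂ hf' c.2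
      obtain ⟨j, rfl⟩ := hd g hg
      rw [hd0 rfl, one_zpow, act_one] at hg2
      have : (c : FreeGroup (Fin n)) ∈ stab z₂ x₂ := hg2
      rw [ht, Subgroup.mem_bot] at this
      exact Subtype.ext this
    have h1 : ez (FreeGroup.of ⟨0, by omega⟩) = ez 1 := by rw [htriv (ez _), map_one]
    have h2 := ez.injective h1
    exact FreeGroup.of_ne_one _ h2
  · have hk2 : k = 2 := by omega
    subst hk2
    have hcomm := comm_of_cyclic W hz x hz₂ hf' ht d hd (ez (FreeGroup.of 0)) (ez (FreeGroup.of 1))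
    rw [← map_mul, ← map_mul] at hcomm
    have h2 := ez.injective hcomm
    have h3 := congrArg (FreeGroup.lift (fun i : Fin 2 => if i = 0 then
      (Equiv.swap (0 : Fin 3) 1) else Equiv.swap (1 : Fin 3) 2)) h2
    simp only [map_mul, FreeGroup.lift_apply_of] at h3
    revert h3
    decide

end rank

end Pool.Agent.Helper9.Hopf
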