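import Pool.Agent.Helper9.Hopf.Skew

set_option autoImplicit false

namespace Pool.Agent.Helper9.Hopf

open Nat

/-- residually finite quotients of an abelian group by multiples -/
def Res (A : Type) [AddCommGroup A] : Prop :=
  (∀ m : ℕ, ∃ (ι : Type) (_ : Fintype ι) (q : A → ι), Function.Surjective q ∧
    ∀ a b, q a = q b ↔ ∃ c, b = a + (m !) • c) ∧
  (∀ a : A, a ≠ 0 → ∃ m : ℕ, ∀ c, a ≠ (m !) • c)

theorem res_of_equiv {A : Type} [AddCommGroup A] {κ : Type} [Fintype κ]
    (e : A ≃+ (κ → ℤ)) : Res A := by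
  classical
  have hsm : ∀ (m : ℕ) (c : A) (i : κ), e (m • c) i = (m : ℤ) * e c i := by
    intro m c i
    rw [map_nsmul]; simp
  constructor
  · intro m
    have : NeZero (m !) := ⟨Nat.factorial_ne_zero m⟩
    refine ⟨κ → ZMod (m !), inferInstance, fun a i => (e a i : ZMod (m !)), ?_, ?_⟩
    · intro k
      refine ⟨e.symm (fun i => ((k i).val : ℤ)), ?_⟩
      funext i
      simp
    · intro a a'
      constructor
      · intro h
        have h1 : ∀ i, ∃ w : ℤ, e a' i - e a i = (m ! : ℤ) * w := by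
          intro i
          have h2 := congrFun h i
          simp only at h2
          rw [ZMod.intCast_eq_intCast_iff_dvd_sub] at h2
          exact h2
        choose w hw using h1
        refine ⟨e.symm w, ?_⟩
        apply e.injective
        funext i
        rw [map_add, Pi.add_apply, hsm, AddEquiv.apply_symm_apply, ← hw]
        ring
      · rintro ⟨c, rfl⟩
        funext i
        show ((e a i : ℤ) : ZMod (m !)) = ((e (a + (m !) • c) i : ℤ) : ZMod (m !))
        rw [map_add, Pi.add_apply, hsm]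
        push_cast
        simp
  · intro a ha
    have h1 : e a ≠ 0 := by
      intro h; exact ha (by simpa using h)
    obtain ⟨i, hi⟩ := Function.ne_iff.1 h1
    simp only [Pi.zero_apply] at hi
    refine ⟨(e a i).natAbs + 1, ?_⟩
    intro c hc
    have h2 := hsm (((e a i).natAbs + 1)!) c i
    rw [← hc] at h2
    have h3 : (e a i).natAbs = ((e a i).natAbs + 1)! * (e c i).natAbs := by
      conv_lhs => rw [h2]
      rw [Int.natAbs_mul, Int.natAbs_natCast]
    have h4 : (e c i).natAbs ≠ 0 := by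
      intro h0
      rw [h0, mul_zero] at h3
      exact hi (Int.natAbs_eq_zero.1 h3)
    have h5 : (e a i).natAbs + 1 ≤ ((e a i).natAbs + 1)! := Nat.self_le_factorial _
    have h6 : ((e a i).natAbs + 1)! * 1 ≤ ((e a i).natAbs + 1)! * (e c i).natAbs :=
      Nat.mul_le_mul_left _ (Nat.one_le_iff_ne_zero.2 h4)
    omega

/-- finitely generated subgroups of the reals are residually finite -/
theorem res_closure (S : Finset ℝ) : Res (AddSubgroup.closure (S : Set ℝ)) := by
  have hfg : AddGroup.FG (AddSubgroup.closure (S : Set ℝ)) := by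
    rw [AddGroup.fg_iff_addSubgroup_fg]
    exact ⟨S, rfl⟩
  have : Module.Finite ℤ (AddSubgroup.closure (S : Set ℝ)) :=
    Module.Finite.iff_addGroup_fg.2 hfg
  have : Module.Free ℤ (AddSubgroup.closure (S : Set ℝ)) := inferInstance
  exact res_of_equiv
    (Module.finBasis ℤ (AddSubgroup.closure (S : Set ℝ))).equivFun.toAddEquiv

/-- tower of symmetry groups -/
structure IsTower {n : ℕ} {Ω : Type} [LinearOrder Ω] (T : ℕ → Set (Ω ≃o Ω))
    (z : Fin n → (Ω ≃o Ω)) : Prop where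
  anti : ∀ m, T (m + 1) ⊆ T m
  comm : ∀ t ∈ T 0, ∀ i u, t (z i u) = z i (t u)
  quot : ∀ m, ∃ (ι : Type) (_ : Fintype ι) (q : Ω → ι), Function.Surjective q ∧
    ∀ v v', q v = q v' ↔ ∃ t ∈ T m, t v = v'
  sep : ∀ v v', v ≠ v' → ∃ m, ∀ t ∈ T m, t v ≠ v'

section tower
variable {n : ℕ} {Ω : Type} [LinearOrder Ω] {T : ℕ → Set (Ω ≃o Ω)} {z : Fin n → (Ω ≃o Ω)}

theorem IsTower.anti' (h : IsTower T z) {m m' : ℕ} (hm : m ≤ m') : T m' ⊆ T m := by
  induction hm with
  | refl => exact subset_rfl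
  | step _ ih => exact (h.anti _).trans ih

theorem IsTower.comm' (h : IsTower T z) {m : ℕ} {t : Ω ≃o Ω} (ht : t ∈ T m) (i : Fin n) (u : Ω) :
    t (z i u) = z i (t u) := h.comm t (h.anti' (Nat.zero_le m) ht) i u

/-- a level separating a finite set -/
theorem IsTower.exists_level (h : IsTower T z) (S : Finset Ω) :
    ∃ m, ∀ v ∈ S, ∀ v' ∈ S, v ≠ v' → ∀ t ∈ T m, t v ≠ v' := by
  classical
  have h1 : ∀ p : Ω × Ω, ∃ m, p.1 ≠ p.2 → ∀ t ∈ T m, t p.1 ≠ p.2 := by
    intro p
    by_cases hp : p.1 = p.2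
    · exact ⟨0, fun h => absurd hp h⟩
    · obtain ⟨m, hm⟩ := h.sep p.1 p.2 hp
      exact ⟨m, fun _ => hm⟩
  choose m hm using h1
  refine ⟨(S ×ˢ S).sup m, ?_⟩
  intro v hv v' hv' hne t ht
  have hle : m (v, v') ≤ (S ×ˢ S).sup m := Finset.le_sup (f := m) (by simp [hv, hv'])
  exact hm (v, v') hne t (h.anti' hle ht)

theorem isTower_unit (z : Fin n → (Unit ≃o Unit)) : IsTower (fun _ => {1}) z where
  anti _ := subset_rfl
  comm t _ i u := Subsingleton.elim _ _
  quot _ := ⟨Unit, inferInstance, id, Function.surjective_id, fun v v' =>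
    ⟨fun _ => ⟨1, rfl, Subsingleton.elim _ _⟩, fun _ => Subsingleton.elim _ _⟩⟩
  sep v v' h := absurd (Subsingleton.elim _ _) h

theorem IsTower.skew {A : Type} [AddCommGroup A] [LinearOrder A] [IsOrderedAddMonoid A]
    (hA : Res A) (h : IsTower T z) (m₀ : ℕ) (f : Fin n → Ω → A)
    (hf : ∀ i, ∀ t ∈ T m₀, ∀ v, f i (t v) = f i v) :
    ∃ T' : ℕ → Set ((Ω ×ₗ A) ≃o (Ω ×ₗ A)),
      IsTower T' (fun i => Hopf.skew (z i) (fun v => OrderIso.addRight (f i v))) := by
  classical
  refine ⟨fun m => {s | ∃ t ∈ T (m₀ + m), ∃ a : A,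
    s = Hopf.skew t (fun _ => OrderIso.addRight ((m !) • a))}, ?_, ?_, ?_, ?_⟩
  · rintro m s ⟨t, ht, a, rfl⟩
    refine ⟨t, h.anti _ ht, (m + 1) • a, ?_⟩
    rw [smul_smul, Nat.factorial_succ, mul_comm]
  · rintro s ⟨t, ht, a, rfl⟩ i u
    have ht0 : t ∈ T m₀ := h.anti' (by omega) ht
    show toLex (t (z i (ofLex u).1), ((ofLex u).2 + f i (ofLex u).1) + (0 !) • a) =
      toLex (z i (t (ofLex u).1), ((ofLex u).2 + (0 !) • a) + f i (t (ofLex u).1))
    rw [hf i t ht0, h.comm' ht0, add_right_comm]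
  · intro m
    obtain ⟨ι, _, q, hq, hq2⟩ := h.quot (m₀ + m)
    obtain ⟨ι', _, q', hq', hq2'⟩ := hA.1 m
    refine ⟨ι × ι', inferInstance, fun u => (q (ofLex u).1, q' (ofLex u).2), ?_, ?_⟩
    · rintro ⟨k, k'⟩
      obtain ⟨v, rfl⟩ := hq k
      obtain ⟨a, rfl⟩ := hq' k'
      exact ⟨toLex (v, a), rfl⟩
    · intro v v'
      constructor
      · intro he
        have he1 : q (ofLex v).1 = q (ofLex v').1 := congrArg Prod.fst he
        have he2 : q' (ofLex v).2 = q' (ofLex v').2 := congrArg Prod.snd he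
        obtain ⟨t, ht, htv⟩ := (hq2 _ _).1 he1
        obtain ⟨a, ha⟩ := (hq2' _ _).1 he2
        refine ⟨_, ⟨t, ht, a, rfl⟩, ?_⟩
        show toLex (t (ofLex v).1, (ofLex v).2 + (m !) • a) = v'
        rw [htv, ← ha]; rfl
      · rintro ⟨s, ⟨t, ht, a, rfl⟩, rfl⟩
        have e1 : q (ofLex v).1 = q (t (ofLex v).1) := (hq2 _ _).2 ⟨t, ht, rfl⟩
        have e2 : q' (ofLex v).2 = q' ((ofLex v).2 + (m !) • a) := (hq2' _ _).2 ⟨a, rfl⟩
        exact Prod.ext e1 e2
  · intro v v' hne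
    by_cases h1 : (ofLex v).1 = (ofLex v').1
    · have h2 : (ofLex v').2 - (ofLex v).2 ≠ 0 := by
        intro h3
        apply hne
        have h4 : (ofLex v).2 = (ofLex v').2 := (sub_eq_zero.1 h3).symm
        show ofLex v = ofLex v'
        exact Prod.ext h1 h4
      obtain ⟨m, hm⟩ := hA.2 _ h2
      refine ⟨m, ?_⟩
      rintro s ⟨t, ht, a, rfl⟩ he
      apply hm a
      rw [← he]
      show (ofLex v).2 + (m !) • a - (ofLex v).2 = _
      abel
    · obtain ⟨m, hm⟩ := h.sep _ _ h1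
      refine ⟨m, ?_⟩
      rintro s ⟨t, ht, a, rfl⟩ he
      apply hm t (h.anti' (by omega) ht)
      rw [← he]; rfl

end tower

end Pool.Agent.Helper9.Hopf
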